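import Pool.Agent.FermD.Lift

/-!
# FD7: the map of the groups from level `n` to level `m`

`bt_Lf`, `Lf_Lf`, `Lf_self`: homomorphisms `A n →+ _` which agree on the `e x` are equal (see `ext`
and its uniqueness lemma in `Stick`), so it is enough to treat `v = e x`: `bt t (e (mulD m n x)) =
hh m (mulD m n (t' x)) = hh n (t' x)` (`mul_mulD`, `mulD_val`; `hh` is in `StarkRQ`), `mulD_mulD`.
`bv_Lf_eq_zero`: `bt_Lf` and `ZMod.unitsMap_surjective`.
`Lf_RelE`: induction on the closure (`AddSubgroup.closure_induction`): pairs go to pairs; the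
distribution relation of a prime `l ∣ n` at `x` goes to the one at `mulD m n x` (`mulD_distSet` and
`toA_distSet` in `Stick/Conv.lean`, or directly); `mulD m n (n / 2) = m / 2` (if `2 ∣ n`);
`e 0` goes to `e 0`. `RelE_bv`: pairs: `hh (-x) = - hh x` for `x ≠ 0`; distribution relations:
`beta_relD` in `Stick/Lattice3.lean` with `P = 1`, `f = 1` (all elements in these relations are
different from zero: `relD_zero`, so `bt` and `beta 1 1` agree; or directly); `m / 2`:
`hh_half`.
-/

set_option autoImplicit false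

namespace Pool.Agent.FermD

open Finset Pool.Stick Pool.Agent.StarkRQ

variable {m n k : ℕ} [NeZero m] [NeZero n] [NeZero k]

private theorem hom_ext' {Q : Type*} [AddCommGroup Q] {φ ψ : A n →+ Q}
    (h : ∀ x, φ (e x) = ψ (e x)) : φ = ψ := by
  refine Finsupp.addHom_ext' fun x => AddMonoidHom.ext_int ?_
  exact h x

private theorem mulD_ne_zero (h : n ∣ m) {x : ZMod n} (hx : x ≠ 0) : mulD m n x ≠ 0 := by
  intro h0
  apply hx
  apply mulD_inj h
  rw [h0, mulD_zero]

private theorem hh_mulD (h : n ∣ m) (x : ZMod n) : hh m (mulD m n x) = hh n x := by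
  unfold hh
  rw [mulD_val h]
  have hn : (n : ℝ) ≠ 0 := by exact_mod_cast NeZero.ne n
  have hm : (m : ℝ) ≠ 0 := by exact_mod_cast NeZero.ne m
  have h1 : ((m / n : ℕ) : ℝ) * n = m := by
    rw [← Nat.cast_mul, Nat.div_mul_cancel h]
  have hq : ((m / n : ℕ) : ℝ) ≠ 0 := by
    intro h0
    rw [h0, zero_mul] at h1
    exact hm h1.symm
  rw [← h1]
  push_cast
  field_simp

theorem bt_Lf (h : n ∣ m) (t : (ZMod m)ˣ) (v : A n) :
    bt t (Lf m n v) = bt (ZMod.unitsMap h t) v := by
  have h1 : (bt t).comp (Lf m n) = bt (ZMod.unitsMap h t) := by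
    refine hom_ext' fun x => ?_
    rw [AddMonoidHom.comp_apply, Lf_e, bt_e, bt_e]
    by_cases hx : x = 0
    · subst hx
      rw [mulD_zero, if_pos rfl, if_pos rfl]
    · rw [if_neg hx, if_neg (mulD_ne_zero h hx), mul_mulD h, hh_mulD h]
  exact DFunLike.congr_fun h1 v

theorem bv_Lf_eq_zero (h : n ∣ m) {v : A n} : bv (Lf m n v) = 0 ↔ bv v = 0 := by
  constructor
  · intro h0
    funext t
    obtain ⟨u, rfl⟩ := ZMod.unitsMap_surjective h t
    have h1 := congrFun h0 u
    rw [bv_apply, bt_Lf h] at h1
    exact h1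
  · intro h0
    funext t
    rw [bv_apply, bt_Lf h]
    exact congrFun h0 _

theorem Lf_Lf (h : n ∣ m) (h' : k ∣ n) (v : A k) : Lf m n (Lf n k v) = Lf m k v := by
  have h1 : (Lf m n).comp (Lf n k) = Lf m k := by
    refine hom_ext' fun x => ?_
    rw [AddMonoidHom.comp_apply, Lf_e, Lf_e, Lf_e, mulD_mulD h h']
  exact DFunLike.congr_fun h1 v

theorem Lf_self (v : A m) : Lf m m v = v := by
  have h1 : Lf m m = AddMonoidHom.id (A m) := by
    refine hom_ext' fun x => ?_
    rw [Lf_e, AddMonoidHom.id_apply]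
    unfold mulD
    rw [Nat.div_self (NeZero.pos m), one_mul, ZMod.natCast_zmod_val]
  exact DFunLike.congr_fun h1 v

private theorem Lf_toA' (u : Multiset (ZMod n)) : Lf m n (toA u) = toA (u.map (mulD m n)) := by
  induction u using Multiset.induction_on with
  | empty => simp [toA_zero]
  | cons c u ih => rw [toA_cons, map_add, ih, Lf_e, Multiset.map_cons, toA_cons]

theorem Lf_RelE (h : n ∣ m) {v : A n} (hv : v ∈ RelE n) : Lf m n v ∈ RelE m := by
  have h1 : RelE n ≤ (RelE m).comap (Lf m n) := by
    unfold RelE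
    rw [AddSubgroup.closure_le]
    rintro v ((⟨c, hc, rfl⟩ | ⟨l, hl, hln, x, hx, rfl⟩) | (rfl | ⟨h2, rfl⟩))
    · change Lf m n _ ∈ AddSubgroup.closure _
      rw [map_add, Lf_e, Lf_e, mulD_neg h]
      exact AddSubgroup.subset_closure (Or.inl (Or.inl ⟨_, mulD_ne_zero h hc, rfl⟩))
    · have hlx : (l : ZMod m) * mulD m n x ≠ 0 := by
        intro h0
        apply hx
        have h2 : (l : ZMod m) * mulD m n x = ((l * (m / n * x.val) : ℕ) : ZMod m) := by
          unfold mulD
          push_cast
          ring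
        rw [h2, ZMod.natCast_eq_zero_iff] at h0
        have h3 : (l : ZMod n) * x = ((l * x.val : ℕ) : ZMod n) := by
          rw [Nat.cast_mul, ZMod.natCast_zmod_val]
        rw [h3, ZMod.natCast_eq_zero_iff]
        have h4 : m / n * n ∣ m / n * (l * x.val) := by
          rw [Nat.div_mul_cancel h]
          have h5 : l * (m / n * x.val) = m / n * (l * x.val) := by ring
          rwa [h5] at h0
        exact Nat.dvd_of_mul_dvd_mul_left
          (Nat.div_pos (Nat.le_of_dvd (NeZero.pos m) h) (NeZero.pos n)) h4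
      have hv : (∑ z ∈ univ.filter (fun z : ZMod n => (l : ZMod n) * z = l * x), e z
          + e (-((l : ZMod n) * x)) + if l = 2 then e ((n / 2 : ℕ) : ZMod n) else 0) =
          toA (distSet n l x) := by
        unfold distSet
        rw [toA_add, toA_add, toA_singleton]
        congr 1
        split_ifs
        · rw [toA_singleton]
        · rw [toA_zero]
      change Lf m n _ ∈ AddSubgroup.closure _
      rw [hv, Lf_toA', mulD_distSet h hl hln]
      exact AddSubgroup.subset_closure (Or.inl (Or.inr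
        ⟨l, hl, hln.trans h, toA_distSet l _ hlx⟩))
    · change Lf m n _ ∈ AddSubgroup.closure _
      rw [Lf_e, mulD_zero]
      exact AddSubgroup.subset_closure (Or.inr (Or.inl rfl))
    · have h3 : mulD m n ((n / 2 : ℕ) : ZMod n) = ((m / 2 : ℕ) : ZMod m) := by
        have h4 : ((n / 2 : ℕ) : ZMod n).val = n / 2 :=
          ZMod.val_natCast_of_lt (Nat.div_lt_self (NeZero.pos n) (by norm_num))
        unfold mulD
        rw [h4]
        congr 1
        obtain ⟨c, hc⟩ := h
        obtain ⟨d, hd⟩ := h2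
        have hn := NeZero.pos n
        have h5 : m / n = c := by
          rw [hc]
          exact Nat.mul_div_cancel_left c hn
        have h6 : n / 2 = d := by omega
        have h7 : m / 2 = d * c := by
          rw [hc, hd, mul_assoc]
          exact Nat.mul_div_cancel_left _ (by norm_num)
        rw [h5, h6, h7, mul_comm]
      change Lf m n _ ∈ AddSubgroup.closure _
      rw [Lf_e, h3]
      exact AddSubgroup.subset_closure (Or.inr (Or.inr ⟨h2.trans h, rfl⟩))
  exact h1 hv

/-- `bt` and `beta` agree up to the value at zero -/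
private theorem beta_eq_bt (t : (ZMod m)ˣ) (v : A m) :
    beta 1 1 t v = bt t v + (v 0 : ℝ) * (1 / 2) := by
  let ev : A m →+ ℝ := ((AddMonoidHom.mulRight (1 / 2 : ℝ)).comp
    (Int.castAddHom ℝ)).comp (Finsupp.applyAddHom 0)
  have h1 : beta 1 1 t = bt t + ev := by
    refine hom_ext' fun x => ?_
    rw [AddMonoidHom.add_apply, bt_e, beta_e, sum_range_one, pow_zero, one_mul]
    have h2 : ev (e x) = ((e x : A m) 0 : ℝ) * (1 / 2) := rfl
    rw [h2]
    by_cases hx : x = 0
    · subst hx
      rw [if_pos rfl, mul_zero]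
      simp [hh, e]
    · rw [if_neg hx]
      have h3 : (e x : A m) 0 = 0 := Finsupp.single_eq_of_ne (fun h => hx h.symm)
      rw [h3]
      simp
  exact DFunLike.congr_fun h1 v

theorem RelE_bv {v : A m} (hv : v ∈ RelE m) : bv v = 0 := by
  have h1 : RelE m ≤ (bv (m := m)).ker := by
    unfold RelE
    rw [AddSubgroup.closure_le]
    rintro v ((⟨c, hc, rfl⟩ | ⟨l, hl, hlm, hv⟩) | (rfl | ⟨h2, rfl⟩))
    · rw [SetLike.mem_coe, AddMonoidHom.mem_ker]
      funext t
      rw [bv_apply, map_add, bt_e, bt_e, if_neg hc, if_neg (neg_ne_zero.2 hc), mul_neg,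
        hh_neg (unit_mul_ne_zero _ hc), add_neg_cancel]
      rfl
    · rw [SetLike.mem_coe, AddMonoidHom.mem_ker]
      funext t
      have h3 := beta_relD (P := (1 : (ZMod m)ˣ)) (f := 1) (Nat.mul_div_cancel' hlm).symm hl.pos
        (fun h => h ▸ hlm) t hv
      rw [beta_eq_bt, relD_zero hlm hv, Int.cast_zero, zero_mul, add_zero] at h3
      exact h3
    · rw [SetLike.mem_coe, AddMonoidHom.mem_ker]
      funext t
      rw [bv_apply, bt_e, if_pos rfl]
      rfl
    · rw [SetLike.mem_coe, AddMonoidHom.mem_ker]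
      funext t
      rw [bv_apply, bt_e]
      split_ifs
      · rfl
      · exact hh_half (fun _ => h2) t rfl
  exact h1 hv

end Pool.Agent.FermD
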