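import Pool.Agent.FermD.Defs

/-!
# FD5: the functionals span the odd functions

* `exists_ne_zero`: let `f` be the conductor of `χ` and `ψ = χ.primitiveCharacter` modulo `f` (odd, as in
  `LFunction_zero_ne_zero_gen` in `Stick/Gen1.lean`; `f ≠ 1`). Take `x = m / f` in `ZMod m`: it is not
  zero, and `hh m (t x) = hh f (t mod f)` (`(t x).val = (m / f) * (t.val % f)`). The sum is
  `∑ t, ψ (t mod f) * hh f (t mod f)`, and every unit modulo `f` has the same number `c ≥ 1` of
  preimages `t` (`ZMod.unitsMap_surjective`, fibres of a surjective homomorphism have the same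
  cardinality), so it is `c * LFunction ψ 0` (`LFunction_zero_eq`, `sum_units` in `Stick/Bern.lean`), and
  this is not zero by `LFunction_zero_ne_zero_of_primitive`.
* `even_of_orth`: for an odd character `χ` take `x` from `exists_ne_zero`. For every unit `u`:
  `∑ t, W t * hh m (t u x) = 0` (hypothesis at `u x ≠ 0`). Multiply by `χ u` and sum over `u`:
  `(∑ t, W t * χ t⁻¹) * (∑ y, χ y * hh m (y x)) = 0`, so `∑ t, W t * χ t⁻¹ = 0` for all odd `χ`. Now the end
  of the proof of `even_of_sum_eq_zero'` in `Stick/Bern.lean` (with real `W` instead of integral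
  `W`; copy it): `W` is even.
-/

set_option autoImplicit false

namespace Pool.Agent.FermD

open Finset Pool.Stick Pool.Agent.StarkRQ

variable {m : ℕ} [NeZero m]

private theorem hh_mul_div {f : ℕ} [NeZero f] (hf : f ∣ m) (t : ZMod m) :
    hh m (t * ((m / f : ℕ) : ZMod m)) = hh f (t.cast : ZMod f) := by
  have hm0 : 0 < m := NeZero.pos m
  have hf0 : 0 < f := NeZero.pos f
  obtain ⟨d, hd⟩ := hf
  have hdm : m / f = d := by rw [hd, Nat.mul_div_cancel_left _ hf0]
  have hd0 : 0 < d := by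
    rcases Nat.eq_zero_or_pos d with h | h
    · subst h
      omega
    · exact h
  rw [hdm]
  have h1 : t * (d : ZMod m) = ((d * (t.val % f) : ℕ) : ZMod m) := by
    conv_lhs => rw [← ZMod.natCast_zmod_val t, ← Nat.div_add_mod t.val f]
    have h2 : ((f * d : ℕ) : ZMod m) = 0 := by rw [← hd]; exact ZMod.natCast_self m
    push_cast at h2 ⊢
    linear_combination ((t.val / f : ℕ) : ZMod m) * h2
  have h3 : (t * (d : ZMod m)).val = d * (t.val % f) := by
    rw [h1, ZMod.val_natCast, Nat.mod_eq_of_lt]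
    have h4 : t.val % f < f := Nat.mod_lt _ hf0
    calc d * (t.val % f) < d * f := Nat.mul_lt_mul_of_pos_left h4 hd0
      _ = m := by rw [hd, mul_comm]
  have h5 : (t.cast : ZMod f).val = t.val % f := by
    rw [← ZMod.natCast_val, ZMod.val_natCast]
  unfold hh
  rw [h3, h5]
  have hdR : (d : ℝ) ≠ 0 := by exact_mod_cast hd0.ne'
  have hfR : (f : ℝ) ≠ 0 := by exact_mod_cast hf0.ne'
  have hmR : (m : ℝ) = f * d := by exact_mod_cast hd
  rw [hmR]
  push_cast
  field_simp

private theorem sum_comp_unitsMap {f : ℕ} [NeZero f] (hf : f ∣ m) (g : (ZMod f)ˣ → ℂ) :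
    ∃ c : ℕ, c ≠ 0 ∧ ∑ t : (ZMod m)ˣ, g (ZMod.unitsMap hf t) = c * ∑ y : (ZMod f)ˣ, g y := by
  classical
  have hs := ZMod.unitsMap_surjective hf
  refine ⟨(univ.filter fun t : (ZMod m)ˣ => ZMod.unitsMap hf t = 1).card, ?_, ?_⟩
  · rw [Finset.card_ne_zero]
    exact ⟨1, by simp⟩
  · rw [Finset.sum_comp g (fun t => ZMod.unitsMap hf t)]
    have h1 : (univ : Finset (ZMod m)ˣ).image (fun t => ZMod.unitsMap hf t) = univ :=
      Finset.image_univ_of_surjective hs
    rw [h1, Finset.mul_sum]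
    refine Finset.sum_congr rfl fun y _ => ?_
    rw [nsmul_eq_mul]
    congr 2
    exact MonoidHom.card_fiber_eq_of_mem_range (ZMod.unitsMap hf) (hs y) (hs 1)

theorem exists_ne_zero {χ : DirichletCharacter ℂ m} (hχ : χ.Odd) :
    ∃ x : ZMod m, x ≠ 0 ∧ ∑ t : (ZMod m)ˣ, χ t * (hh m ((t : ZMod m) * x) : ℂ) ≠ 0 := by
  have hm0 : 0 < m := NeZero.pos m
  have hc0 : χ.conductor ≠ 0 := DirichletCharacter.conductor_ne_zero χ
  have : NeZero χ.conductor := ⟨hc0⟩
  have h1 : χ ≠ 1 := by
    rintro rfl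
    have h := hχ
    rw [DirichletCharacter.Odd, MulChar.one_apply (isUnit_one.neg)] at h
    norm_num at h
  have hc1 : χ.conductor ≠ 1 := fun h =>
    h1 (DirichletCharacter.eq_one_iff_conductor_eq_one.2 h)
  have hdvd : χ.conductor ∣ m := DirichletCharacter.conductor_dvd_level χ
  have hch : χ = DirichletCharacter.changeLevel hdvd χ.primitiveCharacter :=
    (DirichletCharacter.changeLevel_primitiveCharacter χ).symm
  have hodd' : χ.primitiveCharacter.Odd := by
    have h := hχ
    unfold DirichletCharacter.Odd at h ⊢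
    have h2 := DirichletCharacter.changeLevel_eq_cast_of_dvd' χ.primitiveCharacter hdvd (a := -1)
      (IsCoprime.neg_left isCoprime_one_left)
    rw [← hch] at h2
    push_cast at h2
    rw [← h2, h]
  have hne := LFunction_zero_ne_zero_of_primitive
    (DirichletCharacter.primitiveCharacter_isPrimitive χ) hodd'
  refine ⟨((m / χ.conductor : ℕ) : ZMod m), ?_, ?_⟩
  · intro h
    rw [ZMod.natCast_eq_zero_iff] at h
    have h2 : 0 < m / χ.conductor := Nat.div_pos (Nat.le_of_dvd hm0 hdvd) (Nat.pos_of_ne_zero hc0)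
    have h3 : m / χ.conductor < m := Nat.div_lt_self hm0 (by omega)
    exact absurd (Nat.le_of_dvd h2 h) (by omega)
  · obtain ⟨c, hcne, hc⟩ := sum_comp_unitsMap hdvd
      (fun y => χ.primitiveCharacter (y : ZMod χ.conductor) *
        (hh χ.conductor (y : ZMod χ.conductor) : ℂ))
    have h2 : ∑ t : (ZMod m)ˣ, χ t * (hh m ((t : ZMod m) * ((m / χ.conductor : ℕ) : ZMod m)) : ℂ)
        = ∑ t : (ZMod m)ˣ, χ.primitiveCharacter (ZMod.unitsMap hdvd t : ZMod χ.conductor) *
        (hh χ.conductor (ZMod.unitsMap hdvd t : ZMod χ.conductor) : ℂ) := by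
      refine Finset.sum_congr rfl fun t _ => ?_
      rw [hh_mul_div hdvd, ZMod.unitsMap_val]
      congr 1
      conv_lhs => rw [hch]
      exact DirichletCharacter.changeLevel_eq_cast_of_dvd _ hdvd t
    rw [h2, hc, sum_units χ.primitiveCharacter (fun a => (hh χ.conductor a : ℂ)),
      ← LFunction_zero_eq χ.primitiveCharacter (χ.primitiveCharacter.map_zero' hc1)]
    exact mul_ne_zero (by exact_mod_cast hcne) hne

/-- A function which is orthogonal to the functionals is even. -/
theorem even_of_orth (W : (ZMod m)ˣ → ℝ)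
    (hW : ∀ x : ZMod m, x ≠ 0 → ∑ t : (ZMod m)ˣ, W t * hh m ((t : ZMod m) * x) = 0)
    (u : (ZMod m)ˣ) : W (-u) = W u := by
  classical
  -- character sums of `W`
  have hodd : ∀ χ : DirichletCharacter ℂ m, χ.Odd → ∑ u, (W u : ℂ) * χ (u⁻¹ : (ZMod m)ˣ) = 0 := by
    intro χ hχ
    obtain ⟨x, hx0, hx⟩ := exists_ne_zero hχ
    have h1 : ∑ t : (ZMod m)ˣ, χ t *
        ((∑ u : (ZMod m)ˣ, W u * hh m ((u : ZMod m) * ((t : ZMod m) * x)) : ℝ) : ℂ) = 0 := by
      refine Finset.sum_eq_zero fun t _ => ?_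
      rw [hW ((t : ZMod m) * x) (by simpa using hx0)]
      simp
    have h2 : ∑ t : (ZMod m)ˣ, χ t *
        ((∑ u : (ZMod m)ˣ, W u * hh m ((u : ZMod m) * ((t : ZMod m) * x)) : ℝ) : ℂ)
        = (∑ u, (W u : ℂ) * χ (u⁻¹ : (ZMod m)ˣ)) *
          ∑ y : (ZMod m)ˣ, χ y * (hh m ((y : ZMod m) * x) : ℂ) := by
      push_cast
      rw [Finset.sum_mul, Finset.sum_congr rfl fun t _ => Finset.mul_sum _ _ _, Finset.sum_comm]
      refine Finset.sum_congr rfl fun u _ => ?_
      rw [Finset.mul_sum]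
      refine Fintype.sum_equiv (Equiv.mulRight u) _ _ fun t => ?_
      rw [Equiv.coe_mulRight, Units.val_mul, map_mul]
      have h3 : χ (u⁻¹ : (ZMod m)ˣ) * χ (u : ZMod m) = 1 := by
        rw [← map_mul, ← Units.val_mul, inv_mul_cancel, Units.val_one, map_one]
      have h4 : (u : ZMod m) * ((t : ZMod m) * x) = (t : ZMod m) * u * x := by ring
      rw [h4]
      linear_combination (-(χ t * (W u : ℂ) * (hh m ((t : ZMod m) * u * x) : ℂ))) * h3
    rw [h2] at h1
    exact (mul_eq_zero.1 h1).resolve_right hx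
  -- the odd part of `W`
  have hall : ∀ χ : DirichletCharacter ℂ m,
      ∑ u, ((W u - W (-u) : ℝ) : ℂ) * χ (u : ZMod m) = 0 := by
    intro χ
    have h1 : ∑ u : (ZMod m)ˣ, (W (-u) : ℂ) * χ (u : ZMod m)
        = χ (-1) * ∑ u : (ZMod m)ˣ, (W u : ℂ) * χ (u : ZMod m) := by
      rw [Finset.mul_sum]
      refine Fintype.sum_equiv (Equiv.neg _) _ _ fun u => ?_
      rw [Equiv.neg_apply, Units.val_neg, ← neg_one_mul (u : ZMod m), map_mul]
      have h2 : χ (-1) * χ (-1) = 1 := by rw [← map_mul, neg_one_mul, neg_neg, map_one]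
      linear_combination (-((W (-u) : ℂ) * χ (u : ZMod m))) * h2
    push_cast
    simp_rw [sub_mul]
    rw [Finset.sum_sub_distrib, h1]
    rcases χ.even_or_odd with h | h
    · rw [h, one_mul, sub_self]
    · have h3 : (χ⁻¹).Odd := by
        have h4 := h
        unfold DirichletCharacter.Odd at h4 ⊢
        rw [MulChar.inv_apply_eq_inv', h4]
        norm_num
      have h5 := hodd χ⁻¹ h3
      have h6 : ∑ u : (ZMod m)ˣ, (W u : ℂ) * χ (u : ZMod m) = 0 := by
        rw [← h5]
        refine Finset.sum_congr rfl fun u _ => ?_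
        congr 1
        have h7 : χ (u⁻¹ : (ZMod m)ˣ) * χ (u : ZMod m) = 1 := by
          rw [← map_mul, ← Units.val_mul, inv_mul_cancel, Units.val_one, map_one]
        rw [MulChar.inv_apply_eq_inv']
        exact (eq_inv_of_mul_eq_one_right h7)
      rw [h6, mul_zero, sub_zero]
  -- orthogonality
  have h8 : ∑ χ : DirichletCharacter ℂ m, χ ((u⁻¹ : (ZMod m)ˣ) : ZMod m) *
      ∑ v, ((W v - W (-v) : ℝ) : ℂ) * χ (v : ZMod m) = 0 :=
    Finset.sum_eq_zero fun χ _ => by rw [hall χ, mul_zero]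
  simp_rw [Finset.mul_sum] at h8
  rw [Finset.sum_comm] at h8
  have h9 : ∀ v : (ZMod m)ˣ, ∑ χ : DirichletCharacter ℂ m, χ ((u⁻¹ : (ZMod m)ˣ) : ZMod m) *
      (((W v - W (-v) : ℝ) : ℂ) * χ (v : ZMod m))
      = ((W v - W (-v) : ℝ) : ℂ) * if u = v then (m.totient : ℂ) else 0 := by
    intro v
    have h10 := DirichletCharacter.sum_char_inv_mul_char_eq ℂ (n := m) u.isUnit (v : ZMod m)
    have h11 : ((u : ZMod m) = v) ↔ u = v := ⟨fun h => Units.ext h, fun h => by rw [h]⟩
    simp only [h11] at h10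
    rw [← h10, Finset.mul_sum]
    refine Finset.sum_congr rfl fun χ _ => ?_
    rw [ZMod.inv_coe_unit]
    ring
  rw [Finset.sum_congr rfl fun v _ => h9 v] at h8
  simp only [mul_ite, mul_zero, Finset.sum_ite_eq, Finset.mem_univ, if_true] at h8
  have h12 : (m.totient : ℂ) ≠ 0 := by
    exact_mod_cast (Nat.totient_pos.2 (NeZero.pos m)).ne'
  have h13 : ((W u - W (-u) : ℝ) : ℂ) = 0 := (mul_eq_zero.1 h8).resolve_right h12
  have h14 : W u - W (-u) = 0 := by exact_mod_cast h13
  linarith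

end Pool.Agent.FermD
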