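import Pool.Agent.FermD.Par
import Pool.Agent.FermD.Nonvan
import Pool.Agent.FermD.LiftA

/-!
# FD8: ranks

* `finrank_all`: the matrix `bt t (e x)` has rank `≥ φ m / 2`: let
  `L : ((ZMod m)ˣ → ℝ) →ₗ (ZMod m → ℝ)`, `L W x = ∑ t, W t * bt t (e x)`. Its kernel is contained in
  `evenF m` (`even_of_orth`), so its rank is at least `φ m - φ m / 2` (`finrank_evenF`,
  `LinearMap.finrank_range_add_finrank_ker`), and the rank of a matrix is the rank of its transpose
  (`Matrix.rank_transpose`); the range of the transpose is the span of the `bv (e x)`.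
* `finrank_lift`: `bv (e (mulD m n y))` is the function `t ↦ bt (t mod n) (e y)` (`bt_Lf`), the image of
  an odd function under the pull-back along `(ZMod m)ˣ → (ZMod n)ˣ`; odd: `bt (-t) (e y) = - bt t (e y)`
  as `hh (-x) = - hh x` for `x ≠ 0`. So the span is contained in the image of `oddF n`
  (`Submodule.map`, `Submodule.finrank_map_le`, `finrank_oddF`).
-/

set_option autoImplicit false

namespace Pool.Agent.FermD

open Finset Pool.Stick Pool.Agent.StarkRQ

variable {m n : ℕ} [NeZero m] [NeZero n]

private theorem bt_neg (t : (ZMod m)ˣ) (v : A m) : bt (-t) v = - bt t v := by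
  have h : (bt (-t) : A m →+ ℝ) = - bt t := by
    refine Finsupp.addHom_ext' fun x => ?_
    ext
    change bt (-t) (e x) = - bt t (e x)
    rw [bt_e, bt_e]
    by_cases hx : x = 0
    · simp [hx]
    · have h1 : (t : ZMod m) * x ≠ 0 := by
        intro h0
        exact hx ((Units.mul_right_eq_zero t).1 h0)
      rw [if_neg hx, if_neg hx, Units.val_neg, neg_mul, hh_neg h1]
  rw [h]
  rfl

theorem finrank_all (hm : 3 ≤ m) : Nat.totient m ≤
    2 * Module.finrank ℝ (Submodule.span ℝ (Set.range fun x : ZMod m => bv (e x))) := by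
  classical
  set M : Matrix (ZMod m) (ZMod m)ˣ ℝ := Matrix.of fun x t => bv (e x) t with hM
  have h1 : M.rank = Module.finrank ℝ (Submodule.span ℝ (Set.range fun x : ZMod m =>
      bv (e x))) := Matrix.rank_eq_finrank_span_row M
  have h2 := LinearMap.finrank_range_add_finrank_ker M.mulVecLin
  rw [Module.finrank_fintype_fun_eq_card, ZMod.card_units_eq_totient] at h2
  have h3 : LinearMap.ker M.mulVecLin ≤ evenF m := by
    intro W hW u
    refine even_of_orth W (fun x hx => ?_) u
    have h4 : M.mulVecLin W = 0 := hW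
    have h5 := congrFun h4 x
    rw [Matrix.mulVecLin_apply] at h5
    have h6 : M.mulVec W x = ∑ t : (ZMod m)ˣ, bt t (e x) * W t := rfl
    rw [h6] at h5
    rw [← h5.trans (Pi.zero_apply x)]
    refine Finset.sum_congr rfl fun t _ => ?_
    rw [bt_e, if_neg hx, mul_comm]
  have h4 := Submodule.finrank_mono h3
  have h5 := finrank_evenF hm
  have h6 : M.rank = Module.finrank ℝ (LinearMap.range M.mulVecLin) := rfl
  omega

theorem finrank_lift (h : n ∣ m) (hn : 3 ≤ n) :
    2 * Module.finrank ℝ (Submodule.span ℝ (bv '' ((Lf m n).range : Set (A m)))) ≤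
      Nat.totient n := by
  classical
  set P : ((ZMod n)ˣ → ℝ) →ₗ[ℝ] ((ZMod m)ˣ → ℝ) :=
    LinearMap.funLeft ℝ ℝ (ZMod.unitsMap h) with hP
  have h1 : Submodule.span ℝ (bv '' ((Lf m n).range : Set (A m))) ≤ (oddF n).map P := by
    rw [Submodule.span_le]
    rintro _ ⟨_, ⟨w, rfl⟩, rfl⟩
    refine ⟨bv w, fun u => ?_, ?_⟩
    · rw [bv_apply, bv_apply, bt_neg]
    · funext t
      rw [hP, LinearMap.funLeft_apply, bv_apply, bv_apply, bt_Lf h]
  have h2 := Submodule.finrank_mono h1
  have h3 := Submodule.finrank_map_le P (oddF n)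
  have h4 := finrank_oddF hn
  omega

end Pool.Agent.FermD
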