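import Pool.Agent.FermD.Base

/-!
# The certificates of the base levels
-/

set_option autoImplicit false

namespace Pool.Agent.FermD

open Pool.Stick

theorem cert_3 : cert 3 [1]
    [] = true := by
  decide +kernel

theorem cert_4 : cert 4 [1]
    [] = true := by
  decide +kernel

theorem cert_5 : cert 5 [1, 2]
    [] = true := by
  decide +kernel

theorem cert_6 : cert 6 [2]
    [(.dist 2 1, 1)] = true := by
  decide +kernel

theorem cert_7 : cert 7 [1, 3, 2]
    [] = true := by
  decide +kernel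

theorem cert_10 : cert 10 [4, 2]
    [(.dist 2 1, 1), (.four 1 3 8 8, 3)] = true := by
  decide +kernel

theorem cert_12 : cert 12 [4, 1]
    [(.dist 2 2, 2), (.four 1 4 9 10, 9), (.four 2 5 8 9, 5)] = true := by
  decide +kernel

theorem cert_14 : cert 14 [4, 2, 1]
    [(.dist 2 2, 9), (.four 1 4 11 12, 11), (.four 2 6 9 11, 6)] = true := by
  decide +kernel

theorem cert_15 : cert 15 [1, 7, 5, 4]
    [(.four 1 7 10 12, 12), (.four 4 7 9 10, 9), (.dist 3 2, 2)] = true := by
  decide +kernel

theorem cert_20 : cert 20 [4, 2, 1, 5]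
    [(.dist 2 2, 12), (.four 2 6 16 16, 6), (.four 1 12 13 14, 13), (.four 1 4 17 18, 17),
    (.dist 2 1, 11)] = true := by
  decide +kernel

theorem cert_21 : cert 21 [2, 8, 1, 5, 4, 7]
    [(.four 4 9 13 16, 9), (.four 2 8 15 17, 15), (.four 1 10 12 19, 10), (.dist 3 1, 18)] = true := by
  decide +kernel

theorem cert_22 : cert 22 [2, 8, 1, 5, 4]
    [(.dist 2 1, 12), (.four 3 10 14 17, 3), (.four 1 6 17 20, 6), (.four 1 12 13 18, 13),
    (.four 3 7 16 18, 7)] = true := by
  decide +kernel

theorem cert_26 : cert 26 [7, 1, 6, 4, 3, 5]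
    [(.dist 2 6, 14), (.four 1 7 20 24, 24), (.four 1 14 15 22, 15), (.four 3 14 16 19, 16),
    (.four 4 10 17 21, 17), (.four 2 15 17 18, 18)] = true := by
  decide +kernel

theorem cert_28 : cert 28 [5, 4, 2, 1, 10, 7]
    [(.dist 2 2, 16), (.dist 2 1, 15), (.four 4 12 18 22, 22), (.four 2 8 22 24, 8),
    (.dist 2 5, 19), (.four 5 13 17 21, 17), (.four 3 16 17 20, 3)] = true := by
  decide +kernel

theorem cert_30 : cert 30 [14, 3, 8, 12]
    [(.four 3 15 16 26, 26), (.four 3 8 23 26, 23), (.dist 2 4, 19), (.four 6 12 19 23, 6),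
    (.four 4 10 22 24, 10), (.dist 2 6, 21), (.four 10 15 17 18, 17), (.dist 3 1, 1),
    (.four 2 14 17 27, 2), (.four 5 11 21 23, 5)] = true := by
  decide +kernel

theorem cert_42 : cert 42 [9, 16, 6, 20, 2, 14]
    [(.four 6 21 26 31, 31), (.four 5 21 22 36, 5), (.four 5 11 32 36, 32),
    (.four 2 15 31 36, 15), (.four 11 21 25 27, 25), (.dist 3 2, 30), (.four 1 22 25 36, 1),
    (.dist 3 5, 19), (.four 8 19 26 31, 8), (.four 18 21 22 23, 18), (.dist 3 3, 3),
    (.dist 2 8, 29), (.dist 2 4, 4), (.dist 2 7, 7)] = true := by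
  decide +kernel

theorem cert_60 : cert 60 [28, 17, 11, 24, 5, 13, 27, 22]
    [(.four 17 30 36 37, 37), (.four 13 34 36 37, 34), (.four 5 34 36 45, 45),
    (.four 7 34 36 43, 7), (.four 7 25 43 45, 25), (.four 13 30 37 40, 40),
    (.four 5 34 35 46, 46), (.four 10 25 40 45, 10), (.four 1 17 49 53, 1), (.dist 2 14, 44),
    (.four 17 27 37 39, 39), (.four 1 22 48 49, 48), (.four 1 30 41 48, 41),
    (.four 6 36 38 40, 6), (.dist 5 5, 29), (.four 1 27 41 51, 51), (.four 6 16 46 52, 52),
    (.four 4 17 47 52, 4), (.four 3 33 36 48, 3), (.four 2 24 40 54, 2),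
    (.four 10 22 42 46, 42)] = true := by
  decide +kernel

theorem cert_66 : cert 66 [28, 31, 10, 18, 20, 2, 17, 9, 25, 27]
    [(.dist 2 5, 5), (.dist 2 10, 43), (.dist 2 2, 62), (.dist 2 9, 42), (.dist 3 2, 60),
    (.dist 3 6, 50), (.four 1 17 50 64, 1), (.dist 2 16, 34), (.four 22 34 35 41, 22),
    (.dist 2 11, 11), (.four 8 31 44 49, 8), (.four 2 37 44 49, 37), (.four 5 22 46 59, 59),
    (.dist 2 6, 54), (.four 6 39 42 45, 45), (.four 4 26 45 57, 26), (.four 19 26 43 44, 19),
    (.dist 3 3, 3), (.four 10 26 43 53, 53), (.four 5 22 52 53, 52), (.four 3 18 51 60, 51),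
    (.dist 2 15, 36)] = true := by
  decide +kernel

theorem cert_78 : cert 78 [29, 16, 7, 27, 21, 36, 8, 2, 35, 17, 14, 26]
    [(.dist 2 18, 18), (.dist 2 8, 47), (.four 2 41 43 70, 41), (.dist 2 2, 74),
    (.four 5 39 41 71, 5), (.four 4 29 53 70, 53), (.dist 3 5, 63), (.dist 3 9, 9),
    (.four 9 42 48 57, 48), (.four 9 24 60 63, 24), (.four 12 30 51 63, 12), (.dist 3 4, 56),
    (.dist 3 10, 10), (.four 10 35 53 58, 58), (.dist 2 5, 44), (.dist 3 12, 38),
    (.dist 2 1, 1), (.four 11 25 56 64, 11), (.four 1 20 59 76, 59), (.dist 3 11, 45),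
    (.four 5 41 46 64, 46), (.dist 3 1, 75), (.four 6 45 51 54, 6), (.dist 3 2, 28),
    (.four 1 39 55 61, 55), (.dist 2 13, 13)] = true := by
  decide +kernel

theorem cert_84 : cert 84 [16, 19, 31, 40, 15, 23, 7, 39, 17, 5, 27, 1]
    [(.four 12 23 65 68, 12), (.dist 3 12, 48), (.four 10 42 48 68, 10),
    (.four 36 42 44 46, 46), (.dist 2 6, 6), (.four 3 45 46 74, 3), (.dist 3 5, 33),
    (.four 15 39 51 63, 63), (.four 3 37 63 65, 37), (.dist 3 11, 11), (.dist 3 7, 35),
    (.four 11 46 53 58, 58), (.four 7 42 56 63, 56), (.four 11 40 53 64, 64), (.dist 2 10, 52),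
    (.dist 2 20, 62), (.four 14 35 56 63, 14), (.four 21 31 57 59, 59), (.dist 3 3, 75),
    (.four 17 30 59 62, 30), (.four 2 33 58 75, 2), (.four 2 44 50 72, 50),
    (.four 2 44 46 76, 76), (.four 4 36 50 78, 4), (.four 2 42 60 64, 60),
    (.four 4 36 62 66, 66), (.dist 3 1, 29), (.four 1 43 44 80, 43), (.four 13 32 55 68, 13)] = true := by
  decide +kernel

/-- the base levels -/
def levels : List ℕ := [1, 2, 3, 4, 5, 6, 7, 10, 12, 14, 15, 20, 21, 22, 26, 28, 30, 42, 60, 66,
  78, 84]

/-- At the levels one and two all elements are relations. -/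
theorem mem_RelE_of_le_two {n : ℕ} [NeZero n] (h2 : n ≤ 2) (v : A n) : v ∈ RelE n := by
  have he : ∀ x : ZMod n, e x ∈ RelE n := by
    intro x
    by_cases hx : x = 0
    · subst hx
      exact AddSubgroup.subset_closure (Or.inr (Or.inl rfl))
    · have h3 : x.val < n := ZMod.val_lt x
      have h4 : x.val ≠ 0 := fun h => hx ((ZMod.val_eq_zero x).1 h)
      have h5 : n = 2 := by omega
      have h6 : x.val = n / 2 := by omega
      refine AddSubgroup.subset_closure (Or.inr (Or.inr ⟨⟨1, by omega⟩, ?_⟩))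
      rw [← h6, ZMod.natCast_zmod_val]
  induction v using Finsupp.induction_linear with
  | zero => exact zero_mem _
  | add v w hv hw => exact add_mem hv hw
  | single x k =>
    have h1 : (Finsupp.single x k : A n) = k • e x := by
      rw [e, Finsupp.smul_single, smul_eq_mul, mul_one]
    rw [h1]
    exact AddSubgroup.zsmul_mem _ (he x) k

/-- At the base levels the kernel is generated by the relations and the Hodge classes with four
elements. -/
theorem base {n : ℕ} [NeZero n] (hn : n ∈ levels) {v : A n} (hv : bv v = 0) :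
    v ∈ RelE n ⊔ AddSubgroup.closure (toA '' four n) := by
  by_cases h2 : n ≤ 2
  · exact (le_sup_left : RelE n ≤ _) (mem_RelE_of_le_two h2 v)
  simp only [levels, List.mem_cons, List.not_mem_nil, or_false] at hn
  rcases hn with rfl | rfl | rfl | rfl | rfl | rfl | rfl | rfl | rfl | rfl | rfl | rfl | rfl | rfl | rfl | rfl | rfl | rfl | rfl | rfl | rfl | rfl
  · omega
  · omega
  · exact base_of_cert (by norm_num) cert_3 hv
  · exact base_of_cert (by norm_num) cert_4 hv
  · exact base_of_cert (by norm_num) cert_5 hv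
  · exact base_of_cert (by norm_num) cert_6 hv
  · exact base_of_cert (by norm_num) cert_7 hv
  · exact base_of_cert (by norm_num) cert_10 hv
  · exact base_of_cert (by norm_num) cert_12 hv
  · exact base_of_cert (by norm_num) cert_14 hv
  · exact base_of_cert (by norm_num) cert_15 hv
  · exact base_of_cert (by norm_num) cert_20 hv
  · exact base_of_cert (by norm_num) cert_21 hv
  · exact base_of_cert (by norm_num) cert_22 hv
  · exact base_of_cert (by norm_num) cert_26 hv
  · exact base_of_cert (by norm_num) cert_28 hv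
  · exact base_of_cert (by norm_num) cert_30 hv
  · exact base_of_cert (by norm_num) cert_42 hv
  · exact base_of_cert (by norm_num) cert_60 hv
  · exact base_of_cert (by norm_num) cert_66 hv
  · exact base_of_cert (by norm_num) cert_78 hv
  · exact base_of_cert (by norm_num) cert_84 hv

end Pool.Agent.FermD
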