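import Pool.Agent.FermD.Red
import Pool.Agent.FermD.Cert
import Pool.Agent.Stick.Gen6

/-!
# Hodge classes on Fermat varieties

Theorem A (`hodge_red`): all Hodge classes come from the degree `red m`. Theorem B (`hodge_four`):
all Hodge classes come from linear subspaces, Aoki's cycles and the Fermat surfaces if `red m` is
one of the base levels.
-/

set_option autoImplicit false

namespace Pool.Agent.FermD

open Finset Pool.Stick Pool.Agent.StarkRQ

variable {m n : ℕ} [NeZero m] [NeZero n]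

theorem hodge_red (s : Multiset (ZMod m)) : IsHodge s ↔ Alg (lifts m (red m)) s := by
  constructor
  · intro hs
    obtain ⟨h0, heven, hb⟩ := isHodge_iff_bv.1 hs
    obtain ⟨w, hw, hw2⟩ := exists_red m hb
    refine alg_of_mem (fun u hu => lifts_isHodge (red_dvd m) hu)
      (fun u hu => lifts_neg (red_dvd m) hu) h0 heven ?_
    have h1 := exists_multiset (red_dvd m) hw
    have h2 := add_mem ((le_sup_left : RelE m ≤ RelE m ⊔
      AddSubgroup.closure (toA '' lifts m (red m))) hw2) h1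
    rwa [sub_add_cancel] at h2
  · exact alg_isHodge (fun u hu => lifts_isHodge (red_dvd m) hu)

theorem Lf_toA (u : Multiset (ZMod n)) : Lf m n (toA u) = toA (u.map (mulD m n)) := by
  induction u using Multiset.induction_on with
  | empty => simp [toA_zero]
  | cons c u ih => rw [toA_cons, map_add, ih, Lf_e, Multiset.map_cons, toA_cons]

theorem four_map (h : n ∣ m) {u : Multiset (ZMod n)} (hu : u ∈ four n) :
    u.map (mulD m n) ∈ four m :=
  ⟨by rw [Multiset.card_map, hu.1], lifts_isHodge h ⟨u, hu.2, rfl⟩⟩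

theorem hodge_four (h : red m ∈ levels) (s : Multiset (ZMod m)) :
    IsHodge s ↔ Alg (four m) s := by
  constructor
  · intro hs
    obtain ⟨h0, heven, hb⟩ := isHodge_iff_bv.1 hs
    obtain ⟨w, hw, hw2⟩ := exists_red m hb
    refine alg_of_mem (T := four m) (fun u hu => hu.2)
      (fun u hu => ⟨by rw [Multiset.card_map, hu.1], hu.2.neg⟩) h0 heven ?_
    have h1 : Lf m (red m) w ∈ RelE m ⊔ AddSubgroup.closure (toA '' four m) := by
      obtain ⟨x, hx, y, hy, hxy⟩ := AddSubgroup.mem_sup.1 (base h hw)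
      rw [← hxy, map_add]
      refine add_mem ((le_sup_left : RelE m ≤ _) (Lf_RelE (red_dvd m) hx)) ?_
      refine (le_sup_right : AddSubgroup.closure (toA '' four m) ≤ _) ?_
      have h3 : AddSubgroup.closure (toA '' four (red m)) ≤
          (AddSubgroup.closure (toA '' four m)).comap (Lf m (red m)) := by
        rw [AddSubgroup.closure_le]
        rintro _ ⟨u, hu, rfl⟩
        change Lf m (red m) (toA u) ∈ AddSubgroup.closure (toA '' four m)
        rw [Lf_toA]
        exact AddSubgroup.subset_closure ⟨_, four_map (red_dvd m) hu, rfl⟩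
      exact h3 hy
    have h2 := add_mem ((le_sup_left : RelE m ≤ RelE m ⊔
      AddSubgroup.closure (toA '' four m)) hw2) h1
    rwa [sub_add_cancel] at h2
  · exact alg_isHodge (fun u hu => hu.2)

omit [NeZero m] in
theorem primes_of_dvd_mul {x y z a b c : ℕ} (hx : x.Prime) (hy : y.Prime) (hz : z.Prime)
    (hm : m ∣ x ^ a * y ^ b * z ^ c) : m.primeFactors ⊆ {x, y, z} := by
  intro p hp
  have hpp := Nat.prime_of_mem_primeFactors hp
  have h1 := (Nat.dvd_of_mem_primeFactors hp).trans hm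
  simp only [Finset.mem_insert, Finset.mem_singleton]
  rcases (Nat.Prime.dvd_mul hpp).1 h1 with h2 | h2
  · rcases (Nat.Prime.dvd_mul hpp).1 h2 with h3 | h3
    · exact Or.inl ((Nat.prime_dvd_prime_iff_eq hpp hx).1 (hpp.dvd_of_dvd_pow h3))
    · exact Or.inr (Or.inl ((Nat.prime_dvd_prime_iff_eq hpp hy).1 (hpp.dvd_of_dvd_pow h3)))
  · exact Or.inr (Or.inr ((Nat.prime_dvd_prime_iff_eq hpp hz).1 (hpp.dvd_of_dvd_pow h2)))

/-- the degrees of theorem B -/
theorem red_mem_levels {a b c : ℕ} (h : m = 2 ^ a * 3 ^ b * 5 ^ c ∨ m = 2 ^ a * 3 ^ b * 7 ^ c ∨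
    m = 2 * 3 ^ b * 11 ^ c ∨ m = 2 * 3 ^ b * 13 ^ c) : red m ∈ levels := by
  have h4 : 4 ∣ m → 2 ∈ m.primeFactors := fun h => Nat.mem_primeFactors.2
    ⟨Nat.prime_two, (by norm_num : 2 ∣ 4).trans h, NeZero.ne m⟩
  have key1 : ∀ P ∈ ({2, 3, 5} : Finset ℕ).powerset, (∏ p ∈ P, p) ∈ levels ∧
      (2 ∈ P → (∏ p ∈ P, p) * 2 ∈ levels) := by decide
  have key2 : ∀ P ∈ ({2, 3, 7} : Finset ℕ).powerset, (∏ p ∈ P, p) ∈ levels ∧
      (2 ∈ P → (∏ p ∈ P, p) * 2 ∈ levels) := by decide
  have key3 : ∀ P ∈ ({2, 3, 11} : Finset ℕ).powerset, 2 ∈ P → (∏ p ∈ P, p) ∈ levels := by decide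
  have key4 : ∀ P ∈ ({2, 3, 13} : Finset ℕ).powerset, 2 ∈ P → (∏ p ∈ P, p) ∈ levels := by decide
  have hodd : ∀ {x y : ℕ}, Odd x → Odd y → m = 2 * x ^ b * y ^ c →
      ¬ 4 ∣ m ∧ 2 ∈ m.primeFactors := by
    intro x y hx hy hm
    obtain ⟨r, hr⟩ := (hx.pow (n := b)).mul (hy.pow (n := c))
    rw [mul_assoc, hr] at hm
    exact ⟨by omega, Nat.mem_primeFactors.2 ⟨Nat.prime_two, by omega, NeZero.ne m⟩⟩
  unfold red
  rcases h with h | h | h | h
  · have h1 := key1 _ (Finset.mem_powerset.2 (primes_of_dvd_mul Nat.prime_two Nat.prime_three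
      Nat.prime_five h.dvd))
    split_ifs with h5
    · exact h1.2 (h4 h5)
    · rw [mul_one]
      exact h1.1
  · have h1 := key2 _ (Finset.mem_powerset.2 (primes_of_dvd_mul Nat.prime_two Nat.prime_three
      (by norm_num) h.dvd))
    split_ifs with h5
    · exact h1.2 (h4 h5)
    · rw [mul_one]
      exact h1.1
  · obtain ⟨h5, h6⟩ := hodd (by decide) (by decide) h
    rw [if_neg h5, mul_one]
    rw [← pow_one 2] at h
    exact key3 _ (Finset.mem_powerset.2 (primes_of_dvd_mul Nat.prime_two Nat.prime_three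
      (by norm_num) h.dvd)) h6
  · obtain ⟨h5, h6⟩ := hodd (by decide) (by decide) h
    rw [if_neg h5, mul_one]
    rw [← pow_one 2] at h
    exact key4 _ (Finset.mem_powerset.2 (primes_of_dvd_mul Nat.prime_two Nat.prime_three
      (by norm_num) h.dvd)) h6

/-- If `p ≡ 1` modulo `m` then the Hodge classes are the Tate classes modulo `p`. -/
theorem hodge_iff_gauss {p : ℕ} (hp : p.Prime) (hp1 : (p : ZMod m) = 1)
    {F : Type*} [Field F] [Fintype F] [CharP F p] {K : Type*} [Field K] [CharZero K]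
    (χ : MulChar F K) (hχ : orderOf χ = m) {ψ : AddChar F K} (hψ : ψ ≠ 1)
    (s : Multiset (ZMod m)) :
    IsHodge s ↔ (0 : ZMod m) ∉ s ∧ ∃ r N : ℕ, s.card = 2 * r ∧ 0 < N ∧
      (s.map fun c => gaussSum (χ ^ c.val) ψ).prod ^ N = (Fintype.card F : K) ^ (r * N) := by
  have : Fact p.Prime := ⟨hp⟩
  let _ : Algebra (ZMod p) F := ZMod.algebra F p
  have hf0 : Module.finrank (ZMod p) F ≠ 0 := Module.finrank_pos.ne'
  have hP : (p : ZMod m) = ((1 : (ZMod m)ˣ) : ZMod m) := by rw [hp1, Units.val_one]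
  have hm0 : (m : ℝ) ≠ 0 := by exact_mod_cast NeZero.ne m
  have key : ∀ {r : ℕ}, s.card = 2 * r → ∀ t : (ZMod m)ˣ,
      (beta 1 (Module.finrank (ZMod p) F) t (toA s) = 0 ↔
        (s.map fun c => ((t : ZMod m) * c).val).sum = r * m) := by
    intro r hr t
    rw [beta_toA, hr]
    have h1 : (s.map fun c => ∑ i ∈ range (Module.finrank (ZMod p) F),
        ((((1 : (ZMod m)ˣ) ^ i * t : (ZMod m)ˣ) : ZMod m) * c).val).sum =
        Module.finrank (ZMod p) F * (s.map fun c => ((t : ZMod m) * c).val).sum := by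
      rw [← Multiset.sum_map_mul_left]
      congr 1
      refine Multiset.map_congr rfl fun c _ => ?_
      simp only [one_pow, one_mul, sum_const, card_range, smul_eq_mul]
    rw [h1]
    generalize (s.map fun c => ((t : ZMod m) * c).val).sum = S
    have hf1 : (Module.finrank (ZMod p) F : ℝ) ≠ 0 := by exact_mod_cast hf0
    push_cast
    rw [sub_eq_zero]
    constructor
    · intro h
      field_simp at h
      have h2 : ((r * m : ℕ) : ℝ) = (S : ℝ) := by
        push_cast
        linarith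
      exact_mod_cast h2.symm
    · intro h
      rw [h]
      push_cast
      field_simp
  constructor
  · rintro ⟨h0, r, hr, h⟩
    obtain ⟨N, hN, h1⟩ := exists_relation χ hχ hψ h0 hr hP fun t => (key hr t).2 (h t)
    exact ⟨h0, r, N, hr, hN, h1⟩
  · rintro ⟨h0, r, N, hr, hN, h⟩
    exact ⟨h0, r, hr, fun t => (key hr t).1 (beta_eq_zero χ hχ hψ hr hN h hP t)⟩

end Pool.Agent.FermD
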