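import Pool.Agent.FermD.Defs

/-!
# FD3: the number of the generators

Chinese remainder theorem: `ZMod (l ^ a * M) ≃ ZMod (l ^ a) × ∏ p, ZMod (q p)`, where
`q p = p ^ M.factorization p`, `p ∈ M.primeFactors` (`ZMod.chineseRemainder`, `ZMod.equivPi`, or
induction on the number of primes of `M`). The condition in `gen` is a condition on `x.val % l ^ a` and
a condition on each `x.val % q p`, so the number is the product of
* the number of the `y < l ^ a` with `l ∤ y`, `l ^ (a-1) ≤ y`, `2 * (y % l ^ (a-1)) < l ^ (a-1)`: write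
  `y = j * l ^ (a-1) + i`, `1 ≤ j < l`, `i < l ^ (a-1) / 2`, `l ∤ i`: `(l - 1) * (φ (l ^ (a-1)) / 2)`
  (`i ↦ l ^ (a-1) - i`; `2 * i = l ^ (a-1)` is impossible for `l ∤ i`; `l ^ (a-1) ≥ 3`);
* `φ (q p)` for every `p`: the elements `0` and the units without `1`.
And `φ (l ^ a) = l * φ (l ^ (a-1))`, `φ` is multiplicative.
-/

set_option autoImplicit false

namespace Pool.Agent.FermD

open Finset

private theorem cg_crt {m n : ℕ} (h : m.Coprime n) (hm : m ≠ 0) (hn : n ≠ 0) (P Q : ℕ → Prop)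
    [DecidablePred P] [DecidablePred Q] :
    ((range (m * n)).filter fun x => P (x % m) ∧ Q (x % n)).card =
      ((range m).filter P).card * ((range n).filter Q).card := by
  rw [← card_product]
  refine card_bij (fun x _ => (x % m, x % n)) ?_ ?_ ?_
  · intro x hx
    rw [mem_filter] at hx
    rw [mem_product, mem_filter, mem_filter, mem_range, mem_range]
    exact ⟨⟨Nat.mod_lt _ (Nat.pos_of_ne_zero hm), hx.2.1⟩,
      ⟨Nat.mod_lt _ (Nat.pos_of_ne_zero hn), hx.2.2⟩⟩
  · intro x hx y hy hxy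
    rw [mem_filter, mem_range] at hx hy
    simp only [Prod.mk.injEq] at hxy
    have h1 : x ≡ y [MOD m * n] := (Nat.modEq_and_modEq_iff_modEq_mul h).1 ⟨hxy.1, hxy.2⟩
    exact Nat.ModEq.eq_of_lt_of_lt h1 hx.1 hy.1
  · rintro ⟨u, w⟩ huw
    rw [mem_product, mem_filter, mem_filter, mem_range, mem_range] at huw
    obtain ⟨⟨hu, hPu⟩, ⟨hw, hQw⟩⟩ := huw
    obtain ⟨k, hk1, hk2⟩ := Nat.chineseRemainder h u w
    have e1 : k % (m * n) % m = u := by
      rw [Nat.mod_mul_right_mod, hk1, Nat.mod_eq_of_lt hu]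
    have e2 : k % (m * n) % n = w := by
      rw [Nat.mod_mul_left_mod, hk2, Nat.mod_eq_of_lt hw]
    refine ⟨k % (m * n), ?_, ?_⟩
    · rw [mem_filter, mem_range, e1, e2]
      exact ⟨Nat.mod_lt _ (Nat.pos_of_ne_zero (mul_ne_zero hm hn)), hPu, hQw⟩
    · rw [e1, e2]

/-- The condition at the primes of `M`. -/
private def QM (M x : ℕ) : Prop := ∀ p ∈ M.primeFactors,
  p ^ M.factorization p ∣ x ∨ (¬ p ∣ x ∧ x % p ^ M.factorization p ≠ 1)

private instance (M : ℕ) : DecidablePred (QM M) := fun x => by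
  unfold QM
  infer_instance

private theorem cg_dvd {x m d : ℕ} (h : d ∣ m) : d ∣ x % m ↔ d ∣ x := by
  rw [Nat.dvd_mod_iff h]

/-- The condition depends only on the residue. -/
private theorem cg_QM_mod {M N x : ℕ} (hMN : M ∣ N) : QM M (x % N) ↔ QM M x := by
  unfold QM
  refine forall₂_congr fun p hp => ?_
  have h1 : p ^ M.factorization p ∣ N := (Nat.ordProj_dvd M p).trans hMN
  have h2 : p ∣ N := (Nat.dvd_of_mem_primeFactors hp).trans hMN
  rw [cg_dvd h1, cg_dvd h2, Nat.mod_mod_of_dvd _ h1]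

private theorem cg_QM_mul {A B x : ℕ} (h : A.Coprime B) :
    QM (A * B) x ↔ QM A x ∧ QM B x := by
  unfold QM
  rw [h.primeFactors_mul]
  constructor
  · intro hx
    constructor
    · intro p hp
      have h1 := hx p (mem_union_left _ hp)
      rwa [Nat.factorization_mul_apply_of_coprime h, Nat.factorization_eq_zero_of_not_dvd (n := B),
        add_zero] at h1
      intro hpB
      exact (Nat.prime_of_mem_primeFactors hp).one_lt.ne'
        (Nat.eq_one_of_dvd_coprimes h (Nat.dvd_of_mem_primeFactors hp) hpB)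
    · intro p hp
      have h1 := hx p (mem_union_right _ hp)
      rwa [Nat.factorization_mul_apply_of_coprime h, Nat.factorization_eq_zero_of_not_dvd (n := A),
        zero_add] at h1
      intro hpA
      exact (Nat.prime_of_mem_primeFactors hp).one_lt.ne'
        (Nat.eq_one_of_dvd_coprimes h hpA (Nat.dvd_of_mem_primeFactors hp))
  · rintro ⟨h1, h2⟩ p hp
    rcases mem_union.1 hp with hp | hp
    · have h3 := h1 p hp
      rwa [Nat.factorization_mul_apply_of_coprime h, Nat.factorization_eq_zero_of_not_dvd (n := B),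
        add_zero]
      intro hpB
      exact (Nat.prime_of_mem_primeFactors hp).one_lt.ne'
        (Nat.eq_one_of_dvd_coprimes h (Nat.dvd_of_mem_primeFactors hp) hpB)
    · have h3 := h2 p hp
      rwa [Nat.factorization_mul_apply_of_coprime h, Nat.factorization_eq_zero_of_not_dvd (n := A),
        zero_add]
      intro hpA
      exact (Nat.prime_of_mem_primeFactors hp).one_lt.ne'
        (Nat.eq_one_of_dvd_coprimes h hpA (Nat.dvd_of_mem_primeFactors hp))

private theorem cg_pow {p n : ℕ} (hp : p.Prime) (hn : 0 < n) :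
    ((range (p ^ n)).filter (QM (p ^ n))).card = Nat.totient (p ^ n) := by
  have hq : 1 < p ^ n := Nat.one_lt_pow hn.ne' hp.one_lt
  have e : (range (p ^ n)).filter (QM (p ^ n)) =
      insert 0 (((range (p ^ n)).filter fun z => Nat.Coprime (p ^ n) z).erase 1) := by
    ext z
    have hc : Nat.Coprime (p ^ n) z ↔ ¬ p ∣ z := by
      rw [Nat.coprime_pow_left_iff hn, hp.coprime_iff_not_dvd]
    have hQ : QM (p ^ n) z ↔ (p ^ n ∣ z ∨ (¬ p ∣ z ∧ z % p ^ n ≠ 1)) := by
      unfold QM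
      rw [Nat.primeFactors_prime_pow hn.ne' hp]
      simp [hp.factorization_self]
    rw [mem_filter, mem_range, mem_insert, mem_erase, mem_filter, mem_range, hQ, hc]
    constructor
    · rintro ⟨h1, h2 | ⟨h2, h3⟩⟩
      · left
        exact Nat.eq_zero_of_dvd_of_lt h2 h1
      · right
        rw [Nat.mod_eq_of_lt h1] at h3
        exact ⟨h3, h1, h2⟩
    · rintro (rfl | ⟨h1, h2, h3⟩)
      · exact ⟨by omega, Or.inl (dvd_zero _)⟩
      · exact ⟨h2, Or.inr ⟨h3, by rwa [Nat.mod_eq_of_lt h2]⟩⟩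
  rw [e, card_insert_of_notMem, card_erase_add_one]
  · rfl
  · rw [mem_filter, mem_range]
    exact ⟨hq, Nat.coprime_one_right _⟩
  · intro h
    have h1 := (mem_filter.1 (mem_of_mem_erase h)).2
    rw [Nat.coprime_zero_right] at h1
    omega

private theorem cg_QM (M : ℕ) (hM : M ≠ 0) :
    ((range M).filter (QM M)).card = Nat.totient M := by
  induction M using Nat.recOnPosPrimePosCoprime with
  | prime_pow p n hp hn => exact cg_pow hp hn
  | zero => exact absurd rfl hM
  | one =>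
    have : (range 1).filter (QM 1) = range 1 := by
      refine filter_true_of_mem fun x _ => ?_
      simp [QM]
    rw [this]
    simp
  | coprime A B hA hB h ihA ihB =>
    have hA0 : A ≠ 0 := by omega
    have hB0 : B ≠ 0 := by omega
    rw [Nat.totient_mul h, ← ihA hA0, ← ihB hB0, ← cg_crt h hA0 hB0]
    congr 1
    refine filter_congr fun x _ => ?_
    rw [cg_QM_mul h, cg_QM_mod dvd_rfl, cg_QM_mod dvd_rfl]

/-- Half of the units modulo a power of `l`. -/
private theorem cg_half {l b : ℕ} (hl : l.Prime) (hb : 0 < b) (hb' : l = 2 → 2 ≤ b) :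
    2 * ((range (l ^ b)).filter fun i => ¬ l ∣ i ∧ 2 * i < l ^ b).card = Nat.totient (l ^ b) := by
  have hlb : l ∣ l ^ b := dvd_pow_self l hb.ne'
  have hne : ∀ i, ¬ l ∣ i → 2 * i ≠ l ^ b := by
    intro i hi h
    have h1 : l ∣ 2 * i := by rw [h]; exact hlb
    rcases (Nat.Prime.dvd_mul hl).1 h1 with h2 | h2
    · have h3 : l = 2 := (Nat.prime_dvd_prime_iff_eq hl Nat.prime_two).1 h2
      obtain ⟨c, rfl⟩ : ∃ c, b = c + 2 := ⟨b - 2, by have := hb' h3; omega⟩
      subst h3
      apply hi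
      rw [pow_add] at h
      exact ⟨2 ^ c, by omega⟩
    · exact hi h2
  have e1 : Nat.totient (l ^ b) = ((range (l ^ b)).filter fun i => ¬ l ∣ i).card := by
    unfold Nat.totient
    congr 1
    refine filter_congr fun z _ => ?_
    rw [Nat.coprime_pow_left_iff hb, hl.coprime_iff_not_dvd]
  have e2 : ((range (l ^ b)).filter fun i => ¬ l ∣ i ∧ 2 * i < l ^ b).card =
      ((range (l ^ b)).filter fun i => ¬ l ∣ i ∧ ¬ 2 * i < l ^ b).card := by
    refine card_bij (fun i _ => l ^ b - i) ?_ ?_ ?_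
    · intro i hi
      rw [mem_filter, mem_range] at hi ⊢
      obtain ⟨h1, h2, h3⟩ := hi
      have h4 : i ≠ 0 := by
        rintro rfl
        exact h2 (dvd_zero _)
      refine ⟨by omega, ?_, by omega⟩
      rwa [Nat.dvd_sub_iff_right h1.le hlb]
    · intro i hi j hj hij
      rw [mem_filter, mem_range] at hi hj
      omega
    · intro i hi
      rw [mem_filter, mem_range] at hi
      obtain ⟨h1, h2, h3⟩ := hi
      have h4 := hne i h2
      refine ⟨l ^ b - i, ?_, by omega⟩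
      rw [mem_filter, mem_range]
      exact ⟨by omega, by rwa [Nat.dvd_sub_iff_right h1.le hlb], by omega⟩
  rw [e1, two_mul]
  nth_rewrite 2 [e2]
  rw [← card_union_of_disjoint, ← filter_or]
  · congr 1
    refine filter_congr fun z _ => ?_
    tauto
  · rw [disjoint_filter]
    tauto

/-- The count modulo `l ^ (b + 1)`. -/
private theorem cg_l {l b : ℕ} (hl : l.Prime) (hb : 0 < b) (hb' : l = 2 → 2 ≤ b) :
    2 * ((range (l ^ (b + 1))).filter fun y => ¬ l ∣ y ∧ l ^ b ≤ y ∧
      2 * (y % l ^ b) < l ^ b).card = (l - 1) * Nat.totient (l ^ b) := by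
  have hL : 0 < l ^ b := pow_pos hl.pos b
  have hlb : l ∣ l ^ b := dvd_pow_self l hb.ne'
  have e : ((range (l ^ (b + 1))).filter fun y => ¬ l ∣ y ∧ l ^ b ≤ y ∧
      2 * (y % l ^ b) < l ^ b).card = ((Ico 1 l) ×ˢ
        ((range (l ^ b)).filter fun i => ¬ l ∣ i ∧ 2 * i < l ^ b)).card := by
    refine card_bij (fun y _ => (y / l ^ b, y % l ^ b)) ?_ ?_ ?_
    · intro y hy
      rw [mem_filter, mem_range] at hy
      obtain ⟨h1, h2, h3, h4⟩ := hy
      rw [mem_product, mem_Ico, mem_filter, mem_range, cg_dvd hlb]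
      refine ⟨⟨Nat.div_pos h3 hL, ?_⟩, Nat.mod_lt _ hL, h2, h4⟩
      rw [Nat.div_lt_iff_lt_mul hL, mul_comm, ← pow_succ]
      exact h1
    · intro y _ z _ hyz
      simp only [Prod.mk.injEq] at hyz
      rw [← Nat.div_add_mod y (l ^ b), ← Nat.div_add_mod z (l ^ b), hyz.1, hyz.2]
    · rintro ⟨j, i⟩ hji
      rw [mem_product, mem_Ico, mem_filter, mem_range] at hji
      obtain ⟨⟨h1, h2⟩, h3, h4, h5⟩ := hji
      have e1 : (l ^ b * j + i) / l ^ b = j := by
        rw [Nat.mul_add_div hL, Nat.div_eq_of_lt h3, add_zero]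
      have e2 : (l ^ b * j + i) % l ^ b = i := by
        rw [Nat.mul_add_mod, Nat.mod_eq_of_lt h3]
      refine ⟨l ^ b * j + i, ?_, by rw [e1, e2]⟩
      rw [mem_filter, mem_range, e2]
      refine ⟨?_, ?_, ?_, h5⟩
      · rw [pow_succ]
        calc l ^ b * j + i < l ^ b * j + l ^ b := by omega
          _ = l ^ b * (j + 1) := by ring
          _ ≤ l ^ b * l := Nat.mul_le_mul_left _ h2
      · rwa [Nat.dvd_add_right (hlb.mul_right j)]
      · calc l ^ b = l ^ b * 1 := (mul_one _).symm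
          _ ≤ l ^ b * j := Nat.mul_le_mul_left _ h1
          _ ≤ l ^ b * j + i := Nat.le_add_right _ _
  rw [e, card_product, Nat.card_Ico, ← cg_half hl hb hb']
  ring

theorem card_gen {l a M : ℕ} [NeZero (l ^ a * M)] (hl : l.Prime) (hM : ¬ l ∣ M) (ha : 2 ≤ a)
    (ha' : l = 2 → 3 ≤ a) :
    2 * (gen l a M).card + Nat.totient (l ^ (a - 1) * M) = Nat.totient (l ^ a * M) := by
  have hM0 : M ≠ 0 := by
    rintro rfl
    exact hM (dvd_zero _)
  obtain ⟨b, rfl⟩ : ∃ b, a = b + 1 := ⟨a - 1, by omega⟩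
  have hb : 0 < b := by omega
  rw [Nat.add_sub_cancel]
  have hlM : l.Coprime M := (Nat.Prime.coprime_iff_not_dvd hl).2 hM
  have h0 : l ^ (b + 1) ≠ 0 := (pow_pos hl.pos _).ne'
  have h1 : l ∣ l ^ (b + 1) := dvd_pow_self l (Nat.succ_ne_zero b)
  have h2 : l ^ b ∣ l ^ (b + 1) := pow_dvd_pow l (Nat.le_succ b)
  have e1 : (gen l (b + 1) M).card = ((range (l ^ (b + 1) * M)).filter fun x =>
      (¬ l ∣ x % l ^ (b + 1) ∧ l ^ b ≤ x % l ^ (b + 1) ∧
        2 * (x % l ^ (b + 1) % l ^ b) < l ^ b) ∧ QM M (x % M)).card := by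
    refine card_bij (fun x _ => x.val) ?_ ?_ ?_
    · intro x hx
      unfold gen at hx
      rw [mem_filter, Nat.add_sub_cancel] at hx
      obtain ⟨-, h3, h4, h5, h6⟩ := hx
      rw [mem_filter, mem_range, cg_dvd h1, Nat.mod_mod_of_dvd _ h2, cg_QM_mod dvd_rfl]
      exact ⟨ZMod.val_lt x, ⟨h3, h4, h5⟩, h6⟩
    · intro x _ y _ hxy
      exact ZMod.val_injective _ hxy
    · intro x hx
      rw [mem_filter, mem_range, cg_dvd h1, Nat.mod_mod_of_dvd _ h2, cg_QM_mod dvd_rfl] at hx
      obtain ⟨h3, ⟨h4, h5, h6⟩, h7⟩ := hx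
      refine ⟨(x : ZMod (l ^ (b + 1) * M)), ?_, ZMod.val_cast_of_lt h3⟩
      unfold gen
      rw [mem_filter, Nat.add_sub_cancel, ZMod.val_cast_of_lt h3]
      exact ⟨mem_univ _, h4, h5, h6, h7⟩
  have e2 := cg_crt (hlM.pow_left (b + 1)) h0 hM0
    (fun y => ¬ l ∣ y ∧ l ^ b ≤ y ∧ 2 * (y % l ^ b) < l ^ b) (QM M)
  have e3 := cg_l hl hb (fun h => by have := ha' h; omega)
  rw [e1, e2, cg_QM M hM0, ← mul_assoc, e3, Nat.totient_mul (hlM.pow_left b),
    Nat.totient_mul (hlM.pow_left (b + 1)), Nat.totient_prime_pow_succ hl,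
    Nat.totient_prime_pow hl hb]
  obtain ⟨c, rfl⟩ : ∃ c, b = c + 1 := ⟨b - 1, by omega⟩
  obtain ⟨k, hk⟩ : ∃ k, l = k + 1 := ⟨l - 1, by have := hl.pos; omega⟩
  rw [Nat.add_sub_cancel, hk, Nat.add_sub_cancel]
  ring

end Pool.Agent.FermD
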