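import Pool.Agent.FermD.Dist

/-!
# FD2: an odd distribution which vanishes on the generators

Let `m = l ^ a * M`, `P = M.primeFactors`, `q p = p ^ M.factorization p` (so `q p ∣ m` and
`p * q p ∤ m`, because `p ≠ l`), and `supp x = {p ∈ P | ¬ q p ∣ x.val}`. We prove `f x = 0` by strong
induction on `k = (supp x).card` (`*`: `f y = 0` for all `y` with smaller support).

Step 1: `f x = 0` if (a) `p ∤ x.val` for all `p ∈ supp x`, (b) `l ∤ x.val`,
`l ^ (a-1) ≤ x.val % l ^ a`, `2 * (x.val % l ^ (a-1)) < l ^ (a-1)`. Induction on the number `r` of the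
`p ∈ supp x` with `x.val % q p = 1`. If `r = 0` then `x ∈ gen l a M`. Otherwise take such a `p` and use
`OddDist.unit_sum` for `p` and `b = M.factorization p`: `q p * x` and `p ^ (b-1) * w` are divisible by
`q p` and have the divisibility by the other `q p'` of `x`, so their supports are `supp x` without
`p`: by (*) the sum of `f z` over the `z` with `q p * z = q p * x` (i.e. `z ≡ x` modulo `m / q p`) and
`p ∤ z.val` is zero. Every such `z ≠ x` has `z.val % q p ≠ 1`, and the same residues as `x` modulo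
`l ^ a` and modulo the other `q p'`, so `f z = 0` by induction on `r`. Hence `f x = 0`.

Step 2: `f x = 0` if (a). If `l ∣ x.val`: `h0`. If `l ∤ x.val` and
`2 * (x.val % l ^ (a-1)) < l ^ (a-1)` but `x.val % l ^ a < l ^ (a-1)`: `hf.dist l` at `x`, `f (l x) = 0` by
`h0`: the `z ≠ x` with `l z = l x` (`z ≡ x` modulo `m / l`) have `z.val % l ^ (a-1) = x.val % l ^ (a-1)`,
the same residues modulo all `q p`, and `z.val % l ^ a ≠ x.val % l ^ a`, so
`z.val % l ^ a ≥ l ^ (a-1)`: step 1. If `2 * (x.val % l ^ (a-1)) > l ^ (a-1)`: apply this to `-x`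
(`hf.odd`). Equality is impossible: `l ∤ x.val`, and `l ^ (a-1)` is odd or divisible by four.

Step 3: all `x`, induction on `Nat.gcd x.val m`. If (a) fails then `p ∣ x.val` for some `p ∈ supp x`,
`x = p z`, `f x = ∑ f z'` over the `z'` with `p z' = x`; all `z'` have `supp z' = supp x` and
`gcd z'.val m < gcd x.val m` (as in `e_mem_genL` in `Stick/Gen2.lean`, because
`p * gcd x.val m ∣ m`).
-/

set_option autoImplicit false

namespace Pool.Agent.FermD

open Finset Pool.Stick

/-- the primes `p ∣ M` such that the `p`-part of `M` does not divide `x` -/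
private def supp (M : ℕ) {m : ℕ} (x : ZMod m) : Finset ℕ :=
  M.primeFactors.filter fun p => ¬ p ^ M.factorization p ∣ x.val

private theorem mem_supp {M m p : ℕ} {x : ZMod m} :
    p ∈ supp M x ↔ p ∈ M.primeFactors ∧ ¬ p ^ M.factorization p ∣ x.val := by
  unfold supp
  rw [mem_filter]

private theorem mod_of_mod {u v d N : ℕ} (h : u % N = v % N) (hd : d ∣ N) : u % d = v % d := by
  rw [← Nat.mod_mod_of_dvd u hd, ← Nat.mod_mod_of_dvd v hd, h]

private theorem dvd_of_mod {u v d N : ℕ} (h : u % N = v % N) (hd : d ∣ N) : d ∣ u ↔ d ∣ v := by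
  rw [Nat.dvd_iff_mod_eq_zero, Nat.dvd_iff_mod_eq_zero, mod_of_mod h hd]

section

variable {l a M m : ℕ} [NeZero m] {W : Type} [AddCommGroup W] {f : ZMod m → W}

private theorem pne (hM : ¬ l ∣ M) {p : ℕ} (hp : p ∈ M.primeFactors) : p ≠ l := by
  rintro rfl
  exact hM (Nat.dvd_of_mem_primeFactors hp)

omit [NeZero m] in
private theorem q_dvd (hm : m = l ^ a * M) (p : ℕ) : p ^ M.factorization p ∣ m := by
  rw [hm]
  exact (Nat.ordProj_dvd M p).mul_left _

private theorem b_pos {p : ℕ} (hp : p ∈ M.primeFactors) : 0 < M.factorization p :=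
  (Nat.prime_of_mem_primeFactors hp).factorization_pos_of_dvd
    (Nat.mem_primeFactors.1 hp).2.2 (Nat.dvd_of_mem_primeFactors hp)

private theorem cop_l (hl : l.Prime) (hM : ¬ l ∣ M) {p : ℕ} (hp : p ∈ M.primeFactors) (b c : ℕ) :
    (p ^ b).Coprime (l ^ c) :=
  Nat.Coprime.pow _ _ ((Nat.coprime_primes (Nat.prime_of_mem_primeFactors hp) hl).2 (pne hM hp))

omit [NeZero m] in
private theorem q_not (hl : l.Prime) (hM : ¬ l ∣ M) (hm : m = l ^ a * M) {p : ℕ}
    (hp : p ∈ M.primeFactors) : ¬ p ^ (M.factorization p + 1) ∣ m := by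
  intro h
  rw [hm] at h
  have h1 := (cop_l hl hM hp (M.factorization p + 1) a).dvd_of_dvd_mul_left h
  exact Nat.pow_succ_factorization_not_dvd (Nat.mem_primeFactors.1 hp).2.2
    (Nat.prime_of_mem_primeFactors hp) h1

omit [NeZero m] in
/-- the other prime powers divide the cofactor -/
private theorem cof (hm : m = l ^ a * M) {p p' N : ℕ}
    (hp : p ∈ M.primeFactors) (hp' : p' ∈ M.primeFactors) (hne : p' ≠ p) {b : ℕ}
    (hN : m = p ^ b * N) : p' ^ M.factorization p' ∣ N := by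
  have h1 : p' ^ M.factorization p' ∣ p ^ b * N := by
    rw [← hN]
    exact q_dvd hm p'
  exact (Nat.Coprime.pow _ _ ((Nat.coprime_primes (Nat.prime_of_mem_primeFactors hp')
    (Nat.prime_of_mem_primeFactors hp)).2 hne)).dvd_of_dvd_mul_left h1

omit [NeZero m] in
private theorem cof_l (hl : l.Prime) (hM : ¬ l ∣ M) (hm : m = l ^ a * M) {p N : ℕ}
    (hp : p ∈ M.primeFactors) {b : ℕ} (hN : m = p ^ b * N) : l ^ a ∣ N := by
  have h1 : l ^ a ∣ p ^ b * N := by
    rw [← hN, hm]
    exact dvd_mul_right _ _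
  exact (cop_l hl hM hp b a).symm.dvd_of_dvd_mul_left h1

/-- Step 1. -/
private theorem step1 (hm : m = l ^ a * M) (hl : l.Prime) (hM : ¬ l ∣ M) (ha : 2 ≤ a)
    (hf : OddDist f)
    (hE : ∀ x : ZMod m, ¬ l ∣ x.val → l ^ (a - 1) ≤ x.val % l ^ a →
      2 * (x.val % l ^ (a - 1)) < l ^ (a - 1) →
      (∀ p ∈ M.primeFactors, p ^ M.factorization p ∣ x.val ∨
        (¬ p ∣ x.val ∧ x.val % p ^ M.factorization p ≠ 1)) → f x = 0)
    {k : ℕ} (hk : ∀ y : ZMod m, (supp M y).card < k → f y = 0) (n : ℕ) :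
    ∀ x : ZMod m, (supp M x).card ≤ k → (∀ p ∈ supp M x, ¬ p ∣ x.val) → ¬ l ∣ x.val →
      l ^ (a - 1) ≤ x.val % l ^ a → 2 * (x.val % l ^ (a - 1)) < l ^ (a - 1) →
      ((supp M x).filter (fun p => x.val % p ^ M.factorization p = 1)).card ≤ n → f x = 0 := by
  have hbase : ∀ x : ZMod m, (∀ p ∈ supp M x, ¬ p ∣ x.val) → ¬ l ∣ x.val →
      l ^ (a - 1) ≤ x.val % l ^ a → 2 * (x.val % l ^ (a - 1)) < l ^ (a - 1) →
      (supp M x).filter (fun p => x.val % p ^ M.factorization p = 1) = ∅ → f x = 0 := by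
    intro x h1 h2 h3 h4 h5
    refine hE x h2 h3 h4 fun p hp => ?_
    by_cases h6 : p ^ M.factorization p ∣ x.val
    · exact Or.inl h6
    · have h7 : p ∈ supp M x := mem_supp.2 ⟨hp, h6⟩
      refine Or.inr ⟨h1 p h7, fun h8 => ?_⟩
      have h9 : p ∈ (supp M x).filter (fun p => x.val % p ^ M.factorization p = 1) :=
        mem_filter.2 ⟨h7, h8⟩
      rw [h5] at h9
      exact absurd h9 (notMem_empty _)
  induction n with
  | zero =>
    intro x _ h1 h2 h3 h4 h5
    exact hbase x h1 h2 h3 h4 (card_eq_zero.1 (Nat.le_zero.1 h5))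
  | succ n ih =>
    intro x hx h1 h2 h3 h4 h5
    by_cases h6 : (supp M x).filter (fun p => x.val % p ^ M.factorization p = 1) = ∅
    · exact hbase x h1 h2 h3 h4 h6
    obtain ⟨p, hpf⟩ := Finset.nonempty_iff_ne_empty.2 h6
    obtain ⟨hps, hp1⟩ := mem_filter.1 hpf
    obtain ⟨hpP, hpq⟩ := mem_supp.1 hps
    have hp : p.Prime := Nat.prime_of_mem_primeFactors hpP
    set b := M.factorization p with hb
    have hb0 : 0 < b := b_pos hpP
    have hqm : p ^ b ∣ m := q_dvd hm p
    obtain ⟨w, hw1, hw2, hw3⟩ := hf.unit_sum hp hb0 hqm (q_not hl hM hm hpP) x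
    obtain ⟨N, hN⟩ := hqm
    have hpN : ¬ p ∣ N := by
      rintro ⟨c, rfl⟩
      exact q_not hl hM hm hpP ⟨c, by rw [hN, pow_succ, mul_assoc]⟩
    have hppos : 0 < p ^ b := pow_pos hp.pos b
    rw [fibre_iff hN hppos] at hw2
    have hb' : p ^ b = p ^ (b - 1) * p := by
      rw [← pow_succ]
      congr 1
      omega
    have hN' : m = p ^ (b - 1) * (p * N) := by
      rw [← mul_assoc, ← hb']
      exact hN
    -- the supports are smaller
    have hu : f (((p ^ b : ℕ) : ZMod m) * x) = 0 := by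
      refine hk _ (lt_of_lt_of_le (card_lt_card ?_) hx)
      rw [Finset.ssubset_iff_of_subset]
      · refine ⟨p, hps, fun h => (mem_supp.1 h).2 ?_⟩
        rw [val_mul_eq hN]
        exact dvd_mul_right _ _
      · intro p' hp'
        obtain ⟨h7, h8⟩ := mem_supp.1 hp'
        refine mem_supp.2 ⟨h7, fun h9 => h8 ?_⟩
        by_cases h10 : p' = p
        · subst h10
          rw [val_mul_eq hN]
          exact dvd_mul_right _ _
        · rw [val_mul_eq hN]
          exact ((Nat.dvd_mod_iff (cof hm hpP h7 h10 hN)).2 h9).mul_left _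
    have hv : f (((p ^ (b - 1) : ℕ) : ZMod m) * w) = 0 := by
      have h11 : p ^ b ∣ (((p ^ (b - 1) : ℕ) : ZMod m) * w).val := by
        rw [val_mul_eq hN', hb']
        exact mul_dvd_mul_left _ ((Nat.dvd_mod_iff (dvd_mul_right _ _)).2
          ((dvd_pow_self p hb0.ne').trans hw1))
      refine hk _ (lt_of_lt_of_le (card_lt_card ?_) hx)
      rw [Finset.ssubset_iff_of_subset]
      · exact ⟨p, hps, fun h => (mem_supp.1 h).2 h11⟩
      · intro p' hp'
        obtain ⟨h7, h8⟩ := mem_supp.1 hp'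
        refine mem_supp.2 ⟨h7, fun h9 => h8 ?_⟩
        by_cases h10 : p' = p
        · subst h10
          exact h11
        · have h12 : p' ^ M.factorization p' ∣ N := cof hm hpP h7 h10 hN
          rw [val_mul_eq hN']
          refine ((Nat.dvd_mod_iff (h12.mul_left p)).2 ?_).mul_left _
          exact (dvd_of_mod hw2 h12).2 h9
    rw [hu, hv, sub_zero] at hw3
    have hxm : x ∈ univ.filter (fun z : ZMod m =>
        ((p ^ b : ℕ) : ZMod m) * z = ((p ^ b : ℕ) : ZMod m) * x ∧ ¬ p ∣ z.val) :=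
      mem_filter.2 ⟨mem_univ _, rfl, h1 p hps⟩
    rw [← Finset.add_sum_erase _ _ hxm] at hw3
    have hrest : ∑ z ∈ (univ.filter (fun z : ZMod m =>
        ((p ^ b : ℕ) : ZMod m) * z = ((p ^ b : ℕ) : ZMod m) * x ∧ ¬ p ∣ z.val)).erase x, f z = 0 := by
      refine sum_eq_zero fun z hz => ?_
      obtain ⟨hzx, hz⟩ := mem_erase.1 hz
      obtain ⟨hz1, hz2⟩ := (mem_filter.1 hz).2
      rw [fibre_iff hN hppos] at hz1
      have hzq : ¬ p ^ b ∣ z.val := fun h => hz2 ((dvd_pow_self p hb0.ne').trans h)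
      have hz3 : z.val % p ^ b ≠ 1 := by
        intro h7
        apply hzx
        have h8 : z.val ≡ x.val [MOD p ^ b] := by
          show _ % _ = _ % _
          rw [h7, hp1]
        have h9 : z.val ≡ x.val [MOD N] := hz1
        have hcop : (p ^ b).Coprime N :=
          ((Nat.Prime.coprime_iff_not_dvd hp).2 hpN).pow_left b
        have h10 : z.val ≡ x.val [MOD p ^ b * N] :=
          (Nat.modEq_and_modEq_iff_modEq_mul hcop).1 ⟨h8, h9⟩
        rw [← hN] at h10
        have h11 := (ZMod.natCast_eq_natCast_iff _ _ _).2 h10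
        rwa [ZMod.natCast_zmod_val, ZMod.natCast_zmod_val] at h11
      have hsupp : ∀ p' ∈ supp M z, p' ∈ supp M x := by
        intro p' hp'
        obtain ⟨h7, h8⟩ := mem_supp.1 hp'
        by_cases h10 : p' = p
        · subst h10
          exact hps
        · exact mem_supp.2 ⟨h7, fun h9 => h8 ((dvd_of_mod hz1 (cof hm hpP h7 h10 hN)).2 h9)⟩
      have hlN : l ^ a ∣ N := cof_l hl hM hm hpP hN
      have hlN' : l ^ (a - 1) ∣ N := (pow_dvd_pow l (Nat.sub_le a 1)).trans hlN
      have hlN1 : l ∣ N := (dvd_pow_self l (by omega)).trans hlN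
      refine ih z ((card_le_card hsupp).trans hx) ?_ ?_ ?_ ?_ ?_
      · intro p' hp' h7
        by_cases h10 : p' = p
        · subst h10
          exact hz2 h7
        · have h11 := (mem_supp.1 hp').1
          have h12 : p' ∣ N :=
            (dvd_pow_self p' (b_pos h11).ne').trans (cof hm hpP h11 h10 hN)
          exact h1 p' (hsupp p' hp') ((dvd_of_mod hz1 h12).1 h7)
      · rwa [dvd_of_mod hz1 hlN1]
      · rwa [mod_of_mod hz1 hlN]
      · rwa [mod_of_mod hz1 hlN']
      · have h7 : (supp M z).filter (fun p => z.val % p ^ M.factorization p = 1) ⊂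
            (supp M x).filter (fun p => x.val % p ^ M.factorization p = 1) := by
          rw [Finset.ssubset_iff_of_subset]
          · exact ⟨p, hpf, fun h => hz3 (mem_filter.1 h).2⟩
          · intro p' hp'
            obtain ⟨h7, h8⟩ := mem_filter.1 hp'
            refine mem_filter.2 ⟨hsupp p' h7, ?_⟩
            by_cases h10 : p' = p
            · subst h10
              exact absurd h8 hz3
            · rw [← h8]
              exact (mod_of_mod hz1 (cof hm hpP (mem_supp.1 h7).1 h10 hN)).symm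
        have h8 := card_lt_card h7
        omega
    rw [hrest, add_zero] at hw3
    exact hw3

/-- Step 2, first half. -/
private theorem step2a (hm : m = l ^ a * M) (hl : l.Prime) (hM : ¬ l ∣ M) (ha : 2 ≤ a)
    (hf : OddDist f) (h0 : ∀ x : ZMod m, l ∣ x.val → f x = 0)
    (hE : ∀ x : ZMod m, ¬ l ∣ x.val → l ^ (a - 1) ≤ x.val % l ^ a →
      2 * (x.val % l ^ (a - 1)) < l ^ (a - 1) →
      (∀ p ∈ M.primeFactors, p ^ M.factorization p ∣ x.val ∨
        (¬ p ∣ x.val ∧ x.val % p ^ M.factorization p ≠ 1)) → f x = 0)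
    {k : ℕ} (hk : ∀ y : ZMod m, (supp M y).card < k → f y = 0)
    (x : ZMod m) (hx : (supp M x).card ≤ k) (h1 : ∀ p ∈ supp M x, ¬ p ∣ x.val)
    (h2 : ¬ l ∣ x.val) (h4 : 2 * (x.val % l ^ (a - 1)) < l ^ (a - 1)) : f x = 0 := by
  by_cases h3 : l ^ (a - 1) ≤ x.val % l ^ a
  · exact step1 hm hl hM ha hf hE hk _ x hx h1 h2 h3 h4 le_rfl
  have hla : l ^ a = l ^ (a - 1) * l := by
    rw [← pow_succ]
    congr 1
    omega
  have hN : m = l * (l ^ (a - 1) * M) := by
    rw [hm, hla]
    ring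
  have hlm : l ∣ m := ⟨_, hN⟩
  have hd := hf.dist l hl hlm x
  have h5 : f ((l : ZMod m) * x) = 0 := by
    refine h0 _ ?_
    rw [val_mul_eq hN]
    exact dvd_mul_right _ _
  have hxm : x ∈ univ.filter (fun z : ZMod m => (l : ZMod m) * z = l * x) :=
    mem_filter.2 ⟨mem_univ _, rfl⟩
  rw [h5, ← Finset.add_sum_erase _ _ hxm] at hd
  have hmod : ∀ u : ℕ, u % l ^ a < l ^ (a - 1) → u % l ^ a = u % l ^ (a - 1) := by
    intro u hu
    rw [← Nat.mod_mod_of_dvd u (pow_dvd_pow l (Nat.sub_le a 1)), Nat.mod_eq_of_lt hu]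
  have hrest : ∑ z ∈ (univ.filter (fun z : ZMod m => (l : ZMod m) * z = l * x)).erase x,
      f z = 0 := by
    refine sum_eq_zero fun z hz => ?_
    obtain ⟨hzx, hz⟩ := mem_erase.1 hz
    have hz1 := (mem_filter.1 hz).2
    rw [fibre_iff hN hl.pos] at hz1
    have hq : ∀ p, p ^ M.factorization p ∣ l ^ (a - 1) * M := fun p =>
      (Nat.ordProj_dvd M p).mul_left _
    have hl1 : l ^ (a - 1) ∣ l ^ (a - 1) * M := dvd_mul_right _ _
    have hl2 : l ∣ l ^ (a - 1) * M := (dvd_pow_self l (by omega)).trans hl1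
    have hsupp : ∀ p' ∈ supp M z, p' ∈ supp M x := by
      intro p' hp'
      obtain ⟨h7, h8⟩ := mem_supp.1 hp'
      exact mem_supp.2 ⟨h7, fun h9 => h8 ((dvd_of_mod hz1 (hq p')).2 h9)⟩
    refine step1 hm hl hM ha hf hE hk _ z ((card_le_card hsupp).trans hx) ?_ ?_ ?_ ?_ le_rfl
    · intro p' hp' h7
      have h11 := (mem_supp.1 hp').1
      have h12 : p' ∣ l ^ (a - 1) * M := (dvd_pow_self p' (b_pos h11).ne').trans (hq p')
      exact h1 p' (hsupp p' hp') ((dvd_of_mod hz1 h12).1 h7)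
    · rwa [dvd_of_mod hz1 hl2]
    · by_contra h6
      apply hzx
      have h8 : z.val ≡ x.val [MOD l ^ a] := by
        show _ % _ = _ % _
        rw [hmod _ (not_le.1 h3), hmod _ (not_le.1 h6)]
        exact mod_of_mod hz1 hl1
      have h9 : z.val ≡ x.val [MOD M] := mod_of_mod hz1 (dvd_mul_left _ _)
      have hcop : (l ^ a).Coprime M := ((Nat.Prime.coprime_iff_not_dvd hl).2 hM).pow_left a
      have h10 : z.val ≡ x.val [MOD l ^ a * M] :=
        (Nat.modEq_and_modEq_iff_modEq_mul hcop).1 ⟨h8, h9⟩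
      rw [← hm] at h10
      have h11 := (ZMod.natCast_eq_natCast_iff _ _ _).2 h10
      rwa [ZMod.natCast_zmod_val, ZMod.natCast_zmod_val] at h11
    · rwa [mod_of_mod hz1 hl1]
  rw [hrest, add_zero] at hd
  exact hd

private theorem dvd_neg_val {d : ℕ} (hd : d ∣ m) (x : ZMod m) : d ∣ (-x).val ↔ d ∣ x.val := by
  have h1 : ((x.val + (-x).val : ℕ) : ZMod m) = 0 := by
    push_cast
    rw [ZMod.natCast_zmod_val, ZMod.natCast_zmod_val, add_neg_cancel]
  have h2 : d ∣ x.val + (-x).val := hd.trans ((ZMod.natCast_eq_zero_iff _ _).1 h1)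
  constructor
  · intro h
    exact (Nat.dvd_add_left h).1 h2
  · intro h
    exact (Nat.dvd_add_right h).1 h2

/-- Step 2. -/
private theorem step2 (hm : m = l ^ a * M) (hl : l.Prime) (hM : ¬ l ∣ M) (ha : 2 ≤ a)
    (ha' : l = 2 → 3 ≤ a)
    (hf : OddDist f) (h0 : ∀ x : ZMod m, l ∣ x.val → f x = 0)
    (hE : ∀ x : ZMod m, ¬ l ∣ x.val → l ^ (a - 1) ≤ x.val % l ^ a →
      2 * (x.val % l ^ (a - 1)) < l ^ (a - 1) →
      (∀ p ∈ M.primeFactors, p ^ M.factorization p ∣ x.val ∨
        (¬ p ∣ x.val ∧ x.val % p ^ M.factorization p ≠ 1)) → f x = 0)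
    {k : ℕ} (hk : ∀ y : ZMod m, (supp M y).card < k → f y = 0)
    (x : ZMod m) (hx : (supp M x).card ≤ k) (h1 : ∀ p ∈ supp M x, ¬ p ∣ x.val) : f x = 0 := by
  by_cases h2 : l ∣ x.val
  · exact h0 x h2
  have hl1 : l ^ (a - 1) ∣ m := by
    rw [hm]
    exact (pow_dvd_pow l (Nat.sub_le a 1)).mul_right _
  have hl2 : l ∣ l ^ (a - 1) := dvd_pow_self l (by omega)
  have hlr : ¬ l ∣ x.val % l ^ (a - 1) := fun h => h2 ((Nat.dvd_mod_iff hl2).1 h)
  have hrlt : x.val % l ^ (a - 1) < l ^ (a - 1) := Nat.mod_lt _ (pow_pos hl.pos _)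
  rcases lt_trichotomy (2 * (x.val % l ^ (a - 1))) (l ^ (a - 1)) with h4 | h4 | h4
  · exact step2a hm hl hM ha hf h0 hE hk x hx h1 h2 h4
  · exfalso
    by_cases hl3 : l = 2
    · subst hl3
      have h5 := ha' rfl
      have h6 : (2 : ℕ) ^ (a - 1) = 2 * (2 * 2 ^ (a - 3)) := by
        rw [← pow_succ', ← pow_succ']
        congr 1
        omega
      rw [h6] at h4
      rw [h6] at hlr
      exact hlr ⟨2 ^ (a - 3), by omega⟩
    · have h5 : Odd (l ^ (a - 1)) := (hl.odd_of_ne_two hl3).pow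
      rw [← h4] at h5
      exact (Nat.not_odd_iff_even.2 (even_two_mul _)) h5
  · have h5 : f (-x) = 0 := by
      have hsum : (x.val + (-x).val) % l ^ (a - 1) = 0 := by
        have h1 : ((x.val + (-x).val : ℕ) : ZMod m) = 0 := by
          push_cast
          rw [ZMod.natCast_zmod_val, ZMod.natCast_zmod_val, add_neg_cancel]
        exact Nat.mod_eq_zero_of_dvd (hl1.trans ((ZMod.natCast_eq_zero_iff _ _).1 h1))
      have hr2 : (-x).val % l ^ (a - 1) < l ^ (a - 1) := Nat.mod_lt _ (pow_pos hl.pos _)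
      have hsum' : l ^ (a - 1) ∣ x.val % l ^ (a - 1) + (-x).val % l ^ (a - 1) := by
        rw [Nat.dvd_iff_mod_eq_zero, ← Nat.add_mod]
        exact hsum
      obtain ⟨c, hc⟩ := hsum'
      have hsupp : ∀ p' ∈ supp M (-x), p' ∈ supp M x := by
        intro p' hp'
        obtain ⟨h7, h8⟩ := mem_supp.1 hp'
        exact mem_supp.2 ⟨h7, fun h9 => h8 ((dvd_neg_val (q_dvd hm p') x).2 h9)⟩
      refine step2a hm hl hM ha hf h0 hE hk (-x) ((card_le_card hsupp).trans hx) ?_ ?_ ?_
      · intro p' hp' h7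
        have h8 : p' ∣ m := by
          rw [hm]
          exact (Nat.dvd_of_mem_primeFactors (mem_supp.1 hp').1).mul_left _
        exact h1 p' (hsupp p' hp') ((dvd_neg_val h8 x).1 h7)
      · rw [dvd_neg_val (hl2.trans hl1)]
        exact h2
      · have h6 : c = 1 := by
          have h7 : c < 2 := by
            by_contra h8
            have h9 : l ^ (a - 1) * 2 ≤ l ^ (a - 1) * c := Nat.mul_le_mul_left _ (not_lt.1 h8)
            omega
          have h8 : c ≠ 0 := by
            rintro rfl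
            rw [mul_zero] at hc
            rw [(Nat.add_eq_zero_iff.1 hc).1] at h4
            omega
          omega
        subst h6
        rw [mul_one] at hc
        omega
    rw [hf.odd] at h5
    exact neg_eq_zero.1 h5

/-- Step 3. -/
private theorem step3 (hm : m = l ^ a * M) (hl : l.Prime) (hM : ¬ l ∣ M) (ha : 2 ≤ a)
    (ha' : l = 2 → 3 ≤ a)
    (hf : OddDist f) (h0 : ∀ x : ZMod m, l ∣ x.val → f x = 0)
    (hE : ∀ x : ZMod m, ¬ l ∣ x.val → l ^ (a - 1) ≤ x.val % l ^ a →
      2 * (x.val % l ^ (a - 1)) < l ^ (a - 1) →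
      (∀ p ∈ M.primeFactors, p ^ M.factorization p ∣ x.val ∨
        (¬ p ∣ x.val ∧ x.val % p ^ M.factorization p ≠ 1)) → f x = 0)
    {k : ℕ} (hk : ∀ y : ZMod m, (supp M y).card < k → f y = 0) (n : ℕ) :
    ∀ x : ZMod m, (supp M x).card ≤ k → Nat.gcd x.val m ≤ n → f x = 0 := by
  induction n with
  | zero =>
    intro x _ h
    have : 0 < Nat.gcd x.val m := Nat.gcd_pos_of_pos_right _ (NeZero.pos m)
    omega
  | succ n ih =>
    intro x hx h
    by_cases h1 : ∀ p ∈ supp M x, ¬ p ∣ x.val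
    · exact step2 hm hl hM ha ha' hf h0 hE hk x hx h1
    push Not at h1
    obtain ⟨p, hps, hpx⟩ := h1
    obtain ⟨hpP, hpq⟩ := mem_supp.1 hps
    have hp : p.Prime := Nat.prime_of_mem_primeFactors hpP
    have hpm : p ∣ m := by
      rw [hm]
      exact (Nat.dvd_of_mem_primeFactors hpP).mul_left _
    set d := Nat.gcd x.val m with hd
    have hd0 : 0 < d := Nat.gcd_pos_of_pos_right _ (NeZero.pos m)
    have hdm : d ∣ m := Nat.gcd_dvd_right _ _
    have hdx : d ∣ x.val := Nat.gcd_dvd_left _ _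
    have hcase : p * d ∣ m := by
      obtain ⟨c, hc⟩ := hdm
      by_cases h2 : p ∣ c
      · rw [hc, mul_comm p d]
        exact mul_dvd_mul_left d h2
      · exfalso
        have h3 : p ^ M.factorization p ∣ d * c := by
          rw [← hc]
          exact q_dvd hm p
        have h4 : (p ^ M.factorization p).Coprime c :=
          ((Nat.Prime.coprime_iff_not_dvd hp).2 h2).pow_left _
        exact hpq ((h4.dvd_of_dvd_mul_right h3).trans hdx)
    have hlt : ∀ y : ZMod m, (p : ZMod m) * y = x → Nat.gcd y.val m < d := by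
      intro y hy
      have h1 : ((p * y.val : ℕ) : ZMod m) = ((x.val : ℕ) : ZMod m) := by
        rw [Nat.cast_mul, ZMod.natCast_zmod_val, ZMod.natCast_zmod_val, hy]
      have h2 : p * y.val ≡ x.val [MOD m] := (ZMod.natCast_eq_natCast_iff _ _ _).1 h1
      have h3 : Nat.gcd (p * y.val) m = d := h2.gcd_eq
      have h4 : Nat.gcd y.val m ∣ d := by
        rw [← h3]
        exact Nat.gcd_dvd_gcd_mul_left_left _ _ _
      refine lt_of_le_of_ne (Nat.le_of_dvd hd0 h4) fun h5 => ?_
      have h6 : d ∣ y.val := by rw [← h5]; exact Nat.gcd_dvd_left _ _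
      have h7 : p * d ∣ Nat.gcd (p * y.val) m := Nat.dvd_gcd (Nat.mul_dvd_mul_left p h6) hcase
      rw [h3] at h7
      have h8 := Nat.le_of_dvd hd0 h7
      have h9 := hp.two_le
      nlinarith
    obtain ⟨z0, hz0⟩ := hpx
    have hpz : (p : ZMod m) * ((z0 : ℕ) : ZMod m) = x := by
      rw [← Nat.cast_mul, ← hz0, ZMod.natCast_zmod_val]
    have hdist := hf.dist p hp hpm ((z0 : ℕ) : ZMod m)
    rw [hpz] at hdist
    rw [← hdist]
    refine sum_eq_zero fun z hz => ?_
    have hz1 := (mem_filter.1 hz).2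
    refine ih z (le_trans (card_le_card ?_) hx) ?_
    · intro p' hp'
      obtain ⟨h7, h8⟩ := mem_supp.1 hp'
      by_cases h10 : p' = p
      · subst h10
        exact hps
      · refine mem_supp.2 ⟨h7, fun h9 => h8 ?_⟩
        obtain ⟨N, hN⟩ := hpm
        have h11 : p' ^ M.factorization p' ∣ N := by
          refine cof hm hpP h7 h10 (b := 1) ?_
          rw [pow_one]
          exact hN
        rw [← hz1, val_mul_eq hN] at h9
        have h12 : (p' ^ M.factorization p').Coprime p := by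
          have h13 := Nat.Coprime.pow_left (M.factorization p')
            ((Nat.coprime_primes (Nat.prime_of_mem_primeFactors h7) hp).2 h10)
          exact h13
        exact (Nat.dvd_mod_iff h11).1 (h12.dvd_of_dvd_mul_left h9)
    · have h2 := hlt z hz1
      omega

private theorem det' (hm : m = l ^ a * M) (hl : l.Prime) (hM : ¬ l ∣ M) (ha : 2 ≤ a)
    (ha' : l = 2 → 3 ≤ a)
    (hf : OddDist f) (h0 : ∀ x : ZMod m, l ∣ x.val → f x = 0)
    (hE : ∀ x : ZMod m, ¬ l ∣ x.val → l ^ (a - 1) ≤ x.val % l ^ a →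
      2 * (x.val % l ^ (a - 1)) < l ^ (a - 1) →
      (∀ p ∈ M.primeFactors, p ^ M.factorization p ∣ x.val ∨
        (¬ p ∣ x.val ∧ x.val % p ^ M.factorization p ≠ 1)) → f x = 0)
    (k : ℕ) : ∀ y : ZMod m, (supp M y).card < k → f y = 0 := by
  induction k with
  | zero => exact fun y hy => absurd hy (Nat.not_lt_zero _)
  | succ k ih =>
    exact fun y hy => step3 hm hl hM ha ha' hf h0 hE ih _ y (Nat.lt_succ_iff.1 hy) le_rfl

end

theorem det {l a M : ℕ} [NeZero (l ^ a * M)] (hl : l.Prime) (hM : ¬ l ∣ M) (ha : 2 ≤ a)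
    (ha' : l = 2 → 3 ≤ a) {W : Type} [AddCommGroup W] {f : ZMod (l ^ a * M) → W}
    (hf : OddDist f) (h0 : ∀ x : ZMod (l ^ a * M), l ∣ x.val → f x = 0)
    (hE : ∀ x ∈ gen l a M, f x = 0) (x : ZMod (l ^ a * M)) : f x = 0 := by
  refine det' rfl hl hM ha ha' hf h0 (fun y h1 h2 h3 h4 => hE y ?_) _ x (Nat.lt_succ_self _)
  unfold gen
  rw [mem_filter]
  exact ⟨mem_univ _, h1, h2, h3, h4⟩

end Pool.Agent.FermD
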