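import Pool.Agent.FermD.Indep
import Pool.Agent.FermD.Det
import Pool.Agent.FermD.Count

/-!
# FD10: from level `m` to level `m / l`

* `oddDist_mk`: for a subgroup `R` of `A m` which contains `RelE m`, `x ↦ e x` modulo `R` is an odd
  distribution: `zero`: `e 0 ∈ RelE m`; `odd`: `e x + e (-x) ∈ RelE m` (`relP` for `x ≠ 0`); `dist`: if
  `l x ≠ 0` from `relD m l`, the pair of `l x`, and `e (m / 2) ∈ RelE m` for `l = 2`. If `l x = 0`: the
  sum over the `z` with `l z = 0` of `e z` is in `RelE m`: for `l = 2` these are `0`, `m / 2`; for odd `l`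
  the elements different from `0` form pairs `z, -z` (`Finset.sum_involution` in the quotient, or
  `2 * s = 0`-free: `z ≠ -z`).
* `step`: write `m = l ^ a * M` with `l ∤ M`, `a ≥ 2`, `a ≥ 3` if `l = 2`. Then `m / l = l ^ (a-1) * M`. Let
  `R = closure (e '' gen l a M) ⊔ (Lf m (m / l)).range ⊔ RelE m`, `f x` the class of `e x` in `A m ⧸ R`.
  `det` gives `f = 0` (`h0`: `exists_mulD`): so all `e x ∈ R`. `indep_gen` with `T = (Lf m (m / l)).range`,
  `d = φ (m / l) / 2` (`finrank_lift`; `φ (m/l)` is even as `m / l ≥ 3`), `E = gen l a M` (`card_gen`) gives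
  `v - Lf w ∈ RelE m`; `bv w = 0` by `RelE_bv` and `bv_Lf_eq_zero`.
-/

set_option autoImplicit false

namespace Pool.Agent.FermD

open Finset Pool.Stick

theorem oddDist_mk {m : ℕ} [NeZero m] {R : AddSubgroup (A m)} (hR : RelE m ≤ R) :
    OddDist (fun x : ZMod m => (QuotientAddGroup.mk (e x) : A m ⧸ R)) := by
  have hq : ∀ v : A m, v ∈ RelE m → QuotientAddGroup.mk' R v = 0 := fun v hv => by
    rw [QuotientAddGroup.mk'_apply, QuotientAddGroup.eq_zero_iff]
    exact hR hv
  have hzero : QuotientAddGroup.mk' R (e (0 : ZMod m)) = 0 :=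
    hq _ (AddSubgroup.subset_closure (Or.inr (Or.inl rfl)))
  have hodd : ∀ x : ZMod m, QuotientAddGroup.mk' R (e (-x)) = - QuotientAddGroup.mk' R (e x) := by
    intro x
    by_cases hx : x = 0
    · subst hx
      rw [neg_zero, hzero, neg_zero]
    · rw [eq_neg_iff_add_eq_zero, add_comm, ← map_add]
      exact hq _ (AddSubgroup.subset_closure (Or.inl (Or.inl ⟨x, hx, rfl⟩)))
  have hhalf : 2 ∣ m → QuotientAddGroup.mk' R (e ((m / 2 : ℕ) : ZMod m)) = 0 := fun h =>
    hq _ (AddSubgroup.subset_closure (Or.inr (Or.inr ⟨h, rfl⟩)))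
  refine ⟨hzero, hodd, ?_⟩
  intro l hl hlm x
  change ∑ z ∈ univ.filter (fun z : ZMod m => (l : ZMod m) * z = l * x),
    QuotientAddGroup.mk' R (e z) = QuotientAddGroup.mk' R (e ((l : ZMod m) * x))
  by_cases hx : (l : ZMod m) * x = 0
  · rw [hx, hzero]
    rcases eq_or_ne l 2 with h2 | h2
    · subst h2
      obtain ⟨M, hm⟩ := id hlm
      have hv := val_mul_eq hm x
      rw [hx, ZMod.val_zero] at hv
      have hv0 : x.val % M = 0 := by omega
      have hs := sum_fibre hm hl.pos x (fun z => QuotientAddGroup.mk' R (e z))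
      rw [hx] at hs
      rw [hs, sum_range_succ, sum_range_one, hv0, mul_zero, add_zero, mul_one, add_zero,
        Nat.cast_zero, hzero, zero_add]
      have hM : M = m / 2 := by omega
      have := hhalf hlm
      rw [← hM] at this
      exact this
    · refine sum_involution (fun z _ => -z) ?_ ?_ ?_ ?_
      · intro z _
        rw [hodd, add_neg_cancel]
      · intro z hz hz0 hzz
        apply hz0
        rw [mem_filter] at hz
        have hlodd : Odd l := hl.odd_of_ne_two h2
        obtain ⟨k, hk⟩ := hlodd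
        have h1 : (2 : ZMod m) * z = 0 := by linear_combination -hzz
        have h3 : z = 0 := by
          have h4 := hz.2
          rw [hk] at h4
          push_cast at h4
          linear_combination h4 - (k : ZMod m) * h1
        rw [h3, hzero]
      · intro z hz
        rw [mem_filter] at hz ⊢
        refine ⟨mem_univ _, ?_⟩
        rw [mul_neg, hz.2, neg_zero]
      · intro z _
        exact neg_neg z
  · have hrel : ∑ z ∈ univ.filter (fun z : ZMod m => (l : ZMod m) * z = l * x), e z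
        + e (-((l : ZMod m) * x)) + (if l = 2 then e ((m / 2 : ℕ) : ZMod m) else 0) ∈ RelE m :=
      AddSubgroup.subset_closure (Or.inl (Or.inr ⟨l, hl, hlm, x, hx, rfl⟩))
    have h1 := hq _ hrel
    have h2 : QuotientAddGroup.mk' R (if l = 2 then e ((m / 2 : ℕ) : ZMod m) else 0) = 0 := by
      split_ifs with h
      · subst h
        exact hhalf hlm
      · exact map_zero _
    rw [map_add, map_add, h2, add_zero, map_sum, hodd, add_neg_eq_zero] at h1
    exact h1

theorem step {m l : ℕ} [NeZero m] [NeZero (m / l)] (hl : l.Prime) (h2 : l ^ 2 ∣ m)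
    (h8 : l = 2 → 8 ∣ m) {v : A m} (hv : bv v = 0) :
    ∃ w : A (m / l), bv w = 0 ∧ v - Lf m (m / l) w ∈ RelE m := by
  have hlm : l ∣ m := (dvd_pow_self l two_ne_zero).trans h2
  obtain ⟨a, M, hM, hm⟩ := Nat.exists_eq_pow_mul_and_not_dvd (NeZero.ne m) l hl.ne_one
  subst hm
  have hM0 : 0 < M := Nat.pos_of_ne_zero fun h => hM (h ▸ dvd_zero l)
  have key : ∀ b : ℕ, l ^ b ∣ l ^ a * M → b ≤ a := by
    intro b hb
    by_contra hlt
    have h1 : l ^ (a + 1) ∣ l ^ a * M := (pow_dvd_pow l (by omega)).trans hb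
    rw [pow_succ] at h1
    exact hM (Nat.dvd_of_mul_dvd_mul_left (pow_pos hl.pos a) h1)
  have ha : 2 ≤ a := key 2 h2
  have ha' : l = 2 → 3 ≤ a := fun h => key 3 (by
    rw [h]
    have := h8 h
    rw [h] at this
    exact this)
  have hdiv : l ^ a * M / l = l ^ (a - 1) * M := by
    obtain ⟨b, rfl⟩ : ∃ b, a = b + 1 := ⟨a - 1, by omega⟩
    rw [pow_succ, Nat.add_sub_cancel]
    rw [show l ^ b * l * M = l * (l ^ b * M) by ring]
    exact Nat.mul_div_cancel_left _ hl.pos
  have hn3 : 3 ≤ l ^ a * M / l := by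
    rw [hdiv]
    have h1 : 3 ≤ l ^ (a - 1) := by
      rcases eq_or_ne l 2 with h | h
      · have h3 := ha' h
        calc 3 ≤ l ^ 2 := by rw [h]; norm_num
          _ ≤ l ^ (a - 1) := Nat.pow_le_pow_right hl.pos (by omega)
      · have h3 : 3 ≤ l := by
          have := hl.two_le
          omega
        calc 3 ≤ l ^ 1 := by rw [pow_one]; exact h3
          _ ≤ l ^ (a - 1) := Nat.pow_le_pow_right hl.pos (by omega)
    calc 3 ≤ l ^ (a - 1) * 1 := by omega
      _ ≤ l ^ (a - 1) * M := Nat.mul_le_mul_left _ hM0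
  have hm3 : 3 ≤ l ^ a * M := hn3.trans (Nat.div_le_self _ _)
  have hdm : l ^ a * M / l ∣ l ^ a * M := Nat.div_dvd_of_dvd hlm
  -- generation
  have hgen : ∀ x : ZMod (l ^ a * M), e x ∈
      AddSubgroup.closure (e '' ((gen l a M : Finset (ZMod (l ^ a * M))) :
        Set (ZMod (l ^ a * M)))) ⊔ (Lf (l ^ a * M) (l ^ a * M / l)).range ⊔ RelE (l ^ a * M) := by
    intro x
    set R := AddSubgroup.closure (e '' ((gen l a M : Finset (ZMod (l ^ a * M))) :
        Set (ZMod (l ^ a * M)))) ⊔ (Lf (l ^ a * M) (l ^ a * M / l)).range ⊔ RelE (l ^ a * M)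
      with hRdef
    have hRE : RelE (l ^ a * M) ≤ R := le_sup_right
    have hRL : (Lf (l ^ a * M) (l ^ a * M / l)).range ≤ R := le_sup_right.trans le_sup_left
    have hRG : AddSubgroup.closure (e '' ((gen l a M : Finset (ZMod (l ^ a * M))) :
        Set (ZMod (l ^ a * M)))) ≤ R := le_sup_left.trans le_sup_left
    have h := det hl hM ha ha' (oddDist_mk hRE) (fun y hy => by
      rw [QuotientAddGroup.eq_zero_iff]
      obtain ⟨z, hz⟩ := exists_mulD hl.pos hlm hy
      apply hRL
      refine ⟨e z, ?_⟩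
      rw [Lf_e, hz]) (fun y hy => by
      rw [QuotientAddGroup.eq_zero_iff]
      apply hRG
      apply AddSubgroup.subset_closure
      exact ⟨y, hy, rfl⟩) x
    exact (QuotientAddGroup.eq_zero_iff _).1 h
  have hfr := finrank_lift hdm hn3
  have hcard := card_gen (M := M) hl hM ha ha'
  have hev : Even (Nat.totient (l ^ a * M / l)) := Nat.totient_even (by omega)
  have hE : 2 * ((gen l a M).card + Nat.totient (l ^ a * M / l) / 2) =
      Nat.totient (l ^ a * M) := by
    obtain ⟨r, hr⟩ := hev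
    rw [← hdiv] at hcard
    omega
  obtain ⟨w', hw', hvw⟩ := indep_gen hm3 (RelE (l ^ a * M))
    (Lf (l ^ a * M) (l ^ a * M / l)).range (fun v hv => RelE_bv hv)
    (Nat.totient (l ^ a * M / l) / 2) (by omega) (gen l a M) hE hgen hv
  obtain ⟨w, rfl⟩ := hw'
  refine ⟨w, ?_, hvw⟩
  have h1 := RelE_bv hvw
  rw [map_sub, hv, zero_sub, neg_eq_zero] at h1
  exact (bv_Lf_eq_zero hdm).1 h1

end Pool.Agent.FermD
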