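import Pool.Agent.FermD.ConvL
import Pool.Agent.FermD.Step

/-!
# Certificates for the base levels

`base_of_cert`: if the certificate is correct then the kernel of `bv` at level `n` is generated by
the relations and the Hodge classes with four elements.
-/

set_option autoImplicit false

namespace Pool.Agent.FermD

open Finset Pool.Stick Pool.Agent.StarkRQ

/-- relations: distribution relations, Hodge classes with four elements -/
inductive Rl
  | dist (l x : ℕ)
  | four (a b c d : ℕ)

/-- the members of the relation -/
def Rl.lst (n : ℕ) : Rl → List ℕ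
  | .dist l x => ((List.range l).map fun a => n / l * a + x % (n / l)) ++
      [(n - l * (x % (n / l))) % n]
  | .four a b c d => [a, b, c, d]

/-- the relation is valid -/
def Rl.ok (n : ℕ) : Rl → Bool
  | .dist l _ => [2, 3, 5, 7, 11, 13].contains l && n % l == 0
  | .four a b c d => (List.range n).all (fun t => !(Nat.gcd t n == 1) ||
      (t * a % n + t * b % n + t * c % n + t * d % n == 2 * n)) &&
      !(a % n == 0) && !(b % n == 0) && !(c % n == 0) && !(d % n == 0)

/-- one step: all members of the relation but `c` are known to be zero -/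
def chk (n : ℕ) (K L : List ℕ) (c : ℕ) : Bool :=
  L.all (fun z => K.contains z || z == c || z == n - c) &&
    (L.count c == L.count (n - c) + 1) && Nat.blt c n && !(c == n - c)

/-- all steps -/
def run (n : ℕ) : List (Rl × ℕ) → List ℕ → Bool
  | [], K => (List.range n).all fun x => K.contains x
  | (r, c) :: S, K => r.ok n && chk n K (r.lst n) c && run n S (c :: (n - c) :: K)

/-- a certificate -/
def cert (n : ℕ) (E : List ℕ) (S : List (Rl × ℕ)) : Bool :=
  run n S (0 :: ((if n % 2 == 0 then [n / 2] else []) ++ (E ++ E.map fun x => n - x))) &&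
    (2 * E.length == ((List.range n).filter fun a => Nat.gcd n a == 1).length) &&
    E.all fun x => Nat.blt x n

section Sound

variable {n : ℕ} {W : Type} [AddCommGroup W]

theorem sum_count {g : ℕ → W} {K : List ℕ} {c d : ℕ} (hK : ∀ z ∈ K, g z = 0)
    (hd : g d = - g c) (hcd : c ≠ d) (L : List ℕ) (hL : ∀ z ∈ L, z ∈ K ∨ z = c ∨ z = d) :
    (L.map g).sum = (L.count c : ℤ) • g c - (L.count d : ℤ) • g c := by
  induction L with
  | nil => simp
  | cons z L ih =>
    rw [List.map_cons, List.sum_cons, ih fun y hy => hL y (List.mem_cons_of_mem _ hy)]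
    by_cases h1 : z = c
    · subst h1
      rw [List.count_cons_self, List.count_cons_of_ne hcd]
      push_cast
      rw [add_smul, one_smul]
      abel
    by_cases h2 : z = d
    · subst h2
      rw [List.count_cons_self, List.count_cons_of_ne h1, hd]
      push_cast
      rw [add_smul, one_smul]
      abel
    · have h3 : g z = 0 := by
        rcases hL z List.mem_cons_self with h | h | h
        · exact hK z h
        · exact absurd h h1
        · exact absurd h h2
      rw [List.count_cons_of_ne h1, List.count_cons_of_ne h2, h3, zero_add]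

theorem chk_sound {g : ℕ → W} {K L : List ℕ} {c : ℕ} (hK : ∀ z ∈ K, g z = 0)
    (hL : (L.map g).sum = 0) (hc : c < n → g (n - c) = - g c) (h : chk n K L c = true) :
    g c = 0 := by
  simp only [chk, Bool.and_eq_true, List.all_eq_true, Bool.or_eq_true, beq_iff_eq,
    List.contains_iff_mem, Bool.not_eq_true', beq_eq_false_iff_ne, Nat.blt_eq] at h
  obtain ⟨⟨⟨h1, h2⟩, h3⟩, h4⟩ := h
  have h5 := sum_count hK (hc h3) h4 L fun z hz => by
    rcases h1 z hz with (h | h) | h
    · exact Or.inl h
    · exact Or.inr (Or.inl h)
    · exact Or.inr (Or.inr h)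
  rw [hL, h2] at h5
  push_cast at h5
  rw [add_smul, one_smul, add_sub_cancel_left] at h5
  exact h5.symm

theorem cast_sub [NeZero n] {f : ZMod n → W} (hf : OddDist f) {c : ℕ} (h : c < n) :
    f ((n - c : ℕ) : ZMod n) = - f (c : ZMod n) := by
  rw [Nat.cast_sub h.le, ZMod.natCast_self, zero_sub, hf.odd]

theorem sum_list_range (l : ℕ) (g : ℕ → W) :
    ((List.range l).map g).sum = ∑ a ∈ range l, g a := by
  induction l with
  | zero => simp
  | succ l ih => rw [List.range_succ, List.map_append, List.sum_append, ih, sum_range_succ]; simp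

theorem dist_sound [NeZero n] {f : ZMod n → W} (hf : OddDist f) {l : ℕ} (hl : l.Prime)
    (hln : l ∣ n) (x : ℕ) :
    (((Rl.dist l x).lst n).map fun z : ℕ => f (z : ZMod n)).sum = 0 := by
  have hm : n = l * (n / l) := (Nat.mul_div_cancel' hln).symm
  have h1 := hf.dist l hl hln (x : ZMod n)
  rw [sum_fibre hm hl.pos] at h1
  have h2 : ((x : ZMod n)).val % (n / l) = x % (n / l) := by
    rw [ZMod.val_natCast, Nat.mod_mod_of_dvd x (Nat.div_dvd_of_dvd hln)]
  rw [h2] at h1
  have h3 : (((n - l * (x % (n / l))) % n : ℕ) : ZMod n) = -((l : ZMod n) * x) := by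
    have h4 : l * (x % (n / l)) ≤ n := by
      have h5 : x % (n / l) ≤ n / l := (Nat.mod_lt _ (Nat.div_pos (Nat.le_of_dvd (NeZero.pos n) hln)
        hl.pos)).le
      calc l * (x % (n / l)) ≤ l * (n / l) := Nat.mul_le_mul_left _ h5
        _ = n := hm.symm
    rw [ZMod.natCast_mod, Nat.cast_sub h4, ZMod.natCast_self, zero_sub]
    congr 1
    have h6 : ((l * (x % (n / l)) : ℕ) : ZMod n) = ((l * x : ℕ) : ZMod n) := by
      rw [ZMod.natCast_eq_natCast_iff]
      have h7 : x % (n / l) ≡ x [MOD (n / l)] := Nat.mod_modEq _ _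
      have h8 := Nat.ModEq.mul_left' l h7
      rwa [← hm] at h8
    rw [h6]
    push_cast
    rfl
  simp only [Rl.lst, List.map_append, List.map_map, List.map_cons, List.map_nil, List.sum_append,
    List.sum_cons, List.sum_nil, add_zero]
  rw [h3, hf.odd, ← h1]
  have h9 : (List.map ((fun z : ℕ => f (z : ZMod n)) ∘ fun a => n / l * a + x % (n / l))
      (List.range l)).sum = ∑ a ∈ range l, f ((n / l * a + x % (n / l) : ℕ) : ZMod n) :=
    sum_list_range l _
  rw [h9, add_neg_cancel]

theorem four_mem [NeZero n] {a b c d : ℕ} (h : (Rl.four a b c d).ok n = true) :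
    ({(a : ZMod n), (b : ZMod n), (c : ZMod n), (d : ZMod n)} : Multiset (ZMod n)) ∈ four n := by
  simp only [Rl.ok, Bool.and_eq_true, List.all_eq_true, Bool.or_eq_true, beq_iff_eq,
    Bool.not_eq_true', beq_eq_false_iff_ne, List.mem_range] at h
  obtain ⟨⟨⟨⟨h1, h2⟩, h3⟩, h4⟩, h5⟩ := h
  have hz : ∀ {x : ℕ}, x % n ≠ 0 → (0 : ZMod n) ≠ (x : ZMod n) := by
    intro x hx h0
    apply hx
    have h6 : (x : ZMod n) = 0 := h0.symm
    rw [ZMod.natCast_eq_zero_iff] at h6
    exact Nat.mod_eq_zero_of_dvd h6
  refine ⟨rfl, ?_, 2, rfl, fun t => ?_⟩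
  · intro h0
    simp only [Multiset.insert_eq_cons, Multiset.mem_cons, Multiset.mem_singleton] at h0
    rcases h0 with h0 | h0 | h0 | h0
    · exact hz h2 h0
    · exact hz h3 h0
    · exact hz h4 h0
    · exact hz h5 h0
  · have key : ∀ x : ℕ, ((t : ZMod n) * (x : ZMod n)).val = (t : ZMod n).val * x % n := by
      intro x
      rw [ZMod.val_mul, ZMod.val_natCast, Nat.mul_mod_mod]
    simp only [Multiset.insert_eq_cons, Multiset.map_cons, Multiset.map_singleton,
      Multiset.sum_cons, Multiset.sum_singleton, key]
    have h6 := h1 (t : ZMod n).val (ZMod.val_lt _)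
    rcases h6 with h6 | h6
    · exact absurd (ZMod.val_coe_unit_coprime t) h6
    · rw [← h6]
      ring

theorem prime_of_contains {l : ℕ} (h : [2, 3, 5, 7, 11, 13].contains l = true) : l.Prime := by
  rw [List.contains_iff_mem] at h
  simp only [List.mem_cons, List.not_mem_nil, or_false] at h
  rcases h with rfl | rfl | rfl | rfl | rfl | rfl <;> norm_num

theorem run_sound [NeZero n] {f : ZMod n → W} (hf : OddDist f)
    (h4 : ∀ u ∈ four n, (u.map f).sum = 0) (S : List (Rl × ℕ)) : ∀ K : List ℕ,
    (∀ z ∈ K, f (z : ZMod n) = 0) → run n S K = true → ∀ x, f x = 0 := by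
  induction S with
  | nil =>
    intro K hK h x
    simp only [run, List.all_eq_true, List.contains_iff_mem, List.mem_range] at h
    have h1 := hK _ (h x.val (ZMod.val_lt x))
    rwa [ZMod.natCast_zmod_val] at h1
  | cons s S ih =>
    obtain ⟨r, c⟩ := s
    intro K hK h
    simp only [run, Bool.and_eq_true] at h
    obtain ⟨⟨h1, h2⟩, h3⟩ := h
    have h5 : ((r.lst n).map fun z : ℕ => f (z : ZMod n)).sum = 0 := by
      cases r with
      | dist l x =>
        simp only [Rl.ok, Bool.and_eq_true, beq_iff_eq] at h1
        exact dist_sound hf (prime_of_contains h1.1) (Nat.dvd_of_mod_eq_zero h1.2) x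
      | four a b c d =>
        have h6 := h4 _ (four_mem h1)
        simpa [Rl.lst] using h6
    have hcn : c < n := by
      simp only [chk, Bool.and_eq_true, Nat.blt_eq] at h2
      exact h2.1.2
    have h6 : f (c : ZMod n) = 0 :=
      chk_sound (g := fun z : ℕ => f (z : ZMod n)) hK h5 (fun h => cast_sub hf h) h2
    refine ih _ (fun z hz => ?_) h3
    rcases List.mem_cons.1 hz with rfl | hz
    · exact h6
    rcases List.mem_cons.1 hz with rfl | hz
    · rw [cast_sub hf hcn, h6, neg_zero]
    · exact hK z hz

/-- `f (n / 2) = 0` -/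
theorem OddDist.half_eq [NeZero n] {f : ZMod n → W} (hf : OddDist f) (h : 2 ∣ n) :
    f ((n / 2 : ℕ) : ZMod n) = 0 := by
  have h1 := dist_sound hf Nat.prime_two h 0
  simp only [Rl.lst, Nat.zero_mod, mul_zero, tsub_zero, Nat.mod_self, List.map_append,
    List.map_map, List.map_cons, List.map_nil, List.sum_append, List.sum_cons, List.sum_nil,
    add_zero, List.range_succ, List.range_zero, List.nil_append, List.singleton_append,
    Function.comp_apply, mul_one, Nat.cast_zero, hf.zero, zero_add] at h1
  simpa using h1

end Sound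

theorem totient_list (n : ℕ) :
    ((List.range n).filter fun a => Nat.gcd n a == 1).length = Nat.totient n := by
  have h1 : Nat.totient n =
      ((List.range n).filter fun a => decide (n.Coprime a)).length := by
    rw [Nat.totient]
    rfl
  rw [h1]
  congr 1

theorem base_of_cert {n : ℕ} [NeZero n] (hn : 3 ≤ n) {E : List ℕ} {S : List (Rl × ℕ)}
    (h : cert n E S = true) {v : A n} (hv : bv v = 0) :
    v ∈ RelE n ⊔ AddSubgroup.closure (toA '' four n) := by
  classical
  simp only [cert, Bool.and_eq_true, beq_iff_eq, totient_list, List.all_eq_true, Nat.blt_eq] at h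
  obtain ⟨⟨h1, h2⟩, h3⟩ := h
  set F : Finset (ZMod n) := (E.map fun x : ℕ => (x : ZMod n)).toFinset with hF
  have hcard : F.card ≤ E.length := by
    refine (List.toFinset_card_le _).trans ?_
    rw [List.length_map]
  have hbv : ∀ w ∈ RelE n ⊔ AddSubgroup.closure (toA '' four n), bv w = 0 := by
    intro w hw
    have h5 : RelE n ⊔ AddSubgroup.closure (toA '' four n) ≤ (bv (m := n)).ker := by
      refine sup_le (fun x hx => RelE_bv hx) ?_
      rw [AddSubgroup.closure_le]
      rintro _ ⟨u, hu, rfl⟩
      exact (isHodge_iff_bv.1 hu.2).2.2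
    exact h5 hw
  obtain ⟨w, hw, hw2⟩ := indep_gen hn (RelE n ⊔ AddSubgroup.closure (toA '' four n)) ⊥ hbv
    (E.length - F.card) (by
      have : (bv '' ((⊥ : AddSubgroup (A n)) : Set (A n))) = {0} := by
        rw [AddSubgroup.coe_bot, Set.image_singleton, map_zero]
      rw [this, Submodule.span_singleton_eq_bot.2 rfl]
      simp) F (by omega) (fun x => by
      rw [sup_bot_eq]
      set R := AddSubgroup.closure (e '' (F : Set (ZMod n))) ⊔
        (RelE n ⊔ AddSubgroup.closure (toA '' four n)) with hR
      have hf := oddDist_mk (R := R) (le_sup_left.trans le_sup_right)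
      have h6 := run_sound hf (fun u hu => by
        have h7 : (u.map fun x : ZMod n => (QuotientAddGroup.mk (e x) : A n ⧸ R)).sum =
            (QuotientAddGroup.mk (toA u) : A n ⧸ R) := by
          have := (QuotientAddGroup.mk' R).map_multiset_sum (u.map e)
          rw [Multiset.map_map] at this
          exact this.symm
        rw [h7]
        rw [QuotientAddGroup.eq_zero_iff]
        exact (le_sup_right.trans le_sup_right : AddSubgroup.closure (toA '' four n) ≤ R)
          (AddSubgroup.subset_closure ⟨u, hu, rfl⟩)) S _ (fun z hz => by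
        have hE : ∀ y ∈ E, (QuotientAddGroup.mk (e (y : ZMod n)) : A n ⧸ R) = 0 := by
          intro y hy
          rw [QuotientAddGroup.eq_zero_iff]
          refine (le_sup_left : _ ≤ R) (AddSubgroup.subset_closure ⟨_, ?_, rfl⟩)
          rw [hF, List.coe_toFinset]
          exact List.mem_map.2 ⟨y, hy, rfl⟩
        rcases List.mem_cons.1 hz with rfl | hz
        · have := hf.zero
          simpa using this
        rcases List.mem_append.1 hz with hz | hz
        · split_ifs at hz with h7
          · rw [List.mem_singleton] at hz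
            subst hz
            exact hf.half_eq (Nat.dvd_of_mod_eq_zero h7)
          · simp at hz
        rcases List.mem_append.1 hz with hz | hz
        · exact hE z hz
        · obtain ⟨y, hy, rfl⟩ := List.mem_map.1 hz
          have := cast_sub hf (h3 y hy)
          rw [this, hE y hy, neg_zero]) h1 x
      rwa [QuotientAddGroup.eq_zero_iff] at h6) hv
  rw [AddSubgroup.mem_bot] at hw
  subst hw
  rwa [sub_zero] at hw2

end Pool.Agent.FermD
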