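import Pool.Agent.FermD.LiftA

/-!
# FD12: from the group to the multisets

* `isHodge_iff_bv`: `bt t (toA s) = ∑ c, (1/2 - (t c).val / m) = s.card / 2 - (∑ (t c).val) / m` if
  `0 ∉ s` (induction on `s` or `Multiset.induction_on`; `toA` is in `Stick/Conv.lean`).
* `IsHodge.neg`: `(t * (-c)).val = m - (t c).val` for `c ≠ 0`.
* `alg_isHodge`: induction. Sums and removal of `{c, -c}` are clear from
  `(t c).val + (t (-c)).val = m` for `c ≠ 0`; for `distSet` use `RelE_bv` and `isHodge_iff_bv` (it is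
  `toA (distSet m l x) ∈ RelE m`, `toA_distSet` in `Stick/Conv.lean`; parity as in `alg_even`, zero is not a
  member by `zero_notMem_distSet`).
* `alg_of_mem`: `RelE m ⊔ closure T' ` is the closure of `relP ∪ relDD ∪ relZ ∪ T'` (`T' = toA '' T`). Write
  `toA s = v' + a • e 0 + b • e (m / 2)` with `v'` in the closure of `relP ∪ relDD ∪ T'`; all elements of
  `relP`, `relDD`, `T'` vanish at `0` and have an even `cnt` (`relD_zero`, `even_cnt_relA`), so
  `a = (toA s) 0 = 0`, and `b` is even; `2 • e (m / 2)` is the pair of `m / 2 = -(m / 2)`. So `toA s` is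
  in the closure of `relP ∪ relDD ∪ T'`, and `of_mem_closure` (`Stick/Gen4.lean`) for `𝒜 = Alg T`
  (negatives: `distSet_neg`; compare `algG_neg`, `exists_relP`, `exists_relDD`).
* `alg_mono`: induction.
-/

set_option autoImplicit false

namespace Pool.Agent.FermD

open Finset Pool.Stick Pool.Agent.StarkRQ

variable {m n : ℕ} [NeZero m] [NeZero n]

private theorem bt_toA (t : (ZMod m)ˣ) {s : Multiset (ZMod m)} (h0 : (0 : ZMod m) ∉ s) :
    bt t (toA s) = s.card / 2 -
      (((s.map fun c => ((t : ZMod m) * c).val).sum : ℕ) : ℝ) / m := by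
  induction s using Multiset.induction_on with
  | empty => simp [toA_zero]
  | cons c s ih =>
    rw [Multiset.mem_cons, not_or] at h0
    rw [toA_cons, map_add, ih h0.2, bt_e, if_neg (Ne.symm h0.1), Multiset.card_cons,
      Multiset.map_cons, Multiset.sum_cons]
    unfold Pool.Agent.StarkRQ.hh
    push_cast
    ring

private theorem bt_e_neg (t : (ZMod m)ˣ) (c : ZMod m) : bt t (e (-c)) = - bt t (e c) := by
  rw [bt_e, bt_e]
  by_cases hc : c = 0
  · subst hc
    simp
  · rw [if_neg (neg_ne_zero.2 hc), if_neg hc, mul_neg, hh_neg (unit_mul_ne_zero t hc)]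

theorem isHodge_iff_bv {s : Multiset (ZMod m)} :
    IsHodge s ↔ (0 : ZMod m) ∉ s ∧ Even s.card ∧ bv (toA s) = 0 := by
  have hm : (m : ℝ) ≠ 0 := by exact_mod_cast NeZero.ne m
  constructor
  · rintro ⟨h0, r, hr, h⟩
    refine ⟨h0, ⟨r, by omega⟩, ?_⟩
    funext t
    rw [bv_apply, bt_toA t h0, h t, hr]
    push_cast
    rw [Pi.zero_apply]
    field_simp
    ring
  · rintro ⟨h0, ⟨r, hr⟩, h⟩
    refine ⟨h0, r, by omega, fun t => ?_⟩
    have h1 := congrFun h t
    rw [bv_apply, bt_toA t h0, hr, Pi.zero_apply] at h1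
    push_cast at h1
    field_simp at h1
    have h2 : (((s.map fun c => ((t : ZMod m) * c).val).sum : ℕ) : ℝ) = ((r * m : ℕ) : ℝ) := by
      push_cast
      linarith
    exact_mod_cast h2

private theorem bv_neg (s : Multiset (ZMod m)) :
    bv (toA (s.map Neg.neg)) = - bv (toA s) := by
  induction s using Multiset.induction_on with
  | empty => simp [toA_zero]
  | cons c s ih =>
    rw [Multiset.map_cons, toA_cons, toA_cons, map_add, map_add, ih, neg_add]
    congr 1
    funext t
    rw [Pi.neg_apply, bv_apply, bv_apply, bt_e_neg]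

theorem IsHodge.neg {s : Multiset (ZMod m)} (hs : IsHodge s) : IsHodge (s.map Neg.neg) := by
  rw [isHodge_iff_bv] at hs ⊢
  refine ⟨?_, by rw [Multiset.card_map]; exact hs.2.1, by rw [bv_neg, hs.2.2, neg_zero]⟩
  intro h
  obtain ⟨c, hc, h1⟩ := Multiset.mem_map.1 h
  rw [neg_eq_zero] at h1
  exact hs.1 (h1 ▸ hc)

private theorem bv_pair (c : ZMod m) : bv (toA ({c, -c} : Multiset (ZMod m))) = 0 := by
  rw [Multiset.insert_eq_cons, toA_cons, toA_singleton, map_add]
  funext t
  rw [Pi.add_apply, bv_apply, bv_apply, bt_e_neg, Pi.zero_apply, add_neg_cancel]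

private theorem isHodge_pair {c : ZMod m} (hc : c ≠ 0) :
    IsHodge ({c, -c} : Multiset (ZMod m)) := by
  rw [isHodge_iff_bv]
  refine ⟨?_, ⟨1, rfl⟩, bv_pair c⟩
  simp [hc, hc.symm]

private theorem isHodge_dist {l : ℕ} {x : ZMod m} (hl : l.Prime) (hlm : l ∣ m)
    (hx : (l : ZMod m) * x ≠ 0) : IsHodge (distSet m l x) := by
  rw [isHodge_iff_bv]
  refine ⟨zero_notMem_distSet hlm hx, ?_, ?_⟩
  · have h1 : toA (distSet m l x) ∈ RelA m 1 :=
      AddSubgroup.subset_closure (Or.inl (Or.inr ⟨l, hl, hlm, toA_distSet l x hx⟩))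
    have h2 := even_cnt_relA h1
    rw [cnt_toA] at h2
    exact_mod_cast h2
  · exact RelE_bv (AddSubgroup.subset_closure
      (Or.inl (Or.inr ⟨l, hl, hlm, toA_distSet l x hx⟩)))

theorem alg_isHodge {T : Set (Multiset (ZMod m))} (hT : ∀ u ∈ T, IsHodge u)
    {s : Multiset (ZMod m)} (hs : Alg T s) : IsHodge s := by
  induction hs with
  | zero => exact ⟨Multiset.notMem_zero _, 0, by simp, by simp⟩
  | add _ _ h1 h2 =>
    rw [isHodge_iff_bv] at h1 h2 ⊢
    refine ⟨?_, ?_, ?_⟩
    · rw [Multiset.mem_add, not_or]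
      exact ⟨h1.1, h2.1⟩
    · rw [Multiset.card_add]
      exact h1.2.1.add h2.2.1
    · rw [toA_add, map_add, h1.2.2, h2.2.2, add_zero]
  | cancel c hc _ h =>
    rw [isHodge_iff_bv] at h ⊢
    obtain ⟨h1, h2, h3⟩ := h
    refine ⟨?_, ?_, ?_⟩
    · rw [Multiset.mem_add, not_or] at h1
      exact h1.1
    · rw [Multiset.card_add] at h2
      have h4 : Multiset.card ({c, -c} : Multiset (ZMod m)) = 2 := rfl
      rw [h4] at h2
      exact (Nat.even_add.1 h2).2 (by decide)
    · rw [toA_add, map_add, bv_pair, add_zero] at h3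
      exact h3
  | pair c hc => exact isHodge_pair hc
  | dist l x hl hlm hx => exact isHodge_dist hl hlm hx
  | base h => exact hT _ h

private theorem alg_neg {T : Set (Multiset (ZMod m))} (hneg : ∀ u ∈ T, u.map Neg.neg ∈ T)
    {s : Multiset (ZMod m)} (hs : Alg T s) : Alg T (s.map Neg.neg) := by
  induction hs with
  | zero => exact Alg.zero
  | add _ _ h1 h2 => rw [Multiset.map_add]; exact Alg.add h1 h2
  | cancel c hc _ h =>
    refine Alg.cancel (-c) (neg_ne_zero.2 hc) ?_
    rw [Multiset.map_add] at h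
    simpa using h
  | pair c hc =>
    have := Alg.pair (T := T) (-c) (neg_ne_zero.2 hc)
    simpa using this
  | dist l x hl hlm hx =>
    rw [distSet_neg l x hlm]
    exact Alg.dist l (-x) hl hlm (by rw [mul_neg]; exact neg_ne_zero.2 hx)
  | base h => exact Alg.base (hneg _ h)

omit [NeZero m] in
private theorem neg_half (h2 : 2 ∣ m) : -((m / 2 : ℕ) : ZMod m) = ((m / 2 : ℕ) : ZMod m) := by
  rw [neg_eq_iff_add_eq_zero, ← Nat.cast_add, ZMod.natCast_eq_zero_iff]
  exact ⟨1, by omega⟩

omit [NeZero m] in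
private theorem e_zero_ne {x : ZMod m} (hx : x ≠ 0) : (e x : A m) 0 = 0 := by
  rw [e, Finsupp.single_apply, if_neg hx]

omit [NeZero m] in
/-- the elements of the closure of `relZ` -/
private theorem mem_relZ {w : A m} (hw : w ∈ AddSubgroup.closure (relZ m)) :
    ∃ a b : ℤ, w = a • e 0 + b • e ((m / 2 : ℕ) : ZMod m) ∧ (b = 0 ∨ 2 ∣ m) := by
  induction hw using AddSubgroup.closure_induction with
  | mem x hx =>
    rcases hx with rfl | ⟨h2, rfl⟩
    · exact ⟨1, 0, by rw [one_smul, zero_smul, add_zero], Or.inl rfl⟩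
    · exact ⟨0, 1, by rw [one_smul, zero_smul, zero_add], Or.inr h2⟩
  | zero => exact ⟨0, 0, by rw [zero_smul, zero_smul, add_zero], Or.inl rfl⟩
  | add x y _ _ hx hy =>
    obtain ⟨a, b, rfl, h⟩ := hx
    obtain ⟨a', b', rfl, h'⟩ := hy
    refine ⟨a + a', b + b', by rw [add_smul, add_smul]; abel, ?_⟩
    rcases h with h | h
    · rcases h' with h' | h'
      · exact Or.inl (by rw [h, h', add_zero])
      · exact Or.inr h'
    · exact Or.inr h
  | neg x _ hx =>
    obtain ⟨a, b, rfl, h⟩ := hx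
    refine ⟨-a, -b, by rw [neg_smul, neg_smul]; abel, ?_⟩
    rcases h with h | h
    · exact Or.inl (by rw [h, neg_zero])
    · exact Or.inr h

theorem alg_of_mem {T : Set (Multiset (ZMod m))} (hT : ∀ u ∈ T, IsHodge u)
    (hneg : ∀ u ∈ T, u.map Neg.neg ∈ T) {s : Multiset (ZMod m)} (h0 : (0 : ZMod m) ∉ s)
    (heven : Even s.card) (hs : toA s ∈ RelE m ⊔ AddSubgroup.closure (toA '' T)) : Alg T s := by
  set S : Set (A m) := relP m ∪ relDD m ∪ toA '' T with hS
  -- the elements of the closure of `S`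
  have hval : ∀ v ∈ AddSubgroup.closure S, v 0 = 0 ∧ Even (Pool.Stick.cnt v) := by
    intro v hv
    induction hv using AddSubgroup.closure_induction with
    | mem x hx =>
      rcases hx with (hx | hx) | ⟨u, hu, rfl⟩
      · have h1 : Even (Pool.Stick.cnt x) :=
          even_cnt_relA (p := 1) (AddSubgroup.subset_closure (Or.inl (Or.inl hx)))
        obtain ⟨c, hc, rfl⟩ := hx
        refine ⟨?_, h1⟩
        rw [Finsupp.add_apply, e_zero_ne hc, e_zero_ne (neg_ne_zero.2 hc), add_zero]
      · have h1 : Even (Pool.Stick.cnt x) :=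
          even_cnt_relA (p := 1) (AddSubgroup.subset_closure (Or.inl (Or.inr hx)))
        obtain ⟨l, hl, hlm, hx⟩ := hx
        exact ⟨relD_zero hlm hx, h1⟩
      · have h1 := isHodge_iff_bv.1 (hT u hu)
        rw [toA_apply, cnt_toA, Multiset.count_eq_zero_of_notMem h1.1]
        exact ⟨rfl, by exact_mod_cast h1.2.1⟩
    | zero => exact ⟨rfl, by rw [map_zero]; exact ⟨0, rfl⟩⟩
    | add x y _ _ hx hy =>
      refine ⟨by rw [Finsupp.add_apply, hx.1, hy.1, add_zero], ?_⟩
      rw [map_add]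
      exact hx.2.add hy.2
    | neg x _ hx =>
      refine ⟨by rw [Finsupp.neg_apply, hx.1, neg_zero], ?_⟩
      rw [map_neg]
      exact hx.2.neg
  -- decomposition
  have h1 : RelE m ⊔ AddSubgroup.closure (toA '' T) ≤
      AddSubgroup.closure S ⊔ AddSubgroup.closure (relZ m) := by
    rw [RelE, ← AddSubgroup.closure_union, ← AddSubgroup.closure_union]
    apply AddSubgroup.closure_mono
    rintro x ((hx | hx) | hx)
    · exact Or.inl (Or.inl hx)
    · exact Or.inr hx
    · exact Or.inl (Or.inr hx)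
  obtain ⟨v, hv, w, hw, hvw⟩ := AddSubgroup.mem_sup.1 (h1 hs)
  obtain ⟨a, b, rfl, hb⟩ := mem_relZ hw
  obtain ⟨hv0, hvc⟩ := hval v hv
  have h2 : a = 0 := by
    have h3 := DFunLike.congr_fun hvw 0
    rw [toA_apply, Multiset.count_eq_zero_of_notMem h0, Finsupp.add_apply, hv0, zero_add,
      Finsupp.add_apply, Finsupp.smul_apply, Finsupp.smul_apply] at h3
    have h4 : (e (0 : ZMod m) : A m) 0 = 1 := by rw [e, Finsupp.single_apply, if_pos rfl]
    rw [h4, smul_eq_mul, mul_one] at h3
    rcases hb with hb | hb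
    · rw [hb, zero_smul, add_zero] at h3
      exact h3
    · rw [e_zero_ne (half_ne_zero hb), smul_zero, add_zero] at h3
      exact h3
  subst h2
  rw [zero_smul, zero_add] at hvw
  have h3 : Even b := by
    have h4 := congrArg Pool.Stick.cnt hvw
    rw [cnt_toA, map_add, map_zsmul, cnt_e, smul_eq_mul, mul_one] at h4
    have h5 : Even ((s.card : ℕ) : ℤ) := by exact_mod_cast heven
    rw [← h4] at h5
    exact (Int.even_add.1 h5).1 hvc
  have h4 : toA s ∈ AddSubgroup.closure S := by
    rw [← hvw]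
    refine add_mem hv ?_
    obtain ⟨c, hc⟩ := h3
    rcases hb with hb | hb
    · rw [hb, zero_smul]
      exact zero_mem _
    · have h5 : b • e ((m / 2 : ℕ) : ZMod m) = c • (e ((m / 2 : ℕ) : ZMod m) +
          e (-((m / 2 : ℕ) : ZMod m))) := by
        rw [neg_half hb, hc, add_smul, smul_add]
      have h6 : e ((m / 2 : ℕ) : ZMod m) + e (-((m / 2 : ℕ) : ZMod m)) ∈
          AddSubgroup.closure S :=
        AddSubgroup.subset_closure (Or.inl (Or.inl ⟨_, half_ne_zero hb, rfl⟩))
      rw [h5]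
      exact AddSubgroup.zsmul_mem _ h6 c
  refine of_mem_closure Alg.zero (fun _ _ => Alg.add) (fun _ c => Alg.cancel c)
    (fun _ => alg_neg hneg) (fun _ h => (alg_isHodge hT h).1) ?_ h4
  rintro x ((⟨c, hc, rfl⟩ | ⟨l, hl, hlm, y, hy, rfl⟩) | ⟨u, hu, rfl⟩)
  · refine ⟨{c, -c}, Alg.pair c hc, ?_⟩
    rw [Multiset.insert_eq_cons, toA_cons, toA_singleton]
  · refine ⟨distSet m l y, Alg.dist l y hl hlm hy, ?_⟩
    unfold distSet
    rw [toA_add, toA_add, toA_singleton]
    congr 1
    split_ifs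
    · rw [toA_singleton]
    · rw [toA_zero]
  · exact ⟨u, Alg.base hu, rfl⟩

/-- a class of multisets which contains the generators -/
theorem alg_mono {T T' : Set (Multiset (ZMod m))} (h : ∀ u ∈ T, Alg T' u)
    {s : Multiset (ZMod m)} (hs : Alg T s) : Alg T' s := by
  induction hs with
  | zero => exact Alg.zero
  | add _ _ h1 h2 => exact Alg.add h1 h2
  | cancel c hc _ h => exact Alg.cancel c hc h
  | pair c hc => exact Alg.pair c hc
  | dist l x hl hlm hx => exact Alg.dist l x hl hlm hx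
  | base hu => exact h _ hu

end Pool.Agent.FermD
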