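import Pool.Agent.FermD.Conv

/-!
# FD13: the classes of level `n` in level `m`

* `lifts_isHodge`: `((t : ZMod m) * mulD m n c).val = m / n * ((t mod n) * c).val` (`mul_mulD`, `mulD_val`),
  `m / n * n = m`, `mulD m n c ≠ 0` for `c ≠ 0` (`mulD_inj`, `mulD_zero`).
* `lifts_neg`: `mulD_neg`, `IsHodge.neg`.
* `alg_map`: induction. `dist`: `mulD_distSet`, `l * mulD m n x = mulD m n (l * x) ≠ 0` (natural multiples:
  `mulD m n` is additive, or compare values). `base`: the image of a Hodge class with four elements has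
  four elements and is a Hodge class (`lifts_isHodge`).
* `exists_multiset`: let `w : A n` with `bv w = 0`. Add to `w` pairs `e c + e (-c)`, `c ≠ 0`, and multiples of
  `e 0` (all in `RelE n`, and `bv` is zero there by `RelE_bv`) to get `w' = toA s`, `0 ∉ s`. If `s.card` is odd
  then `n` is even, because `bt 1 (toA s) = s.card / 2 - (∑ c.val) / n = 0` gives `n * s.card = 2 * ∑ c.val`, and
  add the element `n / 2` (in `RelE n`) to `s`. So `w - toA s ∈ RelE n` with a Hodge class `s`
  (`isHodge_iff_bv`). Apply `Lf m n`: `Lf_RelE`, `Lf m n (toA s) = toA (s.map (mulD m n))`.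
-/

set_option autoImplicit false

namespace Pool.Agent.FermD

open Finset Pool.Stick Pool.Agent.StarkRQ

variable {m n : ℕ} [NeZero m] [NeZero n]

private theorem mulD_ne_zero (h : n ∣ m) {c : ZMod n} (hc : c ≠ 0) : mulD m n c ≠ 0 := by
  intro h0
  apply hc
  apply mulD_inj h
  rw [h0, mulD_zero]

theorem lifts_isHodge (h : n ∣ m) {u : Multiset (ZMod m)} (hu : u ∈ lifts m n) : IsHodge u := by
  obtain ⟨v, ⟨h0, r, hr, hs⟩, rfl⟩ := hu
  refine ⟨?_, r, by rw [Multiset.card_map, hr], fun t => ?_⟩
  · intro hmem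
    obtain ⟨c, hc, hc0⟩ := Multiset.mem_map.1 hmem
    refine mulD_ne_zero h (c := c) ?_ hc0
    rintro rfl
    exact h0 hc
  · rw [Multiset.map_map]
    have h1 : (v.map ((fun c => ((t : ZMod m) * c).val) ∘ mulD m n)).sum =
        (v.map fun c => m / n * (((ZMod.unitsMap h t : (ZMod n)ˣ) : ZMod n) * c).val).sum := by
      congr 1
      refine Multiset.map_congr rfl fun c _ => ?_
      rw [Function.comp_apply, mul_mulD h, mulD_val h]
    rw [h1, Multiset.sum_map_mul_left, hs]
    obtain ⟨k, rfl⟩ := h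
    rw [Nat.mul_div_cancel_left _ (NeZero.pos n)]
    ring

theorem lifts_neg (h : n ∣ m) {u : Multiset (ZMod m)} (hu : u ∈ lifts m n) :
    u.map Neg.neg ∈ lifts m n := by
  obtain ⟨v, hv, rfl⟩ := hu
  refine ⟨v.map Neg.neg, hv.neg, ?_⟩
  rw [Multiset.map_map, Multiset.map_map]
  refine Multiset.map_congr rfl fun c _ => ?_
  rw [Function.comp_apply, Function.comp_apply, mulD_neg h]

/-- the image of a Hodge class of level `n` -/
theorem alg_map (h : n ∣ m) {s : Multiset (ZMod n)} (hs : Alg (four n) s) :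
    Alg (four m) (s.map (mulD m n)) := by
  have hp : ∀ c : ZMod n, ({c, -c} : Multiset (ZMod n)).map (mulD m n) =
      {mulD m n c, -(mulD m n c)} := by
    intro c
    rw [Multiset.insert_eq_cons, Multiset.map_cons, Multiset.map_singleton, mulD_neg h]
    rfl
  induction hs with
  | zero => exact Alg.zero
  | add _ _ h1 h2 =>
    rw [Multiset.map_add]
    exact h1.add h2
  | cancel c hc _ h1 =>
    rw [Multiset.map_add, hp] at h1
    exact Alg.cancel _ (mulD_ne_zero h hc) h1
  | pair c hc =>
    rw [hp]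
    exact Alg.pair _ (mulD_ne_zero h hc)
  | dist l x hl hln hx =>
    rw [mulD_distSet h hl hln]
    refine Alg.dist l _ hl (hln.trans h) fun h0 => hx ?_
    have h1 : (l : ZMod m) * mulD m n x = ((l * (m / n * x.val) : ℕ) : ZMod m) := by
      unfold mulD
      push_cast
      ring
    rw [h1, ZMod.natCast_eq_zero_iff] at h0
    have h2 : (l : ZMod n) * x = ((l * x.val : ℕ) : ZMod n) := by
      push_cast
      rw [ZMod.natCast_zmod_val]
    rw [h2, ZMod.natCast_eq_zero_iff]
    obtain ⟨k, rfl⟩ := h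
    have hk : 0 < k := Nat.pos_of_ne_zero fun hk => NeZero.ne (n * k) (by rw [hk, mul_zero])
    rw [Nat.mul_div_cancel_left _ (NeZero.pos n), mul_comm n k, mul_left_comm] at h0
    exact Nat.dvd_of_mul_dvd_mul_left hk h0
  | base hs =>
    exact Alg.base ⟨by rw [Multiset.card_map, hs.1], lifts_isHodge h ⟨_, hs.2, rfl⟩⟩

/-- every element is, modulo the relations, a multiset of nonzero elements -/
private theorem exists_toA (w : A n) :
    ∃ s : Multiset (ZMod n), (0 : ZMod n) ∉ s ∧ w - toA s ∈ RelE n := by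
  have hadd : ∀ w w' : A n, (∃ s : Multiset (ZMod n), (0 : ZMod n) ∉ s ∧ w - toA s ∈ RelE n) →
      (∃ s : Multiset (ZMod n), (0 : ZMod n) ∉ s ∧ w' - toA s ∈ RelE n) →
      ∃ s : Multiset (ZMod n), (0 : ZMod n) ∉ s ∧ w + w' - toA s ∈ RelE n := by
    rintro w w' ⟨s, hs, h⟩ ⟨s', hs', h'⟩
    refine ⟨s + s', fun h0 => (Multiset.mem_add.1 h0).elim hs hs', ?_⟩
    rw [toA_add]
    have : w + w' - (toA s + toA s') = (w - toA s) + (w' - toA s') := by abel
    rw [this]
    exact add_mem h h'
  have hz : ∃ s : Multiset (ZMod n), (0 : ZMod n) ∉ s ∧ (0 : A n) - toA s ∈ RelE n :=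
    ⟨0, by simp, by rw [toA_zero, sub_zero]; exact zero_mem _⟩
  have he0 : (e 0 : A n) ∈ RelE n := AddSubgroup.subset_closure (Or.inr (Or.inl rfl))
  have he : ∀ x : ZMod n, ∃ s : Multiset (ZMod n), (0 : ZMod n) ∉ s ∧
      (e x : A n) - toA s ∈ RelE n := by
    intro x
    by_cases hx : x = 0
    · refine ⟨0, by simp, ?_⟩
      rw [toA_zero, sub_zero, hx]
      exact he0
    · refine ⟨{x}, fun h0 => hx (Multiset.mem_singleton.1 h0).symm, ?_⟩
      rw [toA_singleton, sub_self]
      exact zero_mem _
  have hen : ∀ x : ZMod n, ∃ s : Multiset (ZMod n), (0 : ZMod n) ∉ s ∧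
      -(e x : A n) - toA s ∈ RelE n := by
    intro x
    by_cases hx : x = 0
    · refine ⟨0, by simp, ?_⟩
      rw [toA_zero, sub_zero, hx]
      exact neg_mem he0
    · refine ⟨{-x}, fun h0 => hx ?_, ?_⟩
      · have h1 := (Multiset.mem_singleton.1 h0).symm
        rwa [neg_eq_zero] at h1
      · rw [toA_singleton]
        have : -(e x : A n) - e (-x) = -(e x + e (-x)) := by abel
        rw [this]
        exact neg_mem (AddSubgroup.subset_closure (Or.inl (Or.inl ⟨x, hx, rfl⟩)))
  induction w using Finsupp.induction_linear with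
  | zero => exact hz
  | add f g hf hg => exact hadd f g hf hg
  | single x a =>
    have h1 : (Finsupp.single x a : A n) = a • e x := by
      rw [e, Finsupp.smul_single, smul_eq_mul, mul_one]
    rw [h1]
    induction a using Int.induction_on with
    | zero =>
      rw [zero_smul]
      exact hz
    | succ i ih =>
      rw [add_smul, one_smul]
      exact hadd _ _ (ih (by rw [e, Finsupp.smul_single, smul_eq_mul, mul_one])) (he x)
    | pred i ih =>
      rw [sub_smul, one_smul, sub_eq_add_neg]
      exact hadd _ _ (ih (by rw [e, Finsupp.smul_single, smul_eq_mul, mul_one])) (hen x)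

omit [NeZero m] [NeZero n] in
private theorem Lf_toA (s : Multiset (ZMod n)) : Lf m n (toA s) = toA (s.map (mulD m n)) := by
  rw [toA, map_multiset_sum, Multiset.map_map, toA, Multiset.map_map]
  congr 1
  exact Multiset.map_congr rfl fun c _ => Lf_e m n c

/-- every element of the kernel is a difference of multisets -/
theorem exists_multiset (h : n ∣ m) {w : A n} (hw : bv w = 0) :
    Lf m n w ∈ RelE m ⊔ AddSubgroup.closure (toA '' lifts m n) := by
  obtain ⟨s, h0, heven, hs⟩ : ∃ s : Multiset (ZMod n), (0 : ZMod n) ∉ s ∧ Even s.card ∧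
      w - toA s ∈ RelE n := by
    obtain ⟨s, h0, hs⟩ := exists_toA w
    rcases Nat.even_or_odd s.card with he | ho
    · exact ⟨s, h0, he, hs⟩
    · have hb : bv (toA s) = 0 := by
        have h1 := RelE_bv hs
        rw [map_sub, hw, zero_sub, neg_eq_zero] at h1
        exact h1
      have hH : IsHodge (s + s) := by
        rw [isHodge_iff_bv]
        refine ⟨fun h1 => (Multiset.mem_add.1 h1).elim h0 h0, ⟨s.card, Multiset.card_add s s⟩, ?_⟩
        rw [toA_add, map_add, hb, add_zero]
      obtain ⟨-, r, hr, hsum⟩ := hH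
      have h1 := hsum 1
      rw [Multiset.map_add, Multiset.sum_add, ← two_mul] at h1
      rw [Multiset.card_add] at hr
      have hr' : r = s.card := by omega
      have h2 : 2 ∣ n := by
        have h3 : 2 ∣ r * n := ⟨_, h1.symm⟩
        refine ((Nat.prime_two.dvd_mul).1 h3).resolve_left ?_
        rw [hr', ← even_iff_two_dvd, Nat.not_even_iff_odd]
        exact ho
      have hn := NeZero.pos n
      have h3 : ((n / 2 : ℕ) : ZMod n) ≠ 0 := by
        rw [Ne, ZMod.natCast_eq_zero_iff]
        intro h4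
        have := Nat.le_of_dvd (by omega) h4
        omega
      refine ⟨((n / 2 : ℕ) : ZMod n) ::ₘ s, ?_, ?_, ?_⟩
      · rw [Multiset.mem_cons, not_or]
        exact ⟨fun h4 => h3 h4.symm, h0⟩
      · rw [Multiset.card_cons]
        exact ho.add_one
      · rw [toA_cons]
        have : w - (e ((n / 2 : ℕ) : ZMod n) + toA s) =
            (w - toA s) + -e ((n / 2 : ℕ) : ZMod n) := by abel
        rw [this]
        exact add_mem hs (neg_mem (AddSubgroup.subset_closure (Or.inr (Or.inr ⟨h2, rfl⟩))))
  have hH : IsHodge s := by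
    rw [isHodge_iff_bv]
    refine ⟨h0, heven, ?_⟩
    have h1 := RelE_bv hs
    rw [map_sub, hw, zero_sub, neg_eq_zero] at h1
    exact h1
  have h1 : Lf m n w = Lf m n (w - toA s) + toA (s.map (mulD m n)) := by
    rw [map_sub, Lf_toA, sub_add_cancel]
  rw [h1]
  exact add_mem (AddSubgroup.mem_sup_left (Lf_RelE h hs))
    (AddSubgroup.mem_sup_right (AddSubgroup.subset_closure ⟨_, ⟨s, hH, rfl⟩, rfl⟩))

end Pool.Agent.FermD
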