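import Pool.Agent.Stick.AlgDef

/-!
# Hodge classes on Fermat varieties: the definitions of the statement

The primitive cohomology of the Fermat variety of degree `m` and dimension `n` is a sum of lines
`V(s)`, `s` a family of `n + 2` nonzero elements of `ZMod m` with sum zero.
-/

set_option autoImplicit false

namespace Pool.Agent.FermD

open Pool.Stick

/-- The line `V(s)` consists of Hodge classes (Shioda): `s` has `2 r` elements, all different from
zero, and the sum of the fractional parts `⟨t c / m⟩`, `c ∈ s`, is `r` for all `t` prime to `m`. -/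
def IsHodge {m : ℕ} [NeZero m] (s : Multiset (ZMod m)) : Prop :=
  (0 : ZMod m) ∉ s ∧ ∃ r : ℕ, s.card = 2 * r ∧
    ∀ t : (ZMod m)ˣ, (s.map fun c => ((t : ZMod m) * c).val).sum = r * m

/-- `Alg T s`: the line `V(s)` is spanned by the class of an algebraic cycle which is obtained from
linear subspaces, Aoki's cycles and cycles with the classes `V(u)`, `u ∈ T`, by the inductive
structure of Shioda and Katsura. -/
inductive Alg {m : ℕ} [NeZero m] (T : Set (Multiset (ZMod m))) : Multiset (ZMod m) → Prop
  /-- the empty multiset -/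
  | zero : Alg T 0
  /-- joins -/
  | add {s t : Multiset (ZMod m)} : Alg T s → Alg T t → Alg T (s + t)
  /-- removal of a pair `c, -c` -/
  | cancel {s : Multiset (ZMod m)} (c : ZMod m) : c ≠ 0 → Alg T (s + {c, -c}) → Alg T s
  /-- linear subspaces -/
  | pair (c : ZMod m) : c ≠ 0 → Alg T {c, -c}
  /-- Aoki's cycles -/
  | dist (l : ℕ) (x : ZMod m) : l.Prime → l ∣ m → (l : ZMod m) * x ≠ 0 → Alg T (distSet m l x)
  /-- the given classes -/
  | base {s : Multiset (ZMod m)} : s ∈ T → Alg T s

/-- The Hodge classes on the Fermat surface. -/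
def four (m : ℕ) [NeZero m] : Set (Multiset (ZMod m)) := {s | s.card = 4 ∧ IsHodge s}

/-- multiplication by `m / n` from `ZMod n` to `ZMod m`, for `n ∣ m` -/
def mulD (m n : ℕ) (x : ZMod n) : ZMod m := ((m / n * x.val : ℕ) : ZMod m)

/-- The Hodge classes which come from the Fermat varieties of degree `n`. -/
def lifts (m n : ℕ) [NeZero n] : Set (Multiset (ZMod m)) :=
  {s | ∃ u : Multiset (ZMod n), IsHodge u ∧ s = u.map (mulD m n)}

/-- The product of the primes which divide `m`, with `4` instead of `2` if `4 ∣ m`. -/
def red (m : ℕ) : ℕ := (∏ p ∈ m.primeFactors, p) * if 4 ∣ m then 2 else 1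

instance (m : ℕ) : NeZero (red m) := by
  refine ⟨mul_ne_zero (Finset.prod_ne_zero_iff.2 fun p hp => ?_) ?_⟩
  · exact (Nat.prime_of_mem_primeFactors hp).ne_zero
  · split_ifs <;> norm_num

end Pool.Agent.FermD
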