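import Pool.Agent.Stick.Gen4
import Pool.Agent.FermD.Stat

/-!
# Hodge classes on Fermat varieties: definitions for the proof
-/

set_option autoImplicit false

namespace Pool.Agent.FermD

open Finset Pool.Stick Pool.Agent.StarkRQ

/-! ### The group of relations -/

section Group

variable {m : ℕ} [NeZero m]

/-- the functional `x ↦ 1/2 - ⟨t x / m⟩` for `x ≠ 0`, `0 ↦ 0` -/
noncomputable def bt (t : (ZMod m)ˣ) : A m →+ ℝ :=
  ext fun x => if x = 0 then 0 else hh m ((t : ZMod m) * x)

theorem bt_e (t : (ZMod m)ˣ) (x : ZMod m) :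
    bt t (e x) = if x = 0 then 0 else hh m ((t : ZMod m) * x) := ext_e _ _

/-- all values of the functionals -/
noncomputable def bv : A m →+ ((ZMod m)ˣ → ℝ) where
  toFun v t := bt t v
  map_zero' := by
    funext t
    simp
  map_add' v w := by
    funext t
    simp

@[simp] theorem bv_apply (v : A m) (t : (ZMod m)ˣ) : bv v t = bt t v := rfl

/-- the elements `0` and `m / 2` -/
def relZ (m : ℕ) : Set (A m) := {v | v = e 0 ∨ (2 ∣ m ∧ v = e ((m / 2 : ℕ) : ZMod m))}

/-- the pairs, the distribution relations, and the elements `0` and `m / 2` -/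
noncomputable def RelE (m : ℕ) [NeZero m] : AddSubgroup (A m) :=
  AddSubgroup.closure (relP m ∪ relDD m ∪ relZ m)

/-- multiplication by `m / n` -/
noncomputable def Lf (m n : ℕ) : A n →+ A m := ext fun x => e (mulD m n x)

theorem Lf_e (m n : ℕ) (x : ZMod n) : Lf m n (e x) = e (mulD m n x) := ext_e _ _

end Group

/-! ### Odd distributions -/

/-- An odd function with `f (l x) = ∑ f z` over all `z` with `l z = l x`, for the primes `l ∣ m`. -/
structure OddDist {m : ℕ} [NeZero m] {W : Type} [AddCommGroup W] (f : ZMod m → W) : Prop where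
  zero : f 0 = 0
  odd : ∀ x, f (-x) = - f x
  dist : ∀ l : ℕ, l.Prime → l ∣ m → ∀ x : ZMod m,
    ∑ z ∈ univ.filter (fun z : ZMod m => (l : ZMod m) * z = l * x), f z = f (l * x)

/-- The generators of the group of level `m` modulo the relations and the level `m / l`, where
`m = l ^ a * M`. -/
def gen (l a M : ℕ) [NeZero (l ^ a * M)] : Finset (ZMod (l ^ a * M)) :=
  univ.filter fun x => ¬ l ∣ x.val ∧ l ^ (a - 1) ≤ x.val % l ^ a ∧
    2 * (x.val % l ^ (a - 1)) < l ^ (a - 1) ∧ ∀ p ∈ M.primeFactors,
      p ^ M.factorization p ∣ x.val ∨ (¬ p ∣ x.val ∧ x.val % p ^ M.factorization p ≠ 1)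

end Pool.Agent.FermD
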