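import Pool.Agent.FermD.Defs

/-!
# FD1: iterated distribution relations

* `iter`: induction on `k`. `f (p * (p ^ k x)) = ∑ f w` over the `w` with `p w = p * (p ^ k x)`
  (`hf.dist` at the point `p ^ k x`). Such a `w` is `p ^ k x + (m / p) j`, and `p ^ k` divides `m / p`
  (as `p ^ (k + 1) ∣ m`), so `w = p ^ k z₀` for some `z₀`, and `f w = ∑ f z` over the `z` with
  `p ^ k z = w` by induction. Together: the sum over all `z` with `p ^ (k+1) z = p ^ (k+1) x`
  (`Finset.sum_fiberwise_of_maps_to` or `sum_biUnion`). Useful: `Pool.Stick.fibre_iff`,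
  `sum_fibre`, `val_mul_eq` (`Stick/Lattice.lean`): `l z = l x` iff `z.val % M = x.val % M` for
  `m = l * M`.
* `unit_sum`: let `m = p ^ b * N`, `p ∤ N`. Let `w` be `0` modulo `p ^ b` and `x` modulo `N` (Chinese
  remainder). `p ^ b z = p ^ b x` iff `z ≡ x mod N`. The `z` with `z ≡ x mod N` and `p ∣ z.val` are
  the `z` with `z ≡ w mod p N`, i.e. `p ^ (b-1) z = p ^ (b-1) w`. So the sum over the `z` with `p ∤ z.val`
  is the difference of the sums in `iter` for `k = b` and `k = b - 1`.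
-/

set_option autoImplicit false

namespace Pool.Agent.FermD

open Finset Pool.Stick

variable {m : ℕ} [NeZero m] {W : Type} [AddCommGroup W] {f : ZMod m → W}

theorem OddDist.iter (hf : OddDist f) {p : ℕ} (hp : p.Prime) (k : ℕ) (hk : p ^ k ∣ m)
    (x : ZMod m) :
    ∑ z ∈ univ.filter (fun z : ZMod m => ((p ^ k : ℕ) : ZMod m) * z = ((p ^ k : ℕ) : ZMod m) * x),
      f z = f (((p ^ k : ℕ) : ZMod m) * x) := by
  induction k generalizing x with
  | zero =>
    have h1 : univ.filter (fun z : ZMod m =>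
        ((p ^ 0 : ℕ) : ZMod m) * z = ((p ^ 0 : ℕ) : ZMod m) * x) = {x} := by
      ext z
      simp
    rw [h1, sum_singleton, pow_zero, Nat.cast_one, one_mul]
  | succ k ih =>
    have hk' : p ^ k ∣ m := (pow_dvd_pow p (Nat.le_succ k)).trans hk
    have hpm : p ∣ m := (dvd_pow_self p (Nat.succ_ne_zero k)).trans hk
    have ep : ∀ y : ZMod m, ((p ^ (k + 1) : ℕ) : ZMod m) * y =
        (p : ZMod m) * (((p ^ k : ℕ) : ZMod m) * y) := by
      intro y
      rw [pow_succ', Nat.cast_mul, mul_assoc]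
    have hsurj : ∀ w : ZMod m, (p : ZMod m) * w = p * (((p ^ k : ℕ) : ZMod m) * x) →
        ∃ c : ZMod m, ((p ^ k : ℕ) : ZMod m) * c = w := by
      intro w hw
      obtain ⟨M, hM⟩ := hk
      have h1 : m = p * (p ^ k * M) := by
        rw [← mul_assoc, ← pow_succ']
        exact hM
      rw [fibre_iff h1 hp.pos] at hw
      have h2 : m = p ^ k * (p * M) := by
        rw [← mul_assoc, ← pow_succ]
        exact hM
      have h3 : p ^ k ∣ (((p ^ k : ℕ) : ZMod m) * x).val := by
        rw [val_mul_eq h2]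
        exact dvd_mul_right _ _
      have h4 : p ^ k ∣ w.val := by
        have h5 : p ^ k ∣ w.val % (p ^ k * M) := by
          rw [hw]
          exact (Nat.dvd_mod_iff (dvd_mul_right _ _)).2 h3
        exact (Nat.dvd_mod_iff (dvd_mul_right _ _)).1 h5
      obtain ⟨c, hc⟩ := h4
      refine ⟨(c : ZMod m), ?_⟩
      rw [← Nat.cast_mul, ← hc, ZMod.natCast_zmod_val]
    rw [ep x, ← hf.dist p hp hpm (((p ^ k : ℕ) : ZMod m) * x)]
    rw [← Finset.sum_fiberwise_of_maps_to (g := fun z : ZMod m => ((p ^ k : ℕ) : ZMod m) * z)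
      (t := univ.filter (fun w : ZMod m => (p : ZMod m) * w = p * (((p ^ k : ℕ) : ZMod m) * x)))]
    · refine sum_congr rfl fun w hw => ?_
      rw [mem_filter] at hw
      obtain ⟨c, hc⟩ := hsurj w hw.2
      have h1 := ih hk' c
      rw [hc] at h1
      rw [← h1]
      refine sum_congr ?_ fun _ _ => rfl
      ext z
      simp only [mem_filter, mem_univ, true_and]
      constructor
      · exact fun h => h.2
      · intro h
        refine ⟨?_, h⟩
        rw [ep z, h]
        exact hw.2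
    · intro z hz
      rw [mem_filter] at hz ⊢
      rw [ep z] at hz
      exact ⟨mem_univ _, hz.2⟩

/-- The sum over the elements which are prime to `p` and fixed modulo the part of `m` prime to
`p`. -/
theorem OddDist.unit_sum (hf : OddDist f) {p b : ℕ} (hp : p.Prime) (hb : 0 < b)
    (hm : p ^ b ∣ m) (hm' : ¬ p ^ (b + 1) ∣ m) (x : ZMod m) :
    ∃ w : ZMod m, p ^ b ∣ w.val ∧
      ((p ^ b : ℕ) : ZMod m) * w = ((p ^ b : ℕ) : ZMod m) * x ∧
      ∑ z ∈ univ.filter (fun z : ZMod m =>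
        ((p ^ b : ℕ) : ZMod m) * z = ((p ^ b : ℕ) : ZMod m) * x ∧ ¬ p ∣ z.val), f z =
        f (((p ^ b : ℕ) : ZMod m) * x) - f (((p ^ (b - 1) : ℕ) : ZMod m) * w) := by
  obtain ⟨N, hN⟩ := hm
  have hpN : ¬ p ∣ N := by
    rintro ⟨c, rfl⟩
    exact hm' ⟨c, by rw [hN, pow_succ, mul_assoc]⟩
  have hpos : 0 < p ^ b := pow_pos hp.pos b
  have hcop' : p.Coprime N := (Nat.Prime.coprime_iff_not_dvd hp).2 hpN
  have hcop : (p ^ b).Coprime N := hcop'.pow_left b
  have hN0 : N ≠ 0 := by
    rintro rfl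
    exact NeZero.ne m (by rw [hN, mul_zero])
  obtain ⟨c, hc1, hc2⟩ := Nat.chineseRemainder hcop 0 x.val
  have hw1 : ((c : ZMod m)).val % p ^ b = c % p ^ b := by
    rw [ZMod.val_natCast]
    exact Nat.mod_mod_of_dvd c ⟨N, hN⟩
  have hw2 : ((c : ZMod m)).val % N = c % N := by
    rw [ZMod.val_natCast]
    exact Nat.mod_mod_of_dvd c ⟨p ^ b, by rw [hN, mul_comm]⟩
  have hw0 : p ^ b ∣ ((c : ZMod m)).val := by
    rw [Nat.dvd_iff_mod_eq_zero, hw1]
    exact (Nat.modEq_zero_iff_dvd.1 hc1) |> Nat.mod_eq_zero_of_dvd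
  refine ⟨(c : ZMod m), hw0, ?_, ?_⟩
  · rw [fibre_iff hN hpos, hw2]
    exact hc2
  · have h1 := hf.iter hp b ⟨N, hN⟩ x
    have hb' : p ^ b = p ^ (b - 1) * p := by
      rw [← pow_succ]
      congr 1
      omega
    have hN' : m = p ^ (b - 1) * (p * N) := by
      rw [← mul_assoc, ← hb']
      exact hN
    have h2 := hf.iter hp (b - 1) ⟨_, hN'⟩ (c : ZMod m)
    rw [← h1, ← h2, eq_sub_iff_add_eq, ← sum_filter_add_sum_filter_not
      (univ.filter (fun z : ZMod m => ((p ^ b : ℕ) : ZMod m) * z = ((p ^ b : ℕ) : ZMod m) * x))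
      (fun z : ZMod m => ¬ p ∣ z.val), filter_filter, filter_filter]
    congr 1
    refine sum_congr ?_ fun _ _ => rfl
    ext z
    simp only [mem_filter, mem_univ, true_and, not_not]
    rw [fibre_iff hN' (pow_pos hp.pos _), fibre_iff hN hpos]
    have h3 : z.val % (p * N) = ((c : ZMod m)).val % (p * N) ↔
        z.val ≡ ((c : ZMod m)).val [MOD p] ∧ z.val ≡ ((c : ZMod m)).val [MOD N] :=
      (Nat.modEq_and_modEq_iff_modEq_mul hcop').symm
    have h4 : p ∣ ((c : ZMod m)).val := (dvd_pow_self p hb.ne').trans hw0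
    have h5 : z.val ≡ ((c : ZMod m)).val [MOD p] ↔ p ∣ z.val := by
      rw [← Nat.modEq_zero_iff_dvd]
      have h6 : ((c : ZMod m)).val ≡ 0 [MOD p] := Nat.modEq_zero_iff_dvd.2 h4
      exact ⟨fun h => h.trans h6, fun h => h.trans h6.symm⟩
    have h6 : z.val ≡ ((c : ZMod m)).val [MOD N] ↔ z.val % N = x.val % N := by
      have h7 : ((c : ZMod m)).val ≡ x.val [MOD N] := by
        show _ % _ = _ % _
        rw [hw2]
        exact hc2
      exact ⟨fun h => h.trans h7, fun h => Nat.ModEq.trans h h7.symm⟩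
    rw [h3, h5, h6]
    exact and_comm

end Pool.Agent.FermD
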