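import Pool.Agent.FermD.Rank

/-!
# FD9: generators which are independent

`indep_gen`: `v = ∑ n x * e x + w + r` (`x ∈ E`, `w ∈ T`, `r ∈ R`; `AddSubgroup.mem_sup`, and for the
closure of `e '' E` take integers `n x`; compare `exists_coef` in `Stick/Lattice4.lean`). Let `U` be the
span of `bv '' T`, of dimension `≤ d`. All `bv (e x)` are in `span (bv (e y), y ∈ E) ⊔ U` (`bv` is zero
on `R`), and their span has dimension `≥ φ m / 2 = E.card + d` (`finrank_all`). So the images of the
`bv (e y)`, `y ∈ E`, in the quotient by `U` span a space of dimension `≥ E.card`: they are linearly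
independent (`linearIndependent_iff_card_le_finrank_span` or similar; in particular
`y ↦ bv (e y)` is injective on `E`). `bv v = 0` gives `∑ n x • bv (e x) ∈ U`, so all `n x = 0` and
`v - w = r`. (Without the quotient: if `∑ n y • bv (e y) ∈ U` with some `n y₀ ≠ 0`, then
`bv (e y₀) ∈ span (bv (e y), y ∈ E \ {y₀}) ⊔ U`, a space of dimension `≤ E.card - 1 + d`, which contains
all `bv (e x)`: a contradiction. This needs only `finrank_span_finset_le_card` and
`Submodule.finrank_add_le_finrank_add_finrank`.)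
-/

set_option autoImplicit false

namespace Pool.Agent.FermD

open Finset Pool.Stick Pool.Agent.StarkRQ

variable {m n : ℕ} [NeZero m] [NeZero n]

omit [NeZero m] in
private theorem ig_coef {E : Finset (ZMod m)} {w : A m}
    (hw : w ∈ AddSubgroup.closure (e '' (E : Set (ZMod m)))) :
    ∃ n : ZMod m → ℤ, w = ∑ x ∈ E, n x • e x := by
  classical
  induction hw using AddSubgroup.closure_induction with
  | mem x hx =>
    obtain ⟨u, hu, rfl⟩ := hx
    refine ⟨Pi.single u 1, ?_⟩
    rw [sum_eq_single u]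
    · rw [Pi.single_eq_same, one_smul]
    · intro b _ hb
      rw [Pi.single_eq_of_ne hb, zero_smul]
    · intro h
      exact absurd hu h
  | zero => exact ⟨0, by simp⟩
  | add x y _ _ hx hy =>
    obtain ⟨a, rfl⟩ := hx
    obtain ⟨b, rfl⟩ := hy
    refine ⟨a + b, ?_⟩
    rw [← sum_add_distrib]
    exact sum_congr rfl fun u _ => by rw [Pi.add_apply, add_smul]
  | neg x _ hx =>
    obtain ⟨a, rfl⟩ := hx
    refine ⟨-a, ?_⟩
    rw [← sum_neg_distrib]
    exact sum_congr rfl fun u _ => by rw [Pi.neg_apply, neg_smul]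

omit [NeZero m] in
private theorem ig_top {H : AddSubgroup (A m)} (h : ∀ x : ZMod m, e x ∈ H) (v : A m) : v ∈ H := by
  induction v using Finsupp.induction_linear with
  | zero => exact H.zero_mem
  | add a b ha hb => exact H.add_mem ha hb
  | single x n =>
    have h1 : (Finsupp.single x n : A m) = n • e x := by
      unfold e
      rw [Finsupp.smul_single, smul_eq_mul, mul_one]
    rw [h1]
    exact H.zsmul_mem (h x) n

theorem indep_gen (hm : 3 ≤ m) (R T : AddSubgroup (A m)) (hR : ∀ v ∈ R, bv v = 0) (d : ℕ)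
    (hT : Module.finrank ℝ (Submodule.span ℝ (bv '' (T : Set (A m)))) ≤ d) (E : Finset (ZMod m))
    (hE : 2 * (E.card + d) = Nat.totient m)
    (hgen : ∀ x : ZMod m, e x ∈ AddSubgroup.closure (e '' (E : Set (ZMod m))) ⊔ T ⊔ R) {v : A m}
    (hv : bv v = 0) : ∃ w ∈ T, v - w ∈ R := by
  classical
  set U : Submodule ℝ ((ZMod m)ˣ → ℝ) := Submodule.span ℝ (bv '' (T : Set (A m))) with hU
  have hdec : ∀ v : A m, ∃ n : ZMod m → ℤ, ∃ w ∈ T, ∃ r ∈ R, v = ∑ x ∈ E, n x • e x + w + r := by
    intro v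
    obtain ⟨y, hy, r, hr, hyr⟩ := AddSubgroup.mem_sup.1 (ig_top hgen v)
    obtain ⟨s, hs, w, hw, hsw⟩ := AddSubgroup.mem_sup.1 hy
    obtain ⟨n, hn⟩ := ig_coef hs
    exact ⟨n, w, hw, r, hr, by rw [← hyr, ← hsw, ← hn]⟩
  have hbv : ∀ (n : ZMod m → ℤ) (w r : A m), r ∈ R → bv (∑ x ∈ E, n x • e x + w + r) =
      ∑ x ∈ E, (n x : ℝ) • bv (e x) + bv w := by
    intro n w r hr
    rw [map_add, map_add, hR r hr, add_zero, map_sum]
    congr 1
    refine sum_congr rfl fun x _ => ?_
    rw [map_zsmul, ← Int.cast_smul_eq_zsmul ℝ]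
  have hTU : ∀ w ∈ T, bv w ∈ U := fun w hw => Submodule.subset_span ⟨w, hw, rfl⟩
  obtain ⟨n, w, hw, r, hr, hvn⟩ := hdec v
  have h0 : ∀ x ∈ E, n x = 0 := by
    by_contra hcon
    push Not at hcon
    obtain ⟨x₀, hx₀, hn₀⟩ := hcon
    set W : Submodule ℝ ((ZMod m)ˣ → ℝ) :=
      Submodule.span ℝ (((E.erase x₀).image fun x => bv (e x) : Finset ((ZMod m)ˣ → ℝ)) :
        Set ((ZMod m)ˣ → ℝ)) ⊔ U with hW
    have hmem : ∀ x ∈ E, x ≠ x₀ → bv (e x) ∈ W := fun x hx hne =>
      Submodule.mem_sup_left (Submodule.subset_span (by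
        rw [Finset.mem_coe, Finset.mem_image]
        exact ⟨x, Finset.mem_erase.2 ⟨hne, hx⟩, rfl⟩))
    have hmem₀ : bv (e x₀) ∈ W := by
      have h1 := hbv n w r hr
      rw [← hvn, hv, ← Finset.add_sum_erase E _ hx₀] at h1
      have h2 : (n x₀ : ℝ) • bv (e x₀) =
          -(∑ x ∈ E.erase x₀, (n x : ℝ) • bv (e x)) - bv w := by
        have h3 : (n x₀ : ℝ) • bv (e x₀) + (∑ x ∈ E.erase x₀, (n x : ℝ) • bv (e x)) + bv w = 0 :=
          h1.symm
        rw [eq_sub_iff_add_eq, eq_neg_iff_add_eq_zero, ← h3]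
        abel
      have h4 : (n x₀ : ℝ) • bv (e x₀) ∈ W := by
        rw [h2]
        refine W.sub_mem (W.neg_mem (W.sum_mem fun x hx => W.smul_mem _ ?_))
          (Submodule.mem_sup_right (hTU w hw))
        exact hmem x (Finset.mem_of_mem_erase hx) (Finset.ne_of_mem_erase hx)
      have h5 : (n x₀ : ℝ) ≠ 0 := by exact_mod_cast hn₀
      exact (W.smul_mem_iff h5).1 h4
    have hmemE : ∀ x ∈ E, bv (e x) ∈ W := by
      intro x hx
      by_cases hne : x = x₀
      · rw [hne]
        exact hmem₀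
      · exact hmem x hx hne
    have hall : Submodule.span ℝ (Set.range fun x : ZMod m => bv (e x)) ≤ W := by
      rw [Submodule.span_le]
      rintro _ ⟨x, rfl⟩
      obtain ⟨n', w', hw', r', hr', hx⟩ := hdec (e x)
      change bv (e x) ∈ W
      rw [hx, hbv n' w' r' hr']
      exact W.add_mem (W.sum_mem fun x hx => W.smul_mem _ (hmemE x hx))
        (Submodule.mem_sup_right (hTU w' hw'))
    have h1 := Submodule.finrank_mono hall
    have h2 := finrank_all (m := m) hm
    have h3 : Module.finrank ℝ W ≤ (E.card - 1) + d := by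
      refine (Submodule.finrank_add_le_finrank_add_finrank _ _).trans (Nat.add_le_add ?_ hT)
      refine (finrank_span_finset_le_card _).trans (Finset.card_image_le.trans ?_)
      rw [Finset.card_erase_of_mem hx₀]
    have h4 : 1 ≤ E.card := Finset.card_pos.2 ⟨x₀, hx₀⟩
    omega
  refine ⟨w, hw, ?_⟩
  have h1 : ∑ x ∈ E, n x • e x = 0 := Finset.sum_eq_zero fun x hx => by rw [h0 x hx, zero_smul]
  rw [hvn, h1, zero_add, add_sub_cancel_left]
  exact hr

end Pool.Agent.FermD
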