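import Pool.Agent.FermD.Defs

/-!
# FD6: the map from level `n` to level `m`

`(mulD m n x).val = m / n * x.val` (`ZMod.val_natCast_of_lt`). The rest is direct: `mulD m n` is
additive (`mulD m n x = ((m / n * x.val : ℕ) : ZMod m)`, `m / n * n = m`), injective,
`t * mulD m n x = mulD m n ((t mod n) * x)`.
* `mulD_distSet`: `distSet` (`Stick/Defs.lean` or `Stick/Lattice.lean`) consists of the `z` with
  `l z = l x`, the element `- l x` and, for `l = 2`, the element `m / 2`. `mulD m n` is injective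
  and maps the `l` elements `z` with `l z = l x` of `ZMod n` to the `l` elements of `ZMod m` with
  `l z = l * mulD m n x`; `mulD m n (n / 2) = m / 2` for even `n`.
* `exists_mulD`: `x.val = l * j`, `j < m / l`, and `m / (m / l) = l`.
-/

set_option autoImplicit false

namespace Pool.Agent.FermD

open Finset Pool.Stick Pool.Agent.StarkRQ

variable {m n k : ℕ} [NeZero m] [NeZero n] [NeZero k]

private theorem mulD_int (h : n ∣ m) (a : ℤ) :
    mulD m n (a : ZMod n) = ((m / n : ℕ) : ZMod m) * (a : ZMod m) := by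
  have h1 : (((a : ZMod n).val : ℤ) : ZMod n) = (a : ZMod n) := by
    rw [Int.cast_natCast, ZMod.natCast_zmod_val]
  rw [ZMod.intCast_eq_intCast_iff_dvd_sub] at h1
  obtain ⟨k, hk⟩ := h1
  have h2 : ((m / n : ℕ) : ℤ) * (n : ℤ) = m := by
    rw [← Nat.cast_mul, Nat.div_mul_cancel h]
  have h3 : ((m / n : ℕ) : ℤ) * a = ((m / n : ℕ) : ℤ) * ((a : ZMod n).val : ℤ) + m * k := by
    have h4 : a = ((a : ZMod n).val : ℤ) + n * k := by linarith
    calc ((m / n : ℕ) : ℤ) * a
        = ((m / n : ℕ) : ℤ) * (((a : ZMod n).val : ℤ) + n * k) := by rw [← h4]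
      _ = ((m / n : ℕ) : ℤ) * ((a : ZMod n).val : ℤ) + (((m / n : ℕ) : ℤ) * n) * k := by ring
      _ = _ := by rw [h2]
  have h5 := congrArg (Int.cast : ℤ → ZMod m) h3
  simp only [Int.cast_mul, Int.cast_add, Int.cast_natCast] at h5
  unfold mulD
  rw [Nat.cast_mul, h5, ZMod.natCast_self, zero_mul, add_zero]

private theorem mulD_nat (h : n ∣ m) (a : ℕ) :
    mulD m n (a : ZMod n) = ((m / n : ℕ) : ZMod m) * (a : ZMod m) := by
  have := mulD_int h (a : ℤ)
  rwa [Int.cast_natCast, Int.cast_natCast] at this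

private theorem mulD_add (h : n ∣ m) (x y : ZMod n) :
    mulD m n (x + y) = mulD m n x + mulD m n y := by
  have h1 : x + y = ((x.val + y.val : ℕ) : ZMod n) := by
    rw [Nat.cast_add, ZMod.natCast_zmod_val, ZMod.natCast_zmod_val]
  rw [h1, mulD_nat h]
  unfold mulD
  push_cast
  ring

private theorem mulD_nat_mul (h : n ∣ m) (l : ℕ) (x : ZMod n) :
    mulD m n ((l : ZMod n) * x) = (l : ZMod m) * mulD m n x := by
  have h1 : (l : ZMod n) * x = ((l * x.val : ℕ) : ZMod n) := by
    rw [Nat.cast_mul, ZMod.natCast_zmod_val]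
  rw [h1, mulD_nat h]
  unfold mulD
  push_cast
  ring

private theorem div_pos' (h : n ∣ m) : 0 < m / n :=
  Nat.div_pos (Nat.le_of_dvd (Nat.pos_of_neZero m) h) (Nat.pos_of_neZero n)

theorem mulD_val (h : n ∣ m) (x : ZMod n) : (mulD m n x).val = m / n * x.val := by
  unfold mulD
  apply ZMod.val_natCast_of_lt
  calc m / n * x.val < m / n * n := (Nat.mul_lt_mul_left (div_pos' h)).mpr x.val_lt
    _ = m := Nat.div_mul_cancel h

theorem mulD_inj (h : n ∣ m) : Function.Injective (mulD m n) := by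
  intro x y hxy
  have h1 := congrArg ZMod.val hxy
  rw [mulD_val h, mulD_val h] at h1
  exact ZMod.val_injective n (Nat.eq_of_mul_eq_mul_left (div_pos' h) h1)

theorem mulD_zero : mulD m n 0 = 0 := by
  unfold mulD
  rw [ZMod.val_zero, mul_zero, Nat.cast_zero]

theorem mulD_neg (h : n ∣ m) (x : ZMod n) : mulD m n (-x) = - mulD m n x := by
  have h1 := mulD_add h (-x) x
  rw [neg_add_cancel, mulD_zero] at h1
  exact eq_neg_of_add_eq_zero_left h1.symm

theorem mul_mulD (h : n ∣ m) (t : (ZMod m)ˣ) (x : ZMod n) :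
    (t : ZMod m) * mulD m n x = mulD m n ((ZMod.unitsMap h t : (ZMod n)ˣ) * x) := by
  have h1 : ((ZMod.unitsMap h t : (ZMod n)ˣ) : ZMod n) = (((t : ZMod m).val : ℕ) : ZMod n) := by
    rw [ZMod.unitsMap_val, ZMod.natCast_val]
  have h2 : (t : ZMod m) = (((t : ZMod m).val : ℕ) : ZMod m) := (ZMod.natCast_zmod_val _).symm
  rw [h1, mulD_nat_mul h, ← h2]

theorem mulD_mulD (h : n ∣ m) (h' : k ∣ n) (x : ZMod k) :
    mulD m n (mulD n k x) = mulD m k x := by
  have h1 : mulD n k x = ((n / k * x.val : ℕ) : ZMod n) := rfl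
  rw [h1, mulD_nat h]
  unfold mulD
  have h2 : m / n * (n / k) = m / k := by
    obtain ⟨c, hc⟩ := h'
    obtain ⟨e, he⟩ := h
    have hk : 0 < k := Nat.pos_of_neZero k
    have hn : 0 < n := Nat.pos_of_neZero n
    have e1 : m / n = e := by rw [he, Nat.mul_div_cancel_left _ hn]
    have e2 : n / k = c := by rw [hc, Nat.mul_div_cancel_left _ hk]
    have e3 : m / k = c * e := by rw [he, hc, mul_assoc, Nat.mul_div_cancel_left _ hk]
    rw [e1, e2, e3, mul_comm]
  rw [← h2]
  push_cast
  ring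

theorem mulD_distSet (h : n ∣ m) {l : ℕ} (hl : l.Prime) (hln : l ∣ n) (x : ZMod n) :
    (distSet n l x).map (mulD m n) = distSet m l (mulD m n x) := by
  classical
  have hlm : l ∣ m := hln.trans h
  have hl0 : 0 < l := hl.pos
  have hkey : m / n * (n / l) = m / l := by
    obtain ⟨c, hc⟩ := hln
    obtain ⟨e, he⟩ := h
    have hn : 0 < n := Nat.pos_of_neZero n
    have e1 : m / n = e := by rw [he, Nat.mul_div_cancel_left _ hn]
    have e2 : n / l = c := by rw [hc, Nat.mul_div_cancel_left _ hl0]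
    have e3 : m / l = c * e := by rw [he, hc, mul_assoc, Nat.mul_div_cancel_left _ hl0]
    rw [e1, e2, e3, mul_comm]
  have h1 : (Finset.univ.filter fun z : ZMod n => (l : ZMod n) * z = l * x).map
      ⟨mulD m n, mulD_inj h⟩ =
      Finset.univ.filter fun z : ZMod m => (l : ZMod m) * z = l * mulD m n x := by
    ext z
    rw [Finset.mem_map, Finset.mem_filter]
    constructor
    · rintro ⟨w, hw, rfl⟩
      rw [Finset.mem_filter] at hw
      refine ⟨Finset.mem_univ _, ?_⟩
      change (l : ZMod m) * mulD m n w = l * mulD m n x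
      rw [← mulD_nat_mul h, hw.2, mulD_nat_mul h]
    · rintro ⟨-, hz⟩
      set y : ZMod m := z - mulD m n x with hy
      have hly : (l : ZMod m) * y = 0 := by rw [hy, mul_sub, hz, sub_self]
      have h2 : ((l * y.val : ℕ) : ZMod m) = 0 := by
        rw [Nat.cast_mul, ZMod.natCast_zmod_val]
        exact hly
      rw [ZMod.natCast_eq_zero_iff] at h2
      obtain ⟨j, hj⟩ : m / l ∣ y.val := by
        obtain ⟨c, hc⟩ := h2
        refine ⟨c, ?_⟩
        have h3 : l * y.val = l * (m / l * c) := by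
          rw [hc, ← mul_assoc, Nat.mul_div_cancel' hlm]
        exact Nat.eq_of_mul_eq_mul_left hl0 h3
      have h3 : y = mulD m n ((n / l * j : ℕ) : ZMod n) := by
        rw [mulD_nat h, ← Nat.cast_mul, ← mul_assoc, hkey, ← hj, ZMod.natCast_zmod_val]
      refine ⟨x + ((n / l * j : ℕ) : ZMod n), ?_, ?_⟩
      · rw [Finset.mem_filter]
        refine ⟨Finset.mem_univ _, ?_⟩
        rw [mul_add, ← Nat.cast_mul, ← mul_assoc, Nat.mul_div_cancel' hln, Nat.cast_mul,
          ZMod.natCast_self, zero_mul, add_zero]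
      · change mulD m n (x + ((n / l * j : ℕ) : ZMod n)) = z
        rw [mulD_add h, ← h3, hy]
        ring
  have h2 : (Finset.univ.filter fun z : ZMod n => (l : ZMod n) * z = l * x).val.map
      (mulD m n) =
      (Finset.univ.filter fun z : ZMod m => (l : ZMod m) * z = l * mulD m n x).val := by
    rw [← h1]
    rfl
  have h3 : mulD m n (-((l : ZMod n) * x)) = -((l : ZMod m) * mulD m n x) := by
    rw [mulD_neg h, mulD_nat_mul h]
  unfold distSet
  rw [Multiset.map_add, Multiset.map_add, h2, Multiset.map_singleton, h3]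
  congr 1
  by_cases h4 : l = 2
  · rw [if_pos h4, if_pos h4, Multiset.map_singleton]
    subst h4
    rw [mulD_nat h, ← Nat.cast_mul, hkey]
  · rw [if_neg h4, if_neg h4, Multiset.map_zero]

/-- the image of `mulD m (m / l)` -/
theorem exists_mulD {l : ℕ} [NeZero (m / l)] (hl : 0 < l) (hlm : l ∣ m) {x : ZMod m}
    (hx : l ∣ x.val) : ∃ y : ZMod (m / l), mulD m (m / l) y = x := by
  have h1 : m / l ∣ m := Nat.div_dvd_of_dvd hlm
  refine ⟨((x.val / l : ℕ) : ZMod (m / l)), ?_⟩
  rw [mulD_nat h1, Nat.div_div_self hlm (NeZero.ne m), ← Nat.cast_mul, Nat.mul_div_cancel' hx,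
    ZMod.natCast_zmod_val]

end Pool.Agent.FermD
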