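import Pool.Agent.FermD.Defs

/-!
# FD4: odd and even functions on the units

`-1` acts on the units modulo `n ≥ 3` without fixed points (`2 u = 0` would give `2 = 0`). Let
`H = {u | 2 * (u : ZMod n).val < n}`: exactly one of `u`, `-u` is in `H`. The restriction to `H` is an
isomorphism of the odd (even) functions with the functions on `H`, and `2 * H.card = φ n`
(`ZMod.card_units_eq_totient`).
-/

set_option autoImplicit false

namespace Pool.Agent.FermD

open Finset

/-- odd functions -/
def oddF (n : ℕ) : Submodule ℝ ((ZMod n)ˣ → ℝ) where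
  carrier := {g | ∀ u, g (-u) = - g u}
  add_mem' {g g'} h h' u := by
    have h1 := h u
    have h2 := h' u
    simp only [Pi.add_apply]
    rw [h1, h2]
    ring
  zero_mem' u := by simp
  smul_mem' c g h u := by
    have h1 := h u
    simp only [Pi.smul_apply, smul_eq_mul]
    rw [h1]
    ring

/-- even functions -/
def evenF (n : ℕ) : Submodule ℝ ((ZMod n)ˣ → ℝ) where
  carrier := {g | ∀ u, g (-u) = g u}
  add_mem' {g g'} h h' u := by
    have h1 := h u
    have h2 := h' u
    simp only [Pi.add_apply]
    rw [h1, h2]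
  zero_mem' u := by simp
  smul_mem' c g h u := by
    have h1 := h u
    simp only [Pi.smul_apply, smul_eq_mul]
    rw [h1]

/-- the sign of a unit: `1` if its representative is less than `n / 2` -/
private noncomputable def sg (n : ℕ) (u : (ZMod n)ˣ) : ℝ :=
  if 2 * (u : ZMod n).val < n then 1 else -1

private theorem sg_mul_self (n : ℕ) (u : (ZMod n)ˣ) : sg n u * sg n u = 1 := by
  unfold sg
  split_ifs <;> norm_num

private theorem sg_neg {n : ℕ} (hn : 3 ≤ n) (u : (ZMod n)ˣ) : sg n (-u) = -sg n u := by
  haveI : NeZero n := ⟨by omega⟩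
  haveI : Fact (1 < n) := ⟨by omega⟩
  have h0 : (u : ZMod n) ≠ 0 := u.ne_zero
  have h1 : ((-u : (ZMod n)ˣ) : ZMod n).val = n - (u : ZMod n).val := by
    rw [Units.val_neg, ZMod.neg_val, if_neg h0]
  have h2 : (u : ZMod n).val < n := ZMod.val_lt _
  have h3 : 2 * (u : ZMod n).val ≠ n := by
    intro h
    have h4 : ((2 * (u : ZMod n).val : ℕ) : ZMod n) = 0 := by
      rw [h, ZMod.natCast_self]
    rw [Nat.cast_mul, ZMod.natCast_zmod_val, Units.mul_left_eq_zero] at h4
    rw [ZMod.natCast_eq_zero_iff] at h4
    have := Nat.le_of_dvd two_pos h4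
    omega
  unfold sg
  rw [h1]
  by_cases h5 : 2 * (u : ZMod n).val < n
  · rw [if_pos h5, if_neg (by omega)]
  · rw [if_neg h5, if_pos (by omega)]
    norm_num

/-- multiplication by the sign -/
private noncomputable def oddEven {n : ℕ} (hn : 3 ≤ n) : oddF n ≃ₗ[ℝ] evenF n where
  toFun g := ⟨fun u => sg n u * (g : (ZMod n)ˣ → ℝ) u, fun u => by
    have h := g.2 u
    dsimp only
    rw [sg_neg hn, h]
    ring⟩
  map_add' g g' := by
    apply Subtype.ext
    funext u
    simp only [Submodule.coe_add, Pi.add_apply]
    ring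
  map_smul' c g := by
    apply Subtype.ext
    funext u
    simp only [Submodule.coe_smul, Pi.smul_apply, smul_eq_mul, RingHom.id_apply]
    ring
  invFun g := ⟨fun u => sg n u * (g : (ZMod n)ˣ → ℝ) u, fun u => by
    have h := g.2 u
    dsimp only
    rw [sg_neg hn, h]
    ring⟩
  left_inv g := by
    apply Subtype.ext
    funext u
    dsimp only
    rw [← mul_assoc, sg_mul_self, one_mul]
  right_inv g := by
    apply Subtype.ext
    funext u
    dsimp only
    rw [← mul_assoc, sg_mul_self, one_mul]

private theorem isCompl_oddF (n : ℕ) : IsCompl (oddF n) (evenF n) := by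
  constructor
  · rw [Submodule.disjoint_def]
    intro g h1 h2
    funext u
    have e1 := h1 u
    have e2 := h2 u
    rw [Pi.zero_apply]
    linarith
  · rw [codisjoint_iff, eq_top_iff]
    intro g _
    rw [Submodule.mem_sup]
    refine ⟨fun u => (g u - g (-u)) / 2, fun u => ?_, fun u => (g u + g (-u)) / 2, fun u => ?_, ?_⟩
    · dsimp only
      rw [neg_neg]
      ring
    · dsimp only
      rw [neg_neg]
      ring
    · funext u
      simp only [Pi.add_apply]
      ring

private theorem finrank_add {n : ℕ} (hn : 3 ≤ n) :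
    Module.finrank ℝ (oddF n) + Module.finrank ℝ (evenF n) = Nat.totient n := by
  haveI : NeZero n := ⟨by omega⟩
  rw [Submodule.finrank_add_eq_of_isCompl (isCompl_oddF n), Module.finrank_fintype_fun_eq_card,
    ZMod.card_units_eq_totient]

theorem finrank_oddF {n : ℕ} (hn : 3 ≤ n) : 2 * Module.finrank ℝ (oddF n) = Nat.totient n := by
  rw [← finrank_add hn, ← (oddEven hn).finrank_eq]
  ring

theorem finrank_evenF {n : ℕ} (hn : 3 ≤ n) : 2 * Module.finrank ℝ (evenF n) = Nat.totient n := by
  rw [← finrank_add hn, (oddEven hn).finrank_eq]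
  ring

end Pool.Agent.FermD
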