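import Pool.Agent.FermD.Step

/-!
# FD11: from level `m` to level `red m`

* `red_dvd`: `red m ∣ m`: the product of the primes divides `m` (`Nat.prod_primeFactors_dvd`); if
  `4 ∣ m`, then `m / 2` is even, has the same primes, and the product divides `m / 2`.
* `exists_red`: strong induction on `m`. If there is no prime `l` with `l ^ 2 ∣ m` and (`l = 2 → 8 ∣ m`)
  then `red m = m` (`m` is squarefree, or `4 ∣ m`, `8 ∤ m` and `m / 2` is squarefree): use `Lf_self`
  (transport along `red m = m` by `subst`-like generalization: prove first for an arbitrary `n` with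
  `n = m`). Otherwise `step`, `red (m / l) = red m` (same primes, and `4 ∣ m / l ↔ 4 ∣ m`), the
  induction hypothesis for `m / l` (again with an arbitrary `n = red (m / l)`), `Lf_RelE`, `Lf_Lf`.
-/

set_option autoImplicit false

namespace Pool.Agent.FermD

open Finset Pool.Stick

private theorem pf_mul {l m' : ℕ} (hl : l.Prime) (hm : m' ≠ 0) (h : l ∣ m') :
    (l * m').primeFactors = m'.primeFactors := by
  rw [Nat.primeFactors_mul hl.ne_zero hm, hl.primeFactors, Finset.union_eq_right,
    Finset.singleton_subset_iff]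
  exact Nat.mem_primeFactors.2 ⟨hl, h, hm⟩

theorem red_dvd (m : ℕ) [NeZero m] : red m ∣ m := by
  have hm0 : m ≠ 0 := NeZero.ne m
  unfold red
  split_ifs with h4
  · obtain ⟨c, rfl⟩ := h4
    have hc : c ≠ 0 := by
      rintro rfl
      simp at hm0
    have h1 : 4 * c = 2 * (2 * c) := by ring
    rw [h1, pf_mul Nat.prime_two (by omega) (dvd_mul_right 2 c), mul_comm]
    exact mul_dvd_mul_left 2 (Nat.prod_primeFactors_dvd _)
  · rw [mul_one]
    exact Nat.prod_primeFactors_dvd m

private theorem red_step {l m : ℕ} (hm : m ≠ 0) (hl : l.Prime) (h2 : l ^ 2 ∣ m)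
    (h8 : l = 2 → 8 ∣ m) : red (m / l) = red m := by
  obtain ⟨c, rfl⟩ := h2
  have hc : c ≠ 0 := by
    rintro rfl
    simp at hm
  have h1 : l ^ 2 * c = l * (l * c) := by ring
  have h3 : l ^ 2 * c / l = l * c := by
    rw [h1, Nat.mul_div_cancel_left _ hl.pos]
  rw [h3]
  have hlc : l * c ≠ 0 := mul_ne_zero hl.ne_zero hc
  have h4 : (l ^ 2 * c).primeFactors = (l * c).primeFactors := by
    rw [h1]
    exact pf_mul hl hlc (dvd_mul_right l c)
  have h5 : 4 ∣ l * c ↔ 4 ∣ l ^ 2 * c := by
    constructor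
    · intro h
      rw [h1]
      exact h.mul_left l
    · intro h
      by_cases hl2 : l = 2
      · have h6 := h8 hl2
        subst hl2
        obtain ⟨d, hd⟩ := h6
        exact ⟨d, by omega⟩
      · rw [h1] at h
        have hcop : Nat.Coprime 4 l := by
          have : Nat.Coprime (2 ^ 2) l :=
            Nat.Coprime.pow_left 2 ((Nat.coprime_primes Nat.prime_two hl).2 (Ne.symm hl2))
          simpa using this
        exact hcop.dvd_of_dvd_mul_left h
  unfold red
  rw [h4]
  simp only [h5]

private theorem red_self {m : ℕ} (hm : m ≠ 0)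
    (h : ¬ ∃ l : ℕ, l.Prime ∧ l ^ 2 ∣ m ∧ (l = 2 → 8 ∣ m)) : red m = m := by
  have h' : ∀ l : ℕ, l.Prime → l ^ 2 ∣ m → l = 2 ∧ ¬ 8 ∣ m := by
    intro l hl h2
    by_contra hcon
    refine h ⟨l, hl, h2, fun h3 => ?_⟩
    by_contra h8
    exact hcon ⟨h3, h8⟩
  unfold red
  split_ifs with h4
  · have h8 : ¬ 8 ∣ m := (h' 2 Nat.prime_two (by simpa using h4)).2
    obtain ⟨c, rfl⟩ := h4
    have hc : c ≠ 0 := by
      rintro rfl
      simp at hm
    have h1 : 4 * c = 2 * (2 * c) := by ring
    have hsq : Squarefree (2 * c) := by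
      rw [Nat.squarefree_iff_prime_squarefree]
      intro x hx hd
      have h5 := h' x hx (by
        rw [h1, pow_two]
        exact hd.mul_left 2)
      obtain ⟨rfl, -⟩ := h5
      apply h8
      obtain ⟨d, hd⟩ := hd
      exact ⟨d, by omega⟩
    rw [h1, pf_mul Nat.prime_two (by omega) (dvd_mul_right 2 c),
      Nat.prod_primeFactors_of_squarefree hsq, mul_comm]
  · rw [mul_one]
    apply Nat.prod_primeFactors_of_squarefree
    rw [Nat.squarefree_iff_prime_squarefree]
    intro x hx hd
    have h5 := h' x hx (by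
      rw [pow_two]
      exact hd)
    obtain ⟨rfl, -⟩ := h5
    exact h4 hd

private theorem red_aux (N : ℕ) : ∀ (m : ℕ) [NeZero m] (n : ℕ) [NeZero n], m ≤ N → n = red m →
    ∀ v : A m, bv v = 0 → ∃ w : A n, bv w = 0 ∧ v - Lf m n w ∈ RelE m := by
  induction N with
  | zero =>
    intro m _ n _ hm
    exact absurd (Nat.le_zero.1 hm) (NeZero.ne m)
  | succ N ih =>
    intro m hm0 n hn0 hm hn v hv
    by_cases h : ∃ l : ℕ, l.Prime ∧ l ^ 2 ∣ m ∧ (l = 2 → 8 ∣ m)
    · obtain ⟨l, hl, h2, h8⟩ := h
      have hlm : l ∣ m := (dvd_pow_self l two_ne_zero).trans h2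
      have hml : m / l ∣ m := Nat.div_dvd_of_dvd hlm
      have hpos : 0 < m / l := Nat.div_pos (Nat.le_of_dvd (NeZero.pos m) hlm) hl.pos
      have : NeZero (m / l) := ⟨hpos.ne'⟩
      obtain ⟨w', hw', hr'⟩ := step hl h2 h8 hv
      have hlt : m / l < m := Nat.div_lt_self (NeZero.pos m) hl.one_lt
      have hn' : n = red (m / l) := by rw [red_step (NeZero.ne m) hl h2 h8, hn]
      obtain ⟨w, hw, hr⟩ := ih (m / l) n (by omega) hn' w' hw'
      refine ⟨w, hw, ?_⟩
      have hnd : n ∣ m / l := by
        rw [hn']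
        exact red_dvd (m / l)
      have h3 : v - Lf m n w = (v - Lf m (m / l) w') +
          Lf m (m / l) (w' - Lf (m / l) n w) := by
        rw [map_sub, Lf_Lf hml hnd]
        abel
      rw [h3]
      exact add_mem hr' (Lf_RelE hml hr)
    · rw [red_self (NeZero.ne m) h] at hn
      subst hn
      refine ⟨v, hv, ?_⟩
      rw [Lf_self, sub_self]
      exact zero_mem _

theorem exists_red (m : ℕ) [NeZero m] {v : A m} (hv : bv v = 0) :
    ∃ w : A (red m), bv w = 0 ∧ v - Lf m (red m) w ∈ RelE m :=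
  red_aux m m (red m) le_rfl rfl v hv

end Pool.Agent.FermD
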